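import Pool.Agent.H.MP_b0c270_co.Explicit
import Pool.Agent.H.MP_b0c270_co.Defs

/-! Assembling the bounds for `f`. -/

namespace Pool.Agent.H.MP_b0c270_co

open Finset

/-! ### Similarity invariance -/

theorem exp_eq_rt (N k : ℕ) :
    Complex.exp (2 * Real.pi * Complex.I * k / N) = rt N ^ k := by
  unfold rt
  rw [← Complex.exp_nat_mul]
  congr 1
  ring

theorem Reach.sim {N n : ℕ} {p q : Fin N → ℂ} (h : Reach n p q) (σ : Fin N ≃ Fin N) (c a : ℂ) :
    Reach n (fun i => c + a * p (σ i)) (fun i => c + a * q (σ i)) := by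
  induction h with
  | refl p => exact Reach.refl _
  | @tail n p q r _ hm ih =>
    refine Reach.tail ih ?_
    obtain ⟨i, j, hij, rfl⟩ := hm
    refine ⟨σ.symm i, σ.symm j, fun h => hij (σ.symm.injective h), ?_⟩
    funext x
    by_cases hx : x = σ.symm i
    · subst hx
      simp only [Equiv.apply_symm_apply, Function.update_self]
      ring
    · have : σ x ≠ i := fun h => hx (by rw [← h, Equiv.symm_apply_apply])
      rw [Function.update_of_ne hx, Function.update_of_ne this]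

theorem ngon_sim (N : ℕ) (c a c' a' : ℂ) :
    (fun z => c' + a' * z) '' ngon N c a = ngon N (c' + a' * c) (a' * a) := by
  ext z
  constructor
  · rintro ⟨w, ⟨k, hk, rfl⟩, rfl⟩
    exact ⟨k, hk, by ring⟩
  · rintro ⟨k, hk, rfl⟩
    exact ⟨_, ⟨k, hk, rfl⟩, by ring⟩

theorem OnNgon.sim {N : ℕ} {p : Fin N → ℂ} {r : ℝ} (h : OnNgon p r) (σ : Fin N ≃ Fin N)
    (c a : ℂ) : OnNgon (fun i => c + a * p (σ i)) (‖a‖ * r) := by
  obtain ⟨c0, a0, rfl, hr⟩ := h
  refine ⟨c + a * c0, a * a0, norm_mul _ _, ?_⟩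
  rw [← ngon_sim, ← hr]
  ext z
  constructor
  · rintro ⟨i, rfl⟩
    exact ⟨p (σ i), ⟨σ i, rfl⟩, rfl⟩
  · rintro ⟨_, ⟨i, rfl⟩, rfl⟩
    exact ⟨σ.symm i, by simp⟩

theorem std_inj {N : ℕ} (hN : N ≠ 0) : Function.Injective (stdStart N) := by
  intro i j hij
  unfold stdStart at hij
  rw [exp_eq_rt, exp_eq_rt] at hij
  exact Fin.ext ((rt_prim hN).pow_inj i.2 j.2 hij)

theorem exists_perm {N : ℕ} (hN : N ≠ 0) {p : Fin N → ℂ} {r : ℝ} (hr : 0 < r) (h : OnNgon p r) :
    ∃ (σ : Fin N ≃ Fin N) (c a : ℂ), ‖a‖ = r ∧ ∀ i, p i = c + a * stdStart N (σ i) := by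
  obtain ⟨c, a, ha, hr'⟩ := h
  have h1 : ∀ i, ∃ k : Fin N, p i = c + a * stdStart N k := by
    intro i
    have : p i ∈ ngon N c a := by rw [← hr']; exact ⟨i, rfl⟩
    obtain ⟨k, hk, e⟩ := this
    exact ⟨⟨k, hk⟩, e⟩
  choose σ hσ using h1
  have ha0 : a ≠ 0 := by
    rintro rfl
    simp at ha
    linarith
  have hsurj : Function.Surjective σ := by
    intro k
    have : c + a * stdStart N k ∈ Set.range p := by
      rw [hr']
      exact ⟨k, k.2, rfl⟩
    obtain ⟨i, hi⟩ := this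
    refine ⟨i, std_inj hN ?_⟩
    rw [hσ i] at hi
    have := add_left_cancel hi
    exact mul_left_cancel₀ ha0 this
  have hbij : Function.Bijective σ := Finite.surjective_iff_bijective.mp hsurj
  exact ⟨Equiv.ofBijective σ hbij, c, a, ha, hσ⟩

theorem enlarging_eq {N : ℕ} (hN : N ≠ 0) {p : Fin N → ℂ} {r : ℝ} (hr : 0 < r) (h : OnNgon p r) :
    Enlarging p r = Enlarging (stdStart N) 1 := by
  obtain ⟨σ, c, a, ha, hp⟩ := exists_perm hN hr h
  have ha0 : a ≠ 0 := by
    rintro rfl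
    simp at ha
    linarith
  ext n
  constructor
  · rintro ⟨q, R, hR, hreach, hq⟩
    refine ⟨fun i => -(a⁻¹ * c) + a⁻¹ * q (σ.symm i), ‖a⁻¹‖ * R, ?_, ?_, hq.sim _ _ _⟩
    · rw [norm_inv, ha, inv_mul_eq_div, one_lt_div hr]
      exact hR
    · have h1 := hreach.sim σ.symm (-(a⁻¹ * c)) a⁻¹
      have e : (fun i => -(a⁻¹ * c) + a⁻¹ * p (σ.symm i)) = stdStart N := by
        funext i
        rw [hp, Equiv.apply_symm_apply]
        field_simp
        ring
      rwa [e] at h1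
  · rintro ⟨q, R, hR, hreach, hq⟩
    refine ⟨fun i => c + a * q (σ i), ‖a‖ * R, ?_, ?_, hq.sim _ _ _⟩
    · rw [ha]
      nlinarith
    · have h1 := hreach.sim σ c a
      have e : (fun i => c + a * stdStart N (σ i)) = p := by
        funext i
        rw [hp]
      rwa [e] at h1

/-! ### The lower bound -/

theorem Reach.card_moved {N n : ℕ} {p q : Fin N → ℂ} (h : Reach n p q) :
    (Finset.univ.filter fun i => q i ≠ p i).card ≤ n := by
  classical
  induction h with
  | refl p => simp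
  | @tail n p q r _ hm ih =>
    obtain ⟨i, j, hij, rfl⟩ := hm
    calc _ ≤ (insert i (Finset.univ.filter fun x => q x ≠ p x)).card := by
          apply Finset.card_le_card
          intro x hx
          simp only [mem_filter, mem_univ, true_and, mem_insert] at hx ⊢
          by_cases hxi : x = i
          · exact Or.inl hxi
          · rw [Function.update_of_ne hxi] at hx
            exact Or.inr hx
      _ ≤ _ := (Finset.card_insert_le _ _).trans (by omega)

theorem lower {N n : ℕ} (hN : N ≠ 0) (h : n ∈ Enlarging (stdStart N) 1) : N ≤ n + 2 := by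
  classical
  obtain ⟨q, R, hR, hreach, c, a, ha, hq⟩ := h
  have h1 := hreach.card_moved
  by_contra hlt
  push Not at hlt
  have h2 : 2 < (Finset.univ.filter fun i => q i = stdStart N i).card := by
    have h3 := Finset.card_filter_add_card_filter_not (s := (Finset.univ : Finset (Fin N)))
      (p := fun i => q i = stdStart N i)
    rw [Finset.card_univ, Fintype.card_fin] at h3
    have h4 : (Finset.univ.filter fun i => ¬ q i = stdStart N i).card ≤ n := h1
    omega
  obtain ⟨x, y, z, hx, hy, hz, hxy, hxz, hyz⟩ := Finset.two_lt_card_iff.mp h2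
  simp only [mem_filter, mem_univ, true_and] at hx hy hz
  have hd1 : ∀ i : Fin N, dist (stdStart N i) 0 = 1 := by
    intro i
    rw [dist_zero_right]
    unfold stdStart
    rw [exp_eq_rt, norm_pow, rt_norm, one_pow]
  have hd2 : ∀ i : Fin N, q i = stdStart N i → dist (stdStart N i) c = R := by
    intro i hi
    have h5 : q i ∈ ngon N c a := by rw [← hq]; exact ⟨i, rfl⟩
    obtain ⟨k, hk, e⟩ := h5
    rw [← hi, e, dist_eq_norm, add_sub_cancel_left, norm_mul, exp_eq_rt, norm_pow, rt_norm,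
      one_pow, mul_one, ha]
  have hc : (0 : ℂ) ≠ c := by
    rintro rfl
    have := hd1 x
    rw [hd2 x hx] at this
    linarith
  have hinj := std_inj hN
  rcases EuclideanGeometry.eq_of_dist_eq_of_dist_eq_of_finrank_eq_two
    Complex.finrank_real_complex hc (hinj.ne hxy) (hd1 x) (hd1 y) (hd1 z) (hd2 x hx) (hd2 y hy)
    (hd2 z hz) with h6 | h6
  · exact hxz (hinj h6).symm
  · exact hyz (hinj h6).symm

/-! ### The upper bounds -/

theorem MovesOn.reach {N n : ℕ} {S : Set (Fin N)} {p q : Fin N → ℂ} (h : MovesOn S n p q) :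
    Reach n p q := by
  induction h with
  | refl p => exact Reach.refl p
  | step i j hi hj hij _ ih => exact Reach.tail ih ⟨i, j, hij, rfl⟩

/-- from a jump sequence for the whole polygon -/
theorem f_le_of_free {N C : ℕ} (hN : N ≠ 0) {w : ℂ} (hw : 1 < ‖w‖)
    (h : ∃ β', RL N C (st (rt N) 1 0) (st (rt N) (w * 1) β')) :
    ∃ n ∈ Enlarging (stdStart N) 1, n ≤ C := by
  obtain ⟨β', k, hk, q', h1, h2⟩ := h
  have : NeZero N := ⟨hN⟩
  obtain ⟨Q, hQ, hQ1, -⟩ := h1.transfer (S' := (Set.univ : Set (Fin N))) (Fin.ofNat N)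
    (by
      intro x hx y hy hxy
      simp only [Set.mem_Iio] at hx hy
      have := congrArg Fin.val hxy
      simp only [Fin.ofNat, Nat.mod_eq_of_lt hx, Nat.mod_eq_of_lt hy] at this
      exact this)
    (fun _ _ => trivial) (stdStart N) (by
      intro x hx
      simp only [Set.mem_Iio] at hx
      unfold stdStart st
      rw [exp_eq_rt]
      simp [Fin.ofNat, Nat.mod_eq_of_lt hx])
  refine ⟨k, ?_, hk⟩
  refine ⟨Q, ‖w‖, hw, hQ.reach, β', w, rfl, ?_⟩
  ext z
  constructor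
  · rintro ⟨i, rfl⟩
    refine ⟨i, i.2, ?_⟩
    have h3 := hQ1 i i.2
    have h4 := h2 i i.2
    simp only [Fin.ofNat_eq_cast, Fin.cast_val_eq_self] at h3
    rw [h3, h4, exp_eq_rt]
    simp only [st]
    ring
  · rintro ⟨k, hk, rfl⟩
    refine ⟨⟨k, hk⟩, ?_⟩
    have h3 := hQ1 k hk
    have h4 := h2 k hk
    have e : Fin.ofNat N k = ⟨k, hk⟩ := by
      ext
      simp [Fin.ofNat, Nat.mod_eq_of_lt hk]
    rw [e] at h3
    rw [h3, h4, exp_eq_rt]
    simp only [st]
    ring

theorem rt_pow_mul (M r : ℕ) (hr : r ≠ 0) : rt (M * r) ^ r = rt M := by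
  unfold rt
  rw [← Complex.exp_nat_mul]
  congr 1
  have : (r : ℂ) ≠ 0 := by exact_mod_cast hr
  push_cast
  rcases eq_or_ne (M : ℂ) 0 with h | h
  · rw [h]; simp
  · field_simp

/-- from a centred enlargement of a sub-polygon -/
theorem f_le_of_enl {M r C : ℕ} (hM : M ≠ 0) (hr : r ≠ 0) (h : Enl M C) :
    ∃ n ∈ Enlarging (stdStart (M * r)) 1, n ≤ r * C := by
  obtain ⟨w, τ, hw, hτ, hτi, hE⟩ := h
  have hN : M * r ≠ 0 := Nat.mul_ne_zero hM hr
  have : NeZero (M * r) := ⟨hN⟩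
  have hlt : ∀ s < r, ∀ t < M, s + r * t < M * r := by
    intro s hs t ht
    calc s + r * t < r + r * t := by omega
      _ = r * (t + 1) := by ring
      _ ≤ r * M := Nat.mul_le_mul_left _ ht
      _ = M * r := by ring
  have hmod : ∀ s < r, ∀ t, (s + r * t) % r = s := by
    intro s hs t
    rw [Nat.add_mul_mod_self_left, Nat.mod_eq_of_lt hs]
  have key : ∀ s ≤ r, ∃ n ≤ s * C, ∃ q : Fin (M * r) → ℂ, Reach n (stdStart (M * r)) q ∧
      ∀ s' < r, ∀ t < M, q (Fin.ofNat (M * r) (s' + r * t)) =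
        if s' < s then w * rt (M * r) ^ (s' + r * τ t) else rt (M * r) ^ (s' + r * t) := by
    intro s
    induction s with
    | zero =>
      intro _
      refine ⟨0, by simp, stdStart (M * r), Reach.refl _, ?_⟩
      intro s' hs' t ht
      unfold stdStart
      rw [exp_eq_rt]
      simp [Fin.ofNat, Nat.mod_eq_of_lt (hlt s' hs' t ht)]
    | succ s ih =>
      intro hs
      obtain ⟨n, hn, q, hq, hq1⟩ := ih (by omega)
      obtain ⟨k, hk, q', h1, h2⟩ := hE (rt (M * r) ^ s) 0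
      obtain ⟨Q, hQ, hQ1, hQ2⟩ := h1.transfer (S' := (Set.univ : Set (Fin (M * r))))
        (fun t => Fin.ofNat (M * r) (s + r * t))
        (by
          intro x hx y hy hxy
          simp only [Set.mem_Iio] at hx hy
          have := congrArg Fin.val hxy
          simp only [Fin.ofNat, Nat.mod_eq_of_lt (hlt s (by omega) x hx),
            Nat.mod_eq_of_lt (hlt s (by omega) y hy)] at this
          exact Nat.eq_of_mul_eq_mul_left (Nat.pos_of_ne_zero hr) (by omega))
        (fun _ _ => trivial) q (by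
          intro x hx
          rw [hq1 s (by omega) x hx, if_neg (lt_irrefl _)]
          simp only [st]
          rw [pow_add, pow_mul, rt_pow_mul M r hr]
          ring)
      have hreach : ∀ {a b : ℕ} {x y z : Fin (M * r) → ℂ}, Reach a x y → Reach b y z →
          Reach (a + b) x z := by
        intro a b x y z hxy hyz
        induction hyz with
        | refl p => simpa using hxy
        | tail _ hm ih => exact Reach.tail (ih hxy) hm
      refine ⟨n + k, by rw [Nat.add_mul, one_mul]; omega, Q, hreach hq hQ.reach, ?_⟩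
      intro s' hs' t ht
      by_cases hss : s' = s
      · subst hss
        rw [if_pos (Nat.lt_succ_self _)]
        have h3 := hQ1 t ht
        rw [h3, h2 t ht, pow_add, pow_mul, rt_pow_mul M r hr]
        ring
      · rw [hQ2 _ ?_, hq1 s' hs' t ht]
        · have e : s' < s ↔ s' < s + 1 := by omega
          simp only [e]
        · intro x hx hxy
          simp only [Set.mem_Iio] at hx
          have := congrArg Fin.val hxy
          simp only [Fin.ofNat, Nat.mod_eq_of_lt (hlt s (by omega) x hx),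
            Nat.mod_eq_of_lt (hlt s' hs' t ht)] at this
          apply hss
          rw [← hmod s' hs' t, ← this, hmod s (by omega) x]
  obtain ⟨n, hn, q, hq, hq1⟩ := key r (le_refl _)
  refine ⟨n, ?_, hn⟩
  refine ⟨q, ‖w‖, hw, hq, 0, w, rfl, ?_⟩
  have hdecomp : ∀ k < M * r, k = k % r + r * (k / r) ∧ k % r < r ∧ k / r < M := by
    intro k hk
    refine ⟨(Nat.mod_add_div k r).symm, Nat.mod_lt _ (Nat.pos_of_ne_zero hr), ?_⟩
    exact Nat.div_lt_of_lt_mul (by rwa [mul_comm] at hk)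
  ext z
  constructor
  · rintro ⟨i, rfl⟩
    obtain ⟨e, h1, h2⟩ := hdecomp i i.2
    have h3 := hq1 _ h1 _ h2
    rw [if_pos h1, ← e] at h3
    simp only [Fin.ofNat_eq_cast, Fin.cast_val_eq_self] at h3
    refine ⟨(i : ℕ) % r + r * τ ((i : ℕ) / r), hlt _ h1 _ (hτ h2), ?_⟩
    rw [h3, exp_eq_rt]
    ring
  · rintro ⟨k, hk, rfl⟩
    obtain ⟨e, h1, h2⟩ := hdecomp k hk
    have hs : Set.SurjOn τ (Set.Iio M) (Set.Iio M) := by
      have h3 : τ '' Set.Iio M = Set.Iio M :=
        Set.eq_of_subset_of_ncard_le hτ.image_subset (by rw [hτi.ncard_image]) (Set.finite_Iio M)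
      exact h3.symm.subset
    obtain ⟨t, ht, hte⟩ := hs h2
    refine ⟨Fin.ofNat (M * r) (k % r + r * t), ?_⟩
    rw [hq1 _ h1 t ht, if_pos h1, hte, ← e, exp_eq_rt]
    ring

theorem enl_odd {m : ℕ} (hm : 2 ≤ m) :
    Enl (2 * m + 1) (2 * ((m + 1) * (7 * m + 2)) + m * (4 * m)) := by
  obtain ⟨w, hw, h⟩ := odd_centred hm
  refine ⟨w, fun k => k, hw, fun _ h => h, fun _ _ _ _ h => h, ?_⟩
  intro α β
  exact h α β

/-- `f N` is attained and at most `C`. -/
def Bd (N C : ℕ) : Prop := f N ∈ Enlarging (stdStart N) 1 ∧ f N ≤ C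

theorem bd_of {N C : ℕ} (h : ∃ n ∈ Enlarging (stdStart N) 1, n ≤ C) : Bd N C := by
  obtain ⟨n, hn, hC⟩ := h
  exact ⟨Nat.sInf_mem ⟨n, hn⟩, (Nat.sInf_le hn).trans hC⟩

theorem bound_odd_divisor {N M : ℕ} (hN : N ≠ 0) (hM : Odd M) (hM5 : 5 ≤ M) (hd : M ∣ N) :
    f N ∈ Enlarging (stdStart N) 1 ∧ 2 * f N ≤ 9 * M * N := by
  obtain ⟨r, rfl⟩ := hd
  obtain ⟨m, rfl⟩ := hM
  have hr : r ≠ 0 := by rintro rfl; simp at hN
  obtain ⟨h0, h⟩ := bd_of (f_le_of_enl (by omega) hr (enl_odd (m := m) (by omega)))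
  refine ⟨h0, ?_⟩
  have h2 : 2 * (2 * ((m + 1) * (7 * m + 2)) + m * (4 * m)) ≤ 9 * (2 * m + 1) * (2 * m + 1) := by
    nlinarith
  calc 2 * f ((2 * m + 1) * r) ≤ 2 * (r * (2 * ((m + 1) * (7 * m + 2)) + m * (4 * m))) := by omega
    _ = r * (2 * (2 * ((m + 1) * (7 * m + 2)) + m * (4 * m))) := by ring
    _ ≤ r * (9 * (2 * m + 1) * (2 * m + 1)) := Nat.mul_le_mul_left _ h2
    _ = 9 * (2 * m + 1) * ((2 * m + 1) * r) := by ring

theorem bound_odd {N : ℕ} (hN : Odd N) (hN5 : 5 ≤ N) :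
    f N ∈ Enlarging (stdStart N) 1 ∧ 4 * f N ≤ 3 * (N + 1) ^ 2 := by
  obtain ⟨m, rfl⟩ := hN
  obtain ⟨w, hw, h⟩ := odd_free (m := m) (by omega)
  obtain ⟨h0, h1⟩ := bd_of (f_le_of_free (by omega) hw (h 1 0))
  refine ⟨h0, ?_⟩
  have h2 := two_costPhi m
  have h3 : 4 * f (2 * m + 1) ≤ 4 * ((m + 1) * (3 * m + 2)) := by
    calc 4 * f (2 * m + 1) ≤ 4 * (2 * costPhi m) := by omega
      _ ≤ 4 * ((m + 1) * (3 * m + 2)) := Nat.mul_le_mul_left _ h2
  nlinarith

theorem bound_eight {N : ℕ} (hN : N ≠ 0) (hd : 8 ∣ N) :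
    f N ∈ Enlarging (stdStart N) 1 ∧ 2 * f N ≤ 5 * N := by
  obtain ⟨r, rfl⟩ := hd
  have hr : r ≠ 0 := by rintro rfl; simp at hN
  obtain ⟨h0, h⟩ := bd_of (f_le_of_enl (by norm_num) hr enl8)
  exact ⟨h0, by omega⟩

theorem bound_twelve {N : ℕ} (hN : N ≠ 0) (hd : 12 ∣ N) :
    f N ∈ Enlarging (stdStart N) 1 ∧ 3 * f N ≤ 7 * N := by
  obtain ⟨r, rfl⟩ := hd
  have hr : r ≠ 0 := by rintro rfl; simp at hN
  obtain ⟨h0, h⟩ := bd_of (f_le_of_enl (by norm_num) hr enl12)
  exact ⟨h0, by omega⟩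

theorem bound_five : f 5 ≤ 12 := by
  obtain ⟨w, hw, h⟩ := free5
  exact (bd_of (f_le_of_free (by norm_num) hw (h 1 0))).2

theorem bound_general {N : ℕ} (hN : N = 5 ∨ 7 ≤ N) :
    f N ∈ Enlarging (stdStart N) 1 ∧ 4 * f N ≤ 9 * N ^ 2 := by
  have hN0 : N ≠ 0 := by omega
  have hN5 : 5 ≤ N := by omega
  by_cases hodd : Odd N
  · obtain ⟨h0, h⟩ := bound_odd hodd hN5
    exact ⟨h0, by nlinarith⟩
  · have heven : Even N := Nat.not_odd_iff_even.mp hodd
    have hN7 : 7 ≤ N := by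
      rcases hN with rfl | h
      · exact absurd (by decide : Odd 5) hodd
      · exact h
    obtain ⟨a, b, hb, hab⟩ := Nat.exists_eq_two_pow_mul_odd hN0
    have ha : a ≠ 0 := by
      rintro rfl
      rw [pow_zero, one_mul] at hab
      exact hodd (hab ▸ hb)
    by_cases hb5 : 5 ≤ b
    · obtain ⟨h0, h⟩ := bound_odd_divisor hN0 hb hb5 ⟨2 ^ a, by rw [hab, mul_comm]⟩
      refine ⟨h0, ?_⟩
      have h2 : 2 * b ≤ N := by
        rw [hab]
        obtain ⟨a', rfl⟩ : ∃ a', a = a' + 1 := ⟨a - 1, by omega⟩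
        have : 1 ≤ 2 ^ a' := Nat.one_le_two_pow
        calc 2 * b = 1 * (2 * b) := (one_mul _).symm
          _ ≤ 2 ^ a' * (2 * b) := Nat.mul_le_mul_right _ this
          _ = 2 ^ (a' + 1) * b := by ring
      nlinarith
    · have hb13 : b = 1 ∨ b = 3 := by
        obtain ⟨k, rfl⟩ := hb
        omega
      rcases hb13 with rfl | rfl
      · have h8 : 8 ∣ N := by
          have ha3 : 3 ≤ a := by
            by_contra hlt
            have : a ≤ 2 := by omega
            have h4 : 2 ^ a ≤ 2 ^ 2 := Nat.pow_le_pow_right (by norm_num) this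
            omega
          rw [hab, mul_one]
          exact pow_dvd_pow 2 ha3
        obtain ⟨h0, h⟩ := bound_eight hN0 h8
        exact ⟨h0, by nlinarith⟩
      · have h12 : 12 ∣ N := by
          have ha2 : 2 ≤ a := by
            by_contra hlt
            have : a ≤ 1 := by omega
            have h4 : 2 ^ a ≤ 2 ^ 1 := Nat.pow_le_pow_right (by norm_num) this
            omega
          rw [hab]
          exact mul_dvd_mul (pow_dvd_pow 2 ha2) (dvd_refl 3)
        obtain ⟨h0, h⟩ := bound_twelve hN0 h12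
        exact ⟨h0, by nlinarith⟩

theorem isLeast_f {N : ℕ} (hN : N = 5 ∨ 7 ≤ N) {p : Fin N → ℂ} {r : ℝ} (hr : 0 < r)
    (h : OnNgon p r) : IsLeast (Enlarging p r) (f N) := by
  rw [enlarging_eq (by omega) hr h]
  exact ⟨(bound_general hN).1, fun n hn => Nat.sInf_le hn⟩

end Pool.Agent.H.MP_b0c270_co
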