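import Mathlib

/-! Basic calculus of jump sequences. -/

namespace Pool.Agent.H.MP_b0c270_co

/-- `MovesOn S n p q`: the configuration `q` arises from `p` by exactly `n` legal moves
between pieces with labels in `S`. -/
inductive MovesOn {ι : Type*} [DecidableEq ι] (S : Set ι) : ℕ → (ι → ℂ) → (ι → ℂ) → Prop
  | refl (p : ι → ℂ) : MovesOn S 0 p p
  | step {n : ℕ} {p q : ι → ℂ} (i j : ι) (hi : i ∈ S) (hj : j ∈ S) (hij : i ≠ j)
      (h : MovesOn S n p q) :
      MovesOn S (n + 1) p (Function.update q i (2 * q j - q i))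

variable {ι κ : Type*} [DecidableEq ι] [DecidableEq κ]

theorem MovesOn.trans {S : Set ι} {m n : ℕ} {p q r : ι → ℂ} (h₁ : MovesOn S m p q)
    (h₂ : MovesOn S n q r) : MovesOn S (m + n) p r := by
  induction h₂ with
  | refl p => simpa using h₁
  | step i j hi hj hij _ ih => exact MovesOn.step i j hi hj hij (ih h₁)

theorem MovesOn.single {S : Set ι} {q : ι → ℂ} (i j : ι) (hi : i ∈ S) (hj : j ∈ S)
    (hij : i ≠ j) : MovesOn S 1 q (Function.update q i (2 * q j - q i)) :=
  MovesOn.step i j hi hj hij (MovesOn.refl q)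

theorem MovesOn.back {S : Set ι} {q : ι → ℂ} (i j : ι) (hi : i ∈ S) (hj : j ∈ S)
    (hij : i ≠ j) : MovesOn S 1 (Function.update q i (2 * q j - q i)) q := by
  have h := MovesOn.single (S := S) (q := Function.update q i (2 * q j - q i)) i j hi hj hij
  have e : Function.update (Function.update q i (2 * q j - q i)) i
      (2 * (Function.update q i (2 * q j - q i)) j -
        (Function.update q i (2 * q j - q i)) i) = q := by
    rw [Function.update_idem, Function.update_self, Function.update_of_ne (Ne.symm hij)]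
    have : 2 * q j - (2 * q j - q i) = q i := by ring
    rw [this]
    exact Function.update_eq_self i q
  rw [e] at h
  exact h

theorem MovesOn.symm {S : Set ι} {n : ℕ} {p q : ι → ℂ} (h : MovesOn S n p q) :
    MovesOn S n q p := by
  induction h with
  | refl p => exact MovesOn.refl p
  | @step n p q i j hi hj hij _ ih =>
    have := (MovesOn.back (q := q) i j hi hj hij).trans ih
    rwa [Nat.add_comm] at this

/-- Transfer of a jump sequence along an injective relabelling. -/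
theorem MovesOn.transfer {S : Set ι} {S' : Set κ} {n : ℕ} {p q : ι → ℂ}
    (h : MovesOn S n p q) (e : ι → κ) (he : Set.InjOn e S) (hm : Set.MapsTo e S S')
    (P : κ → ℂ) (hP : ∀ x ∈ S, P (e x) = p x) :
    ∃ Q : κ → ℂ, MovesOn S' n P Q ∧ (∀ x ∈ S, Q (e x) = q x) ∧
      ∀ y, (∀ x ∈ S, e x ≠ y) → Q y = P y := by
  induction h with
  | refl p => exact ⟨P, MovesOn.refl P, hP, fun _ _ => rfl⟩
  | @step n p q i j hi hj hij _ ih =>
    obtain ⟨Q, hQ, hQ1, hQ2⟩ := ih hP
    refine ⟨Function.update Q (e i) (2 * Q (e j) - Q (e i)),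
      MovesOn.step (e i) (e j) (hm hi) (hm hj) (fun h => hij (he hi hj h)) hQ, ?_, ?_⟩
    · intro x hx
      by_cases hxi : x = i
      · subst hxi
        rw [Function.update_self, Function.update_self, hQ1 _ hj, hQ1 _ hx]
      · rw [Function.update_of_ne (fun h => hxi (he hx hi h)), Function.update_of_ne hxi,
          hQ1 _ hx]
    · intro y hy
      rw [Function.update_of_ne (Ne.symm (hy i hi)), hQ2 y hy]

theorem MovesOn.mono {S S' : Set ι} (hS : S ⊆ S') {n : ℕ} {p q : ι → ℂ}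
    (h : MovesOn S n p q) : MovesOn S' n p q := by
  induction h with
  | refl p => exact MovesOn.refl p
  | step i j hi hj hij _ ih => exact MovesOn.step i j (hS hi) (hS hj) hij ih

/-- `RL M n p q`: from `p` one can reach, in at most `n` moves of the pieces `0, …, M-1`, a
configuration which agrees with `q` on these pieces. -/
def RL (M n : ℕ) (p q : ℕ → ℂ) : Prop :=
  ∃ k ≤ n, ∃ q' : ℕ → ℂ, MovesOn (Set.Iio M) k p q' ∧ ∀ x < M, q' x = q x

theorem RL.refl (M : ℕ) (p : ℕ → ℂ) : RL M 0 p p :=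
  ⟨0, le_refl _, p, MovesOn.refl p, fun _ _ => rfl⟩

theorem RL.mono {M n n' : ℕ} {p q : ℕ → ℂ} (h : RL M n p q) (hn : n ≤ n') : RL M n' p q := by
  obtain ⟨k, hk, q', h1, h2⟩ := h
  exact ⟨k, hk.trans hn, q', h1, h2⟩

theorem RL.congr_right {M n : ℕ} {p q r : ℕ → ℂ} (h : RL M n p q) (hr : ∀ x < M, q x = r x) :
    RL M n p r := by
  obtain ⟨k, hk, q', h1, h2⟩ := h
  exact ⟨k, hk, q', h1, fun x hx => (h2 x hx).trans (hr x hx)⟩

theorem RL.congr_left {M n : ℕ} {p q r : ℕ → ℂ} (h : RL M n p q) (hr : ∀ x < M, p x = r x) :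
    RL M n r q := by
  obtain ⟨k, hk, q', h1, h2⟩ := h
  obtain ⟨Q, hQ, hQ1, -⟩ := h1.transfer (S' := Set.Iio M) (fun x => x)
    (fun _ _ _ _ h => h) (fun _ h => h) r (fun x hx => (hr x hx).symm)
  exact ⟨k, hk, Q, hQ, fun x hx => (hQ1 x hx).trans (h2 x hx)⟩

theorem RL.trans {M m n : ℕ} {p q r : ℕ → ℂ} (h₁ : RL M m p q) (h₂ : RL M n q r) :
    RL M (m + n) p r := by
  obtain ⟨k, hk, q', h1, h2⟩ := h₁
  obtain ⟨l, hl, r', h3, h4⟩ := h₂.congr_left (r := q') (fun x hx => (h2 x hx).symm)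
  exact ⟨k + l, by omega, r', h1.trans h3, h4⟩

theorem RL.symm {M n : ℕ} {p q : ℕ → ℂ} (h : RL M n p q) : RL M n q p := by
  obtain ⟨k, hk, q', h1, h2⟩ := h
  have : RL M n q' p := ⟨k, hk, p, h1.symm, fun _ _ => rfl⟩
  exact this.congr_left h2

/-- relabelling by an injective self map of `{0, …, M-1}` -/
theorem RL.relabel {M n : ℕ} {p q : ℕ → ℂ} (h : RL M n p q) (e : ℕ → ℕ)
    (he : Set.InjOn e (Set.Iio M)) (hm : Set.MapsTo e (Set.Iio M) (Set.Iio M))
    {P Q : ℕ → ℂ} (hP : ∀ x < M, P (e x) = p x) (hQ : ∀ x < M, Q (e x) = q x) :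
    RL M n P Q := by
  obtain ⟨k, hk, q', h1, h2⟩ := h
  obtain ⟨R, hR, hR1, -⟩ := h1.transfer (S' := Set.Iio M) e he hm P hP
  refine ⟨k, hk, R, hR, ?_⟩
  intro y hy
  have hs : Set.SurjOn e (Set.Iio M) (Set.Iio M) := by
    have hfin : (Set.Iio M).Finite := Set.finite_Iio M
    have h3 : e '' Set.Iio M = Set.Iio M :=
      Set.eq_of_subset_of_ncard_le hm.image_subset (by rw [he.ncard_image]) hfin
    exact h3.symm.subset
  obtain ⟨x, hx, rfl⟩ := hs hy
  rw [hR1 x hx, h2 x hx, hQ x hx]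

/-- `Sg P S u n v`: a piece standing at `u` can reach `v` by `n` jumps over pieces in `S`,
whose positions are given by `P`. -/
inductive Sg (P : ℕ → ℂ) (S : Set ℕ) (u : ℂ) : ℕ → ℂ → Prop
  | refl : Sg P S u 0 u
  | jump {n : ℕ} {v : ℂ} (y : ℕ) (hy : y ∈ S) (h : Sg P S u n v) : Sg P S u (n + 1) (2 * P y - v)

/-- `Tr P S n v`: `v` is twice a sum of `n` differences of positions of pieces in `S`. -/
inductive Tr (P : ℕ → ℂ) (S : Set ℕ) : ℕ → ℂ → Prop
  | zero : Tr P S 0 0
  | add {n : ℕ} {v : ℂ} (a b : ℕ) (ha : a ∈ S) (hb : b ∈ S) (h : Tr P S n v) :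
      Tr P S (n + 1) (v + 2 * (P b - P a))

theorem Tr.neg {P : ℕ → ℂ} {S : Set ℕ} {n : ℕ} {v : ℂ} (h : Tr P S n v) : Tr P S n (-v) := by
  induction h with
  | zero => simpa using Tr.zero (P := P) (S := S)
  | @add n v a b ha hb _ ih =>
    have := Tr.add (P := P) b a hb ha ih
    have e : -v + 2 * (P a - P b) = -(v + 2 * (P b - P a)) := by ring
    rwa [e] at this

theorem Tr.mono {P : ℕ → ℂ} {S S' : Set ℕ} (hS : S ⊆ S') {n : ℕ} {v : ℂ} (h : Tr P S n v) :
    Tr P S' n v := by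
  induction h with
  | zero => exact Tr.zero
  | add a b ha hb _ ih => exact Tr.add a b (hS ha) (hS hb) ih

theorem Tr.congr {P Q : ℕ → ℂ} {S : Set ℕ} {c : ℂ} (hPQ : ∀ x ∈ S, Q x = P x + c) {n : ℕ} {v : ℂ}
    (h : Tr P S n v) : Tr Q S n v := by
  induction h with
  | zero => exact Tr.zero
  | @add n v a b ha hb _ ih =>
    have := Tr.add (P := Q) a b ha hb ih
    rw [hPQ a ha, hPQ b hb] at this
    have e : v + 2 * (P b + c - (P a + c)) = v + 2 * (P b - P a) := by ring
    rwa [e] at this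

theorem Sg.tr {P : ℕ → ℂ} {S : Set ℕ} {u : ℂ} {k n : ℕ} {w v : ℂ} (hu : Sg P S u k w)
    (h : Tr P S n v) : Sg P S u (k + 2 * n) (w + v) := by
  induction h with
  | zero => simpa using hu
  | @add n v a b ha hb _ ih =>
    have := Sg.jump b hb (Sg.jump a ha ih)
    have e1 : k + 2 * n + 1 + 1 = k + 2 * (n + 1) := by ring
    have e2 : 2 * P b - (2 * P a - (w + v)) = w + (v + 2 * (P b - P a)) := by ring
    rwa [e1, e2] at this

theorem Sg.moves {M : ℕ} {P Z : ℕ → ℂ} {S : Set ℕ} {t : ℕ} (ht : t < M)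
    (hS : ∀ y ∈ S, y < M ∧ y ≠ t ∧ Z y = P y) {n : ℕ} {v : ℂ} (h : Sg P S (Z t) n v) :
    MovesOn (Set.Iio M) n Z (Function.update Z t v) := by
  induction h with
  | refl => rw [Function.update_eq_self]; exact MovesOn.refl Z
  | @jump n v y hy _ ih =>
    have h1 := MovesOn.step (S := Set.Iio M) t y ht (hS y hy).1 (Ne.symm (hS y hy).2.1) ih
    rw [Function.update_idem, Function.update_self, Function.update_of_ne (hS y hy).2.1,
      (hS y hy).2.2] at h1
    exact h1

end Pool.Agent.H.MP_b0c270_co
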