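import Pool.Agent.H.MP_b0c270_co.Scale

/-! Standard labels, and a rescaling of an odd polygon about its own centre. -/

namespace Pool.Agent.H.MP_b0c270_co

open Finset

/-- the polygon with centre `β` and vertices `β + α ω ^ k` -/
noncomputable def st (ω α β : ℂ) (k : ℕ) : ℂ := α * ω ^ k + β

/-- from the label on the zigzag path to the standard label -/
def e1 (m x : ℕ) : ℕ := if x % 2 = 0 then x / 2 else 2 * m + 1 - (x + 1) / 2

variable {m : ℕ}

theorem e1_lt {x : ℕ} (hx : x < 2 * m + 1) : e1 m x < 2 * m + 1 := by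
  unfold e1
  split_ifs <;> omega

theorem e1_inj : Set.InjOn (e1 m) (Set.Iio (2 * m + 1)) := by
  intro x hx y hy hxy
  simp only [Set.mem_Iio] at hx hy
  unfold e1 at hxy
  split_ifs at hxy <;> omega

theorem pow_e1 {ω : ℂ} (hω : ω ^ (2 * m + 1) = 1) {x : ℕ} (hx : x < 2 * m + 1) :
    ω ^ (e1 m x) = ex ω x := by
  unfold e1 ex
  split_ifs with h
  · rfl
  · exact (inv_pow_eq hω (by omega)).symm

def e2 (m x : ℕ) : ℕ := (2 * e1 m x) % (2 * m + 1)

theorem e2_lt (x : ℕ) : e2 m x < 2 * m + 1 := Nat.mod_lt _ (by omega)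

theorem e2_inj : Set.InjOn (e2 m) (Set.Iio (2 * m + 1)) := by
  intro x hx y hy hxy
  apply e1_inj hx hy
  have h1 := e1_lt (m := m) hx
  have h2 := e1_lt (m := m) hy
  have h3 : 2 * e1 m x ≡ 2 * e1 m y [MOD (2 * m + 1)] := hxy
  have h4 : Nat.gcd (2 * m + 1) 2 = 1 := by
    have : Nat.Coprime (2 * m + 1) 2 := (Nat.coprime_two_left.mpr ⟨m, rfl⟩).symm
    exact this
  have h5 := Nat.ModEq.cancel_left_of_coprime h4 h3
  exact Nat.ModEq.eq_of_lt_of_lt h5 h1 h2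

theorem pow_mod_eq {ω : ℂ} (hω : ω ^ (2 * m + 1) = 1) (k : ℕ) : ω ^ (k % (2 * m + 1)) = ω ^ k := by
  conv_rhs => rw [← Nat.div_add_mod k (2 * m + 1), pow_add, pow_mul, hω, one_pow, one_mul]

theorem pow_e2 {ω : ℂ} (hω : ω ^ (2 * m + 1) = 1) {x : ℕ} (hx : x < 2 * m + 1) :
    ω ^ (e2 m x) = ex (ω ^ 2) x := by
  unfold e2
  have h2 : (ω ^ 2) ^ (2 * m + 1) = 1 := by rw [← pow_mul, mul_comm, pow_mul, hω, one_pow]
  rw [pow_mod_eq hω, pow_mul, pow_e1 h2 hx]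

theorem st_free {ω l : ℂ} (hω : ω ^ (2 * m + 1) = 1) (hl : l * (ω + ω⁻¹) = ω + ω⁻¹ + 2)
    (α β : ℂ) : ∃ β', RL (2 * m + 1) (2 * costPhi m) (st ω α β) (st ω (l * α) β') := by
  obtain ⟨β', h⟩ := scale_free hω hl α β
  refine ⟨β', h.relabel (e1 m) e1_inj (fun x hx => e1_lt hx) ?_ ?_⟩
  · intro x hx
    simp only [st, pow_e1 hω hx]
  · intro x hx
    simp only [st, pow_e1 hω hx]

theorem st_anch {ω l : ℂ} (hω : ω ^ (2 * m + 1) = 1) (hl : l * (ω + ω⁻¹) = ω + ω⁻¹ + 2)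
    (α β : ℂ) : RL (2 * m + 1) ((m + 1) * (7 * m + 2)) (st ω α β)
      (st ω (l * α) (β + α * (1 - l))) := by
  refine (scale_anch hω hl α β).relabel (e1 m) e1_inj (fun x hx => e1_lt hx) ?_ ?_
  · intro x hx
    simp only [st, pow_e1 hω hx]
  · intro x hx
    simp only [st, pow_e1 hω hx]

theorem st_anch2 {ω l : ℂ} (hω : ω ^ (2 * m + 1) = 1)
    (hl : l * (ω ^ 2 + (ω ^ 2)⁻¹) = ω ^ 2 + (ω ^ 2)⁻¹ + 2)
    (α β : ℂ) : RL (2 * m + 1) ((m + 1) * (7 * m + 2)) (st ω α β)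
      (st ω (l * α) (β + α * (1 - l))) := by
  have h2 : (ω ^ 2) ^ (2 * m + 1) = 1 := by rw [← pow_mul, mul_comm, pow_mul, hω, one_pow]
  refine (scale_anch h2 hl α β).relabel (e2 m) e2_inj (fun x _ => e2_lt x) ?_ ?_
  · intro x hx
    simp only [st, pow_e2 hω hx]
  · intro x hx
    simp only [st, pow_e2 hω hx]

/-- `mu ω = 1 / (ω + ω⁻¹)` as an integral combination of powers -/
noncomputable def mu (m : ℕ) (ω : ℂ) : ℂ := -∑ i ∈ range m, ω ^ (4 * i + 3)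

theorem mu_spec {ω : ℂ} (hω : ω ^ (2 * m + 1) = 1) (h1 : ω ≠ 1) : mu m ω * (ω + ω⁻¹) = 1 := by
  have h0 : ω ≠ 0 := by
    rintro rfl
    simp at hω
  have h2 : ω ^ 2 ≠ 1 := by
    intro h
    apply h1
    have : ω ^ (2 * m + 1) = ω := by rw [pow_succ, pow_mul, h, one_pow, one_mul]
    rw [← this, hω]
  have h3 : ∑ i ∈ range (2 * m + 1), (ω ^ 2) ^ i = 0 := by
    have h4 := geom_sum_eq h2 (2 * m + 1)
    rw [h4, ← pow_mul, mul_comm, pow_mul, hω, one_pow, sub_self, zero_div]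
  have h5 : ∀ n : ℕ, ∑ i ∈ range (2 * n + 1), (ω ^ 2) ^ i =
      1 + ∑ i ∈ range n, (ω ^ (4 * i + 3) * (ω + ω⁻¹)) := by
    intro n
    induction n with
    | zero => simp
    | succ n ih =>
      have e : 2 * (n + 1) + 1 = (2 * n + 1) + 1 + 1 := by ring
      rw [e, Finset.sum_range_succ, Finset.sum_range_succ, ih, Finset.sum_range_succ]
      have h6 : ω * ω⁻¹ = 1 := mul_inv_cancel₀ h0
      have h7 : (ω ^ 2) ^ (2 * n + 1) = ω ^ (4 * n) * ω ^ 2 := by ring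
      have h8 : (ω ^ 2) ^ (2 * n + 1 + 1) = ω ^ (4 * n) * ω ^ 4 := by ring
      have h9 : ω ^ (4 * n + 3) = ω ^ (4 * n) * ω ^ 3 := by ring
      rw [h7, h8, h9]
      linear_combination (-(ω ^ (4 * n) * ω ^ 2)) * h6
  rw [h5 m, ← Finset.sum_mul] at h3
  unfold mu
  linear_combination -h3

/-- Rescaling about the centre. -/
theorem centred {ω : ℂ} (hω : ω ^ (2 * m + 1) = 1) (h1 : ω ≠ 1) (α β : ℂ)
    (hl0 : 1 + 2 * mu m ω ≠ 0) :
    RL (2 * m + 1) (2 * ((m + 1) * (7 * m + 2)) + m * (4 * m)) (st ω α β)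
      (st ω ((1 + 2 * mu m (ω ^ 2)) / (1 + 2 * mu m ω) * α) β) := by
  set l : ℂ := 1 + 2 * mu m ω with hldef
  set l2 : ℂ := 1 + 2 * mu m (ω ^ 2) with hl2def
  have hω2 : (ω ^ 2) ^ (2 * m + 1) = 1 := by rw [← pow_mul, mul_comm, pow_mul, hω, one_pow]
  have h2 : ω ^ 2 ≠ 1 := by
    intro h
    apply h1
    have : ω ^ (2 * m + 1) = ω := by rw [pow_succ, pow_mul, h, one_pow, one_mul]
    rw [← this, hω]
  have hmu1 := mu_spec hω h1
  have hmu2 := mu_spec hω2 h2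
  have hl : l * (ω + ω⁻¹) = ω + ω⁻¹ + 2 := by rw [hldef]; linear_combination 2 * hmu1
  have hl2 : l2 * (ω ^ 2 + (ω ^ 2)⁻¹) = ω ^ 2 + (ω ^ 2)⁻¹ + 2 := by
    rw [hl2def]; linear_combination 2 * hmu2
  -- shrink
  have a1 := (st_anch hω hl (α / l) (β - α / l * (1 - l))).symm
  have e1' : l * (α / l) = α := by field_simp
  have e2' : β - α / l * (1 - l) + α / l * (1 - l) = β := by ring
  rw [e1', e2'] at a1
  -- translate
  have hT : ∀ n : ℕ, Tr (st ω (α / l) (β - α / l * (1 - l))) (Set.Iio (2 * m + 1)) n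
      (2 * (α / l) * ∑ i ∈ range n, (ω ^ (4 * i + 3) - (ω ^ 2) ^ (4 * i + 3))) := by
    intro n
    induction n with
    | zero => simpa using Tr.zero
    | succ n ih =>
      have h := Tr.add ((2 * (4 * n + 3)) % (2 * m + 1)) ((4 * n + 3) % (2 * m + 1))
        (Set.mem_Iio.mpr (Nat.mod_lt _ (Nat.succ_pos _)))
        (Set.mem_Iio.mpr (Nat.mod_lt _ (Nat.succ_pos _))) ih
      have e : 2 * (α / l) * ∑ i ∈ range n, (ω ^ (4 * i + 3) - (ω ^ 2) ^ (4 * i + 3)) +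
          2 * (st ω (α / l) (β - α / l * (1 - l)) ((4 * n + 3) % (2 * m + 1)) -
            st ω (α / l) (β - α / l * (1 - l)) ((2 * (4 * n + 3)) % (2 * m + 1))) =
          2 * (α / l) * ∑ i ∈ range (n + 1), (ω ^ (4 * i + 3) - (ω ^ 2) ^ (4 * i + 3)) := by
        rw [Finset.sum_range_succ]
        simp only [st, pow_mod_eq hω, pow_mul]
        ring
      rwa [e] at h
  have a2 := shift_tr (hT m)
  have hM : 2 * (2 * m + 1) - 2 = 4 * m := by omega
  rw [hM] at a2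
  have a2' : RL (2 * m + 1) (m * (4 * m)) (st ω (α / l) (β - α / l * (1 - l)))
      (st ω (α / l) (β - α / l * (1 - l2))) := by
    refine a2.congr_right ?_
    intro x _
    simp only [st]
    rw [hldef, hl2def]
    unfold mu
    rw [Finset.sum_sub_distrib]
    ring
  -- enlarge
  have a3 := st_anch2 hω hl2 (α / l) (β - α / l * (1 - l2))
  have e3' : β - α / l * (1 - l2) + α / l * (1 - l2) = β := by ring
  have e4' : l2 * (α / l) = l2 / l * α := by ring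
  rw [e3', e4'] at a3
  refine RL.mono ((a1.trans a2').trans a3) ?_
  omega

end Pool.Agent.H.MP_b0c270_co
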