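import Pool.Agent.H.MP_b0c270_co.Odd

/-! Explicit jump sequences for the polygons with 5, 8 and 12 vertices. -/

namespace Pool.Agent.H.MP_b0c270_co

open Finset

abbrev V4 := ℤ × ℤ × ℤ × ℤ

noncomputable def ev (z : ℂ) (v : V4) : ℂ := v.1 + v.2.1 * z + v.2.2.1 * z ^ 2 + v.2.2.2 * z ^ 3

def refl4 (a b : V4) : V4 :=
  (2 * b.1 - a.1, 2 * b.2.1 - a.2.1, 2 * b.2.2.1 - a.2.2.1, 2 * b.2.2.2 - a.2.2.2)

theorem ev_refl4 (z : ℂ) (a b : V4) : ev z (refl4 a b) = 2 * ev z b - ev z a := by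
  unfold ev refl4
  push_cast
  ring

def jmp (l : List V4) (ij : ℕ × ℕ) : List V4 :=
  l.set ij.1 (refl4 (l.getD ij.1 (0, 0, 0, 0)) (l.getD ij.2 (0, 0, 0, 0)))

theorem run (M : ℕ) (z α β : ℂ) (moves : List (ℕ × ℕ)) : ∀ l : List V4, l.length = M →
    (∀ ij ∈ moves, ij.1 < M ∧ ij.2 < M ∧ ij.1 ≠ ij.2) →
    RL M moves.length (fun k => α * ev z (l.getD k (0, 0, 0, 0)) + β)
      (fun k => α * ev z ((moves.foldl jmp l).getD k (0, 0, 0, 0)) + β) := by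
  induction moves with
  | nil => intro l _ _; exact RL.refl M _
  | cons ij ms ih =>
    intro l hl hok
    obtain ⟨h1, h2, h3⟩ := hok ij (by simp)
    have hlen : (jmp l ij).length = M := by simp [jmp, hl]
    have h4 := ih (jmp l ij) hlen (fun x hx => hok x (by simp [hx]))
    have h5 : RL M 1 (fun k => α * ev z (l.getD k (0, 0, 0, 0)) + β)
        (fun k => α * ev z ((jmp l ij).getD k (0, 0, 0, 0)) + β) := by
      refine ⟨1, le_refl _, _, MovesOn.single (S := Set.Iio M) ij.1 ij.2 h1 h2 h3, ?_⟩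
      intro x hx
      by_cases hxi : x = ij.1
      · subst hxi
        rw [Function.update_self]
        beta_reduce
        have e : (jmp l ij).getD ij.1 (0, 0, 0, 0) =
            refl4 (l.getD ij.1 (0, 0, 0, 0)) (l.getD ij.2 (0, 0, 0, 0)) := by
          simp [jmp, List.getD_eq_getElem?_getD, hl, h1]
        rw [e, ev_refl4]
        ring
      · rw [Function.update_of_ne hxi]
        beta_reduce
        have e : (jmp l ij).getD x (0, 0, 0, 0) = l.getD x (0, 0, 0, 0) := by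
          simp [jmp, List.getD_eq_getElem?_getD, Ne.symm hxi]
        rw [e]
    rw [List.foldl_cons, List.length_cons, Nat.add_comm]
    exact h5.trans h4

/-! ### The octagon -/

def start8 : List V4 := [(1, 0, 0, 0), (0, 1, 0, 0), (0, 0, 1, 0), (0, 0, 0, 1),
  (-1, 0, 0, 0), (0, -1, 0, 0), (0, 0, -1, 0), (0, 0, 0, -1)]

def moves8 : List (ℕ × ℕ) := [(0, 5), (4, 1), (0, 2), (4, 6), (1, 0), (5, 4), (1, 2), (5, 6),
  (2, 1), (6, 5), (3, 4), (7, 0), (2, 3), (6, 7), (3, 2), (7, 6), (0, 3), (4, 7), (0, 2), (4, 6)]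

def final8 : List V4 := [(-3, -2, 0, 2), (-2, -3, -2, 0), (0, -2, -3, -2), (2, 0, -2, -3),
  (3, 2, 0, -2), (2, 3, 2, 0), (0, 2, 3, 2), (-2, 0, 2, 3)]

theorem run8 : moves8.foldl jmp start8 = final8 := by decide

theorem ok8 : ∀ ij ∈ moves8, ij.1 < 8 ∧ ij.2 < 8 ∧ ij.1 ≠ ij.2 := by decide

/-- `Enl M C`: a regular `M`-gon can be enlarged about its own centre in at most `C` jumps. -/
def Enl (M C : ℕ) : Prop := ∃ (w : ℂ) (τ : ℕ → ℕ), 1 < ‖w‖ ∧
  Set.MapsTo τ (Set.Iio M) (Set.Iio M) ∧ Set.InjOn τ (Set.Iio M) ∧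
  ∀ α β : ℂ, RL M C (st (rt M) α β) (fun k => w * α * rt M ^ (τ k) + β)

theorem rt8_rel : rt 8 ^ 4 + 1 = 0 := by
  have h := rt_prim (N := 8) (by norm_num)
  have h1 : (rt 8 ^ 4 - 1) * (rt 8 ^ 4 + 1) = 0 := by
    have := h.pow_eq_one
    linear_combination this
  rcases mul_eq_zero.mp h1 with h2 | h2
  · exact absurd (sub_eq_zero.mp h2) (h.pow_ne_one_of_pos_of_lt (by norm_num) (by norm_num))
  · exact h2

theorem enl8 : Enl 8 20 := by
  refine ⟨-(3 + 2 * rt 8 - 2 * rt 8 ^ 3), fun k => k, ?_, fun _ h => h, fun _ _ _ _ h => h, ?_⟩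
  · have h := rt8_rel
    have hz := rt_ne_zero 8
    have hi : (rt 8)⁻¹ = -rt 8 ^ 3 := by
      field_simp
      linear_combination h
    have h2 := rt_add_inv 8
    rw [hi] at h2
    have e : -(3 + 2 * rt 8 - 2 * rt 8 ^ 3) = ((-(3 + 2 * (2 * Real.cos (Real.pi / 4))) : ℝ) : ℂ) := by
      have h3 : (2 * Real.pi / (8 : ℕ) : ℝ) = Real.pi / 4 := by push_cast; ring
      rw [h3] at h2
      push_cast at h2 ⊢
      linear_combination (-2 : ℂ) * h2
    rw [e, Complex.norm_real, Real.norm_eq_abs, abs_neg, Real.cos_pi_div_four]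
    have h4 : (0 : ℝ) ≤ √2 := Real.sqrt_nonneg 2
    rw [abs_of_pos (by linarith)]
    linarith
  · intro α β
    have h := rt8_rel
    have h1 := run 8 (rt 8) α β moves8 start8 rfl ok8
    rw [run8] at h1
    generalize rt 8 = z at h h1
    refine (h1.congr_left ?_).congr_right ?_
    · intro k hk
      interval_cases k
      · show α * ev z ((1 : ℤ), (0 : ℤ), (0 : ℤ), (0 : ℤ)) + β = α * z ^ 0 + β
        unfold ev; push_cast; linear_combination (α * (0)) * h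
      · show α * ev z ((0 : ℤ), (1 : ℤ), (0 : ℤ), (0 : ℤ)) + β = α * z ^ 1 + β
        unfold ev; push_cast; linear_combination (α * (0)) * h
      · show α * ev z ((0 : ℤ), (0 : ℤ), (1 : ℤ), (0 : ℤ)) + β = α * z ^ 2 + β
        unfold ev; push_cast; linear_combination (α * (0)) * h
      · show α * ev z ((0 : ℤ), (0 : ℤ), (0 : ℤ), (1 : ℤ)) + β = α * z ^ 3 + β
        unfold ev; push_cast; linear_combination (α * (0)) * h
      · show α * ev z ((-1 : ℤ), (0 : ℤ), (0 : ℤ), (0 : ℤ)) + β = α * z ^ 4 + β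
        unfold ev; push_cast; linear_combination (α * ((-1))) * h
      · show α * ev z ((0 : ℤ), (-1 : ℤ), (0 : ℤ), (0 : ℤ)) + β = α * z ^ 5 + β
        unfold ev; push_cast; linear_combination (α * ((-1)*z^1)) * h
      · show α * ev z ((0 : ℤ), (0 : ℤ), (-1 : ℤ), (0 : ℤ)) + β = α * z ^ 6 + β
        unfold ev; push_cast; linear_combination (α * ((-1)*z^2)) * h
      · show α * ev z ((0 : ℤ), (0 : ℤ), (0 : ℤ), (-1 : ℤ)) + β = α * z ^ 7 + β
        unfold ev; push_cast; linear_combination (α * ((-1)*z^3)) * h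
    · intro k hk
      interval_cases k
      · show α * ev z ((-3 : ℤ), (-2 : ℤ), (0 : ℤ), (2 : ℤ)) + β = -(3 + 2 * z - 2 * z ^ 3) * α * z ^ 0 + β
        unfold ev; push_cast; linear_combination (α * (0)) * h
      · show α * ev z ((-2 : ℤ), (-3 : ℤ), (-2 : ℤ), (0 : ℤ)) + β = -(3 + 2 * z - 2 * z ^ 3) * α * z ^ 1 + β
        unfold ev; push_cast; linear_combination (α * ((-2))) * h
      · show α * ev z ((0 : ℤ), (-2 : ℤ), (-3 : ℤ), (-2 : ℤ)) + β = -(3 + 2 * z - 2 * z ^ 3) * α * z ^ 2 + β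
        unfold ev; push_cast; linear_combination (α * ((-2)*z^1)) * h
      · show α * ev z ((2 : ℤ), (0 : ℤ), (-2 : ℤ), (-3 : ℤ)) + β = -(3 + 2 * z - 2 * z ^ 3) * α * z ^ 3 + β
        unfold ev; push_cast; linear_combination (α * ((2)+(-2)*z^2)) * h
      · show α * ev z ((3 : ℤ), (2 : ℤ), (0 : ℤ), (-2 : ℤ)) + β = -(3 + 2 * z - 2 * z ^ 3) * α * z ^ 4 + β
        unfold ev; push_cast; linear_combination (α * ((3)+(2)*z^1+(-2)*z^3)) * h
      · show α * ev z ((2 : ℤ), (3 : ℤ), (2 : ℤ), (0 : ℤ)) + β = -(3 + 2 * z - 2 * z ^ 3) * α * z ^ 5 + β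
        unfold ev; push_cast; linear_combination (α * ((2)+(3)*z^1+(2)*z^2+(-2)*z^4)) * h
      · show α * ev z ((0 : ℤ), (2 : ℤ), (3 : ℤ), (2 : ℤ)) + β = -(3 + 2 * z - 2 * z ^ 3) * α * z ^ 6 + β
        unfold ev; push_cast; linear_combination (α * ((2)*z^1+(3)*z^2+(2)*z^3+(-2)*z^5)) * h
      · show α * ev z ((-2 : ℤ), (0 : ℤ), (2 : ℤ), (3 : ℤ)) + β = -(3 + 2 * z - 2 * z ^ 3) * α * z ^ 7 + β
        unfold ev; push_cast; linear_combination (α * ((-2)+(2)*z^2+(3)*z^3+(2)*z^4+(-2)*z^6)) * h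

/-! ### The dodecagon -/

def start12 : List V4 := [(1, 0, 0, 0), (0, 1, 0, 0), (0, 0, 1, 0), (0, 0, 0, 1),
  (-1, 0, 1, 0), (0, -1, 0, 1), (-1, 0, 0, 0), (0, -1, 0, 0), (0, 0, -1, 0), (0, 0, 0, -1),
  (1, 0, -1, 0), (0, 1, 0, -1)]

def moves12 : List (ℕ × ℕ) := [(0, 2), (6, 8), (0, 9), (6, 3), (1, 0), (7, 6), (1, 2), (7, 8),
  (2, 0), (8, 6), (3, 6), (9, 0), (2, 9), (8, 3), (1, 3), (7, 9), (3, 1), (9, 7), (2, 7), (8, 1),
  (4, 1), (10, 7), (4, 6), (10, 0), (5, 8), (11, 2), (5, 1), (11, 7)]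

def final12 : List V4 := [(1, 0, -2, -2), (-2, -1, 2, 2), (2, 2, -1, -2), (-2, -2, 0, 1),
  (1, 2, 1, 0), (0, 1, 2, 1), (-1, 0, 2, 2), (2, 1, -2, -2), (-2, -2, 1, 2), (2, 2, 0, -1),
  (-1, -2, -1, 0), (0, -1, -2, -1)]

theorem run12 : moves12.foldl jmp start12 = final12 := by decide

theorem ok12 : ∀ ij ∈ moves12, ij.1 < 12 ∧ ij.2 < 12 ∧ ij.1 ≠ ij.2 := by decide

def tau12 (k : ℕ) : ℕ := if k = 1 then 7 else if k = 3 then 9 else if k = 7 then 1 else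
  if k = 9 then 3 else k

theorem rt12_sq : rt 12 ^ 2 = ((1 / 2 : ℝ) : ℂ) + ((√3 / 2 : ℝ) : ℂ) * Complex.I := by
  unfold rt
  rw [← Complex.exp_nat_mul]
  have e : ((2 : ℕ) : ℂ) * (2 * Real.pi * Complex.I / (12 : ℕ)) =
      ((Real.pi / 3 : ℝ) : ℂ) * Complex.I := by
    push_cast; ring
  rw [e, Complex.exp_mul_I, ← Complex.ofReal_cos, ← Complex.ofReal_sin, Real.cos_pi_div_three,
    Real.sin_pi_div_three]

theorem rt12_cube : rt 12 ^ 3 = Complex.I := by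
  unfold rt
  rw [← Complex.exp_nat_mul]
  have e : ((3 : ℕ) : ℂ) * (2 * Real.pi * Complex.I / (12 : ℕ)) =
      Real.pi / 2 * Complex.I := by
    push_cast; ring
  rw [e, Complex.exp_pi_div_two_mul_I]

theorem rt12_rel : rt 12 ^ 4 - rt 12 ^ 2 + 1 = 0 := by
  have h := rt_prim (N := 12) (by norm_num)
  have h3 := rt12_cube
  have h6 : rt 12 ^ 6 = -1 := by
    rw [show (6 : ℕ) = 3 * 2 by norm_num, pow_mul, h3, Complex.I_sq]
  have h1 : (rt 12 ^ 2 + 1) * (rt 12 ^ 4 - rt 12 ^ 2 + 1) = 0 := by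
    linear_combination h6
  rcases mul_eq_zero.mp h1 with h2 | h2
  · exfalso
    have h4 : rt 12 ^ 4 = 1 := by linear_combination (rt 12 ^ 2 - 1) * h2
    exact h.pow_ne_one_of_pos_of_lt (by norm_num) (by norm_num) h4
  · exact h2

theorem enl12 : Enl 12 28 := by
  refine ⟨1 - 2 * rt 12 ^ 2 - 2 * rt 12 ^ 3, tau12, ?_, ?_, ?_, ?_⟩
  · have e : 1 - 2 * rt 12 ^ 2 - 2 * rt 12 ^ 3 = ((-(2 + √3) : ℝ) : ℂ) * Complex.I := by
      rw [rt12_sq, rt12_cube]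
      push_cast
      ring
    rw [e, norm_mul, Complex.norm_I, mul_one, Complex.norm_real, Real.norm_eq_abs, abs_neg]
    have h4 : (0 : ℝ) ≤ √3 := Real.sqrt_nonneg 3
    rw [abs_of_pos (by linarith)]
    linarith
  · intro k hk
    simp only [Set.mem_Iio] at hk ⊢
    unfold tau12
    split_ifs <;> omega
  · intro k hk l hl hkl
    simp only [Set.mem_Iio] at hk hl
    unfold tau12 at hkl
    split_ifs at hkl <;> omega
  · intro α β
    have h := rt12_rel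
    have h1 := run 12 (rt 12) α β moves12 start12 rfl ok12
    rw [run12] at h1
    generalize rt 12 = z at h h1
    refine (h1.congr_left ?_).congr_right ?_
    · intro k hk
      interval_cases k
      · show α * ev z ((1 : ℤ), (0 : ℤ), (0 : ℤ), (0 : ℤ)) + β = α * z ^ 0 + β
        unfold ev; push_cast; linear_combination (α * (0)) * h
      · show α * ev z ((0 : ℤ), (1 : ℤ), (0 : ℤ), (0 : ℤ)) + β = α * z ^ 1 + β
        unfold ev; push_cast; linear_combination (α * (0)) * h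
      · show α * ev z ((0 : ℤ), (0 : ℤ), (1 : ℤ), (0 : ℤ)) + β = α * z ^ 2 + β
        unfold ev; push_cast; linear_combination (α * (0)) * h
      · show α * ev z ((0 : ℤ), (0 : ℤ), (0 : ℤ), (1 : ℤ)) + β = α * z ^ 3 + β
        unfold ev; push_cast; linear_combination (α * (0)) * h
      · show α * ev z ((-1 : ℤ), (0 : ℤ), (1 : ℤ), (0 : ℤ)) + β = α * z ^ 4 + β
        unfold ev; push_cast; linear_combination (α * ((-1))) * h
      · show α * ev z ((0 : ℤ), (-1 : ℤ), (0 : ℤ), (1 : ℤ)) + β = α * z ^ 5 + β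
        unfold ev; push_cast; linear_combination (α * ((-1)*z^1)) * h
      · show α * ev z ((-1 : ℤ), (0 : ℤ), (0 : ℤ), (0 : ℤ)) + β = α * z ^ 6 + β
        unfold ev; push_cast; linear_combination (α * ((-1)+(-1)*z^2)) * h
      · show α * ev z ((0 : ℤ), (-1 : ℤ), (0 : ℤ), (0 : ℤ)) + β = α * z ^ 7 + β
        unfold ev; push_cast; linear_combination (α * ((-1)*z^1+(-1)*z^3)) * h
      · show α * ev z ((0 : ℤ), (0 : ℤ), (-1 : ℤ), (0 : ℤ)) + β = α * z ^ 8 + β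
        unfold ev; push_cast; linear_combination (α * ((-1)*z^2+(-1)*z^4)) * h
      · show α * ev z ((0 : ℤ), (0 : ℤ), (0 : ℤ), (-1 : ℤ)) + β = α * z ^ 9 + β
        unfold ev; push_cast; linear_combination (α * ((-1)*z^3+(-1)*z^5)) * h
      · show α * ev z ((1 : ℤ), (0 : ℤ), (-1 : ℤ), (0 : ℤ)) + β = α * z ^ 10 + β
        unfold ev; push_cast; linear_combination (α * ((1)+(-1)*z^4+(-1)*z^6)) * h
      · show α * ev z ((0 : ℤ), (1 : ℤ), (0 : ℤ), (-1 : ℤ)) + β = α * z ^ 11 + β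
        unfold ev; push_cast; linear_combination (α * ((1)*z^1+(-1)*z^5+(-1)*z^7)) * h
    · intro k hk
      interval_cases k
      · show α * ev z ((1 : ℤ), (0 : ℤ), (-2 : ℤ), (-2 : ℤ)) + β = (1 - 2 * z ^ 2 - 2 * z ^ 3) * α * z ^ 0 + β
        unfold ev; push_cast; linear_combination (α * (0)) * h
      · show α * ev z ((-2 : ℤ), (-1 : ℤ), (2 : ℤ), (2 : ℤ)) + β = (1 - 2 * z ^ 2 - 2 * z ^ 3) * α * z ^ 7 + β
        unfold ev; push_cast; linear_combination (α * ((-2)+(-1)*z^1+(1)*z^3+(2)*z^4+(2)*z^5+(2)*z^6)) * h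
      · show α * ev z ((2 : ℤ), (2 : ℤ), (-1 : ℤ), (-2 : ℤ)) + β = (1 - 2 * z ^ 2 - 2 * z ^ 3) * α * z ^ 2 + β
        unfold ev; push_cast; linear_combination (α * ((2)+(2)*z^1)) * h
      · show α * ev z ((-2 : ℤ), (-2 : ℤ), (0 : ℤ), (1 : ℤ)) + β = (1 - 2 * z ^ 2 - 2 * z ^ 3) * α * z ^ 9 + β
        unfold ev; push_cast; linear_combination (α * ((-2)+(-2)*z^1+(-2)*z^2+(-1)*z^3+(1)*z^5+(2)*z^6+(2)*z^7+(2)*z^8)) * h
      · show α * ev z ((1 : ℤ), (2 : ℤ), (1 : ℤ), (0 : ℤ)) + β = (1 - 2 * z ^ 2 - 2 * z ^ 3) * α * z ^ 4 + β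
        unfold ev; push_cast; linear_combination (α * ((1)+(2)*z^1+(2)*z^2+(2)*z^3)) * h
      · show α * ev z ((0 : ℤ), (1 : ℤ), (2 : ℤ), (1 : ℤ)) + β = (1 - 2 * z ^ 2 - 2 * z ^ 3) * α * z ^ 5 + β
        unfold ev; push_cast; linear_combination (α * ((1)*z^1+(2)*z^2+(2)*z^3+(2)*z^4)) * h
      · show α * ev z ((-1 : ℤ), (0 : ℤ), (2 : ℤ), (2 : ℤ)) + β = (1 - 2 * z ^ 2 - 2 * z ^ 3) * α * z ^ 6 + β
        unfold ev; push_cast; linear_combination (α * ((-1)+(1)*z^2+(2)*z^3+(2)*z^4+(2)*z^5)) * h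
      · show α * ev z ((2 : ℤ), (1 : ℤ), (-2 : ℤ), (-2 : ℤ)) + β = (1 - 2 * z ^ 2 - 2 * z ^ 3) * α * z ^ 1 + β
        unfold ev; push_cast; linear_combination (α * ((2))) * h
      · show α * ev z ((-2 : ℤ), (-2 : ℤ), (1 : ℤ), (2 : ℤ)) + β = (1 - 2 * z ^ 2 - 2 * z ^ 3) * α * z ^ 8 + β
        unfold ev; push_cast; linear_combination (α * ((-2)+(-2)*z^1+(-1)*z^2+(1)*z^4+(2)*z^5+(2)*z^6+(2)*z^7)) * h
      · show α * ev z ((2 : ℤ), (2 : ℤ), (0 : ℤ), (-1 : ℤ)) + β = (1 - 2 * z ^ 2 - 2 * z ^ 3) * α * z ^ 3 + β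
        unfold ev; push_cast; linear_combination (α * ((2)+(2)*z^1+(2)*z^2)) * h
      · show α * ev z ((-1 : ℤ), (-2 : ℤ), (-1 : ℤ), (0 : ℤ)) + β = (1 - 2 * z ^ 2 - 2 * z ^ 3) * α * z ^ 10 + β
        unfold ev; push_cast; linear_combination (α * ((-1)+(-2)*z^1+(-2)*z^2+(-2)*z^3+(-1)*z^4+(1)*z^6+(2)*z^7+(2)*z^8+(2)*z^9)) * h
      · show α * ev z ((0 : ℤ), (-1 : ℤ), (-2 : ℤ), (-1 : ℤ)) + β = (1 - 2 * z ^ 2 - 2 * z ^ 3) * α * z ^ 11 + β
        unfold ev; push_cast; linear_combination (α * ((-1)*z^1+(-2)*z^2+(-2)*z^3+(-2)*z^4+(-1)*z^5+(1)*z^7+(2)*z^8+(2)*z^9+(2)*z^10)) * h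

/-! ### The pentagon -/

def start5 : List V4 := [(1, 0, 0, 0), (0, 1, 0, 0), (0, 0, 1, 0), (0, 0, 0, 1),
  (-1, -1, -1, -1)]

def moves5 : List (ℕ × ℕ) := [(0, 2), (0, 4), (3, 2), (2, 1), (3, 4), (4, 0), (1, 2), (1, 3),
  (1, 0), (0, 3), (0, 2), (0, 1)]

def final5 : List V4 := [(1, 0, -6, -4), (2, 3, -2, -2), (0, 2, -1, 0), (-2, -2, -4, -1),
  (-1, -3, -7, -3)]

theorem run5 : moves5.foldl jmp start5 = final5 := by decide

theorem ok5 : ∀ ij ∈ moves5, ij.1 < 5 ∧ ij.2 < 5 ∧ ij.1 ≠ ij.2 := by decide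

theorem rt5_rel : rt 5 ^ 4 + rt 5 ^ 3 + rt 5 ^ 2 + rt 5 + 1 = 0 := by
  have h := (rt_prim (N := 5) (by norm_num)).geom_sum_eq_zero (by norm_num)
  simp only [Finset.sum_range_succ, Finset.sum_range_zero] at h
  linear_combination h

theorem free5 : ∃ w : ℂ, 1 < ‖w‖ ∧ ∀ α β : ℂ, ∃ β' : ℂ,
    RL 5 12 (st (rt 5) α β) (st (rt 5) (w * α) β') := by
  refine ⟨1 - 2 * rt 5 ^ 2 - 2 * rt 5 ^ 3, ?_, ?_⟩
  · have h := rt5_rel
    have hz := rt_ne_zero 5
    have hi : (rt 5)⁻¹ = rt 5 ^ 4 := by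
      field_simp
      have := (rt_prim (N := 5) (by norm_num)).pow_eq_one
      exact this.symm
    have h2 := rt_add_inv 5
    rw [hi] at h2
    obtain ⟨hc0, hc1⟩ := cos_facts (m := 2) (le_refl _)
    have e : 1 - 2 * rt 5 ^ 2 - 2 * rt 5 ^ 3 =
        ((3 + 2 * (2 * Real.cos (2 * Real.pi / (5 : ℕ))) : ℝ) : ℂ) := by
      push_cast at h2 ⊢
      linear_combination (2 : ℂ) * h2 - 2 * h
    rw [e, Complex.norm_real, Real.norm_eq_abs]
    norm_num at hc0 ⊢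
    rw [abs_of_pos (by linarith)]
    linarith
  · intro α β
    refine ⟨β + α * (-4 * rt 5 ^ 2 - 2 * rt 5 ^ 3), ?_⟩
    have h := rt5_rel
    have h1 := run 5 (rt 5) α β moves5 start5 rfl ok5
    rw [run5] at h1
    generalize rt 5 = z at h h1
    refine (h1.congr_left ?_).congr_right ?_
    · intro k hk
      interval_cases k
      · show α * ev z ((1 : ℤ), (0 : ℤ), (0 : ℤ), (0 : ℤ)) + β = α * z ^ 0 + β
        unfold ev; push_cast; linear_combination (α * (0)) * h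
      · show α * ev z ((0 : ℤ), (1 : ℤ), (0 : ℤ), (0 : ℤ)) + β = α * z ^ 1 + β
        unfold ev; push_cast; linear_combination (α * (0)) * h
      · show α * ev z ((0 : ℤ), (0 : ℤ), (1 : ℤ), (0 : ℤ)) + β = α * z ^ 2 + β
        unfold ev; push_cast; linear_combination (α * (0)) * h
      · show α * ev z ((0 : ℤ), (0 : ℤ), (0 : ℤ), (1 : ℤ)) + β = α * z ^ 3 + β
        unfold ev; push_cast; linear_combination (α * (0)) * h
      · show α * ev z ((-1 : ℤ), (-1 : ℤ), (-1 : ℤ), (-1 : ℤ)) + β = α * z ^ 4 + β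
        unfold ev; push_cast; linear_combination (α * ((-1))) * h
    · intro k hk
      interval_cases k
      · show α * ev z ((1 : ℤ), (0 : ℤ), (-6 : ℤ), (-4 : ℤ)) + β = (1 - 2 * z ^ 2 - 2 * z ^ 3) * α * z ^ 0 + (β + α * (-4 * z ^ 2 - 2 * z ^ 3))
        unfold ev; push_cast; linear_combination (α * (0)) * h
      · show α * ev z ((2 : ℤ), (3 : ℤ), (-2 : ℤ), (-2 : ℤ)) + β = (1 - 2 * z ^ 2 - 2 * z ^ 3) * α * z ^ 1 + (β + α * (-4 * z ^ 2 - 2 * z ^ 3))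
        unfold ev; push_cast; linear_combination (α * ((2))) * h
      · show α * ev z ((0 : ℤ), (2 : ℤ), (-1 : ℤ), (0 : ℤ)) + β = (1 - 2 * z ^ 2 - 2 * z ^ 3) * α * z ^ 2 + (β + α * (-4 * z ^ 2 - 2 * z ^ 3))
        unfold ev; push_cast; linear_combination (α * ((2)*z^1)) * h
      · show α * ev z ((-2 : ℤ), (-2 : ℤ), (-4 : ℤ), (-1 : ℤ)) + β = (1 - 2 * z ^ 2 - 2 * z ^ 3) * α * z ^ 3 + (β + α * (-4 * z ^ 2 - 2 * z ^ 3))
        unfold ev; push_cast; linear_combination (α * ((-2)+(2)*z^2)) * h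
      · show α * ev z ((-1 : ℤ), (-3 : ℤ), (-7 : ℤ), (-3 : ℤ)) + β = (1 - 2 * z ^ 2 - 2 * z ^ 3) * α * z ^ 4 + (β + α * (-4 * z ^ 2 - 2 * z ^ 3))
        unfold ev; push_cast; linear_combination (α * ((-1)+(-2)*z^1+(2)*z^3)) * h

end Pool.Agent.H.MP_b0c270_co
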