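import Mathlib

/-! Quadratic forms on integer vectors of length five. -/

set_option autoImplicit false

namespace Pool.Agent.H.MP_b0c270_co.Five

open Finset

def q0 (v : Fin 5 → ℤ) : ℤ := ∑ k, v k * v k

def b1 (v : Fin 5 → ℤ) : ℤ := ∑ k, v k * v (k + 1)

def b2 (v : Fin 5 → ℤ) : ℤ := ∑ k, v k * v (k + 2)

def q1 (v : Fin 5 → ℤ) : ℤ := q0 v + b1 v

def sf (v : Fin 5 → ℤ) : ℤ := 4 * q1 v - 3 * q0 v

/-- twice the rational part and the coefficient of the root of five -/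
def al (g : Fin 5 → ℤ) : ℤ := 2 * q0 g - b1 g - b2 g

def be (g : Fin 5 → ℤ) : ℤ := b1 g - b2 g

def conv (v g : Fin 5 → ℤ) : Fin 5 → ℤ := fun k => ∑ l, v l * g (k - l)

theorem q0_eq (v : Fin 5 → ℤ) : q0 v = v 0 * v 0 + v 1 * v 1 + v 2 * v 2 + v 3 * v 3 + v 4 * v 4 := by
  simp [q0, Fin.sum_univ_five]

theorem b1_eq (v : Fin 5 → ℤ) : b1 v = v 0 * v 1 + v 1 * v 2 + v 2 * v 3 + v 3 * v 4 + v 4 * v 0 := by
  simp [b1, Fin.sum_univ_five]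

theorem b2_eq (v : Fin 5 → ℤ) : b2 v = v 0 * v 2 + v 1 * v 3 + v 2 * v 4 + v 3 * v 0 + v 4 * v 1 := by
  simp [b2, Fin.sum_univ_five]

theorem conv_eq (v g : Fin 5 → ℤ) : conv v g =
    ![v 0 * g 0 + v 1 * g 4 + v 2 * g 3 + v 3 * g 2 + v 4 * g 1,
      v 0 * g 1 + v 1 * g 0 + v 2 * g 4 + v 3 * g 3 + v 4 * g 2,
      v 0 * g 2 + v 1 * g 1 + v 2 * g 0 + v 3 * g 4 + v 4 * g 3,
      v 0 * g 3 + v 1 * g 2 + v 2 * g 1 + v 3 * g 0 + v 4 * g 4,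
      v 0 * g 4 + v 1 * g 3 + v 2 * g 2 + v 3 * g 1 + v 4 * g 0] := by
  funext k
  fin_cases k <;> simp [conv, Fin.sum_univ_five] <;> rfl

theorem sum_five (v : Fin 5 → ℤ) : ∑ k, v k = v 0 + v 1 + v 2 + v 3 + v 4 := Fin.sum_univ_five v

theorem q0_conv (v g : Fin 5 → ℤ) (hv : ∑ k, v k = 0) :
    2 * q0 (conv v g) = al g * q0 v + be g * sf v := by
  rw [sum_five] at hv
  have h4 : v 4 = -v 0 - v 1 - v 2 - v 3 := by linarith
  rw [conv_eq, sf, q1, al, be]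
  simp only [q0_eq, b1_eq, b2_eq, h4]
  simp
  ring

theorem sf_conv (v g : Fin 5 → ℤ) (hv : ∑ k, v k = 0) :
    2 * sf (conv v g) = al g * sf v + 5 * be g * q0 v := by
  rw [sum_five] at hv
  have h4 : v 4 = -v 0 - v 1 - v 2 - v 3 := by linarith
  rw [conv_eq, sf, sf, q1, q1, al, be]
  simp only [q0_eq, b1_eq, b2_eq, h4]
  simp
  ring

/-- quadratic forms used in the search -/
structure QF (q : (Fin 5 → ℤ) → ℤ) : Prop where
  nonneg : ∀ v, 0 ≤ q v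
  even : ∀ v, q (-v) = q v
  par : ∀ a b c : Fin 5 → ℤ, q (b + b - a - c) = 2 * q (a - b) + 2 * q (b - c) - q (a - c)

theorem QF.q0 : QF q0 where
  nonneg v := by
    rw [q0_eq]
    nlinarith [mul_self_nonneg (v 0), mul_self_nonneg (v 1), mul_self_nonneg (v 2),
      mul_self_nonneg (v 3), mul_self_nonneg (v 4)]
  even v := by
    simp only [q0_eq, Pi.neg_apply]
    ring
  par a b c := by
    simp only [q0_eq, Pi.sub_apply, Pi.add_apply]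
    ring

theorem QF.q1 : QF q1 where
  nonneg v := by
    unfold Five.q1
    rw [q0_eq, b1_eq]
    nlinarith [mul_self_nonneg (v 0 + v 1), mul_self_nonneg (v 1 + v 2),
      mul_self_nonneg (v 2 + v 3), mul_self_nonneg (v 3 + v 4), mul_self_nonneg (v 4 + v 0)]
  even v := by
    simp only [Five.q1, q0_eq, b1_eq, Pi.neg_apply]
    ring
  par a b c := by
    simp only [Five.q1, q0_eq, b1_eq, Pi.sub_apply, Pi.add_apply]
    ring

/-- the sum over the ten pairs -/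
def tt (q : (Fin 5 → ℤ) → ℤ) (m : Fin 5 → (Fin 5 → ℤ)) : ℤ :=
  q (m 0 - m 1) + q (m 0 - m 2) + q (m 0 - m 3) + q (m 0 - m 4) + q (m 1 - m 2) + q (m 1 - m 3) +
    q (m 1 - m 4) + q (m 2 - m 3) + q (m 2 - m 4) + q (m 3 - m 4)

/-- the norm relation for sum-zero vectors -/
theorem norm_div (v : Fin 5 → ℤ) (hv : ∑ k, v k = 0) :
    ∃ z : ℤ, 5 * q0 v ^ 2 - sf v ^ 2 = 16 * z := by
  rw [sum_five] at hv
  have h4 : v 4 = -v 0 - v 1 - v 2 - v 3 := by linarith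
  obtain ⟨p, hp⟩ : ∃ p : ℤ, q0 v = 2 * p := by
    refine ⟨v 0 ^ 2 + v 1 ^ 2 + v 2 ^ 2 + v 3 ^ 2 + v 0 * v 1 + v 0 * v 2 + v 0 * v 3 +
      v 1 * v 2 + v 1 * v 3 + v 2 * v 3, ?_⟩
    rw [q0_eq, h4]
    ring
  refine ⟨p ^ 2 - b1 v * p - b1 v ^ 2, ?_⟩
  rw [sf, q1, hp]
  ring

end Pool.Agent.H.MP_b0c270_co.Five
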