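import Pool.Agent.H.MP_b0c270_co.FiveRun
import Pool.Agent.H.MP_b0c270_co.FiveForms

/-! Integer combinations of the fifth roots of unity. -/

set_option autoImplicit false

namespace Pool.Agent.H.MP_b0c270_co.Five

open Finset

noncomputable def evz (z : ℂ) (v : Fin 5 → ℤ) : ℂ := ∑ k : Fin 5, v k • z ^ (k : ℕ)

theorem evz_eq (z : ℂ) (v : Fin 5 → ℤ) :
    evz z v = v 0 + v 1 * z + v 2 * z ^ 2 + v 3 * z ^ 3 + v 4 * z ^ 4 := by
  unfold evz
  rw [Fin.sum_univ_five]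
  simp [zsmul_eq_mul]

theorem normSq_evz {z : ℂ} (h5 : z ^ 5 = 1) (h1 : 1 + z + z ^ 2 + z ^ 3 + z ^ 4 = 0)
    (hc : (starRingEnd ℂ) z = z ^ 4) {w : ℝ} (hw : z + z ^ 4 = (w : ℂ)) (v : Fin 5 → ℤ) :
    Complex.normSq (evz z v) = (q0 v - b2 v : ℤ) + (b1 v - b2 v : ℤ) * w := by
  have h := Complex.mul_conj (evz z v)
  have key : evz z v * (starRingEnd ℂ) (evz z v) =
      (((q0 v - b2 v : ℤ) + (b1 v - b2 v : ℤ) * w : ℝ) : ℂ) := by
    rw [evz_eq]
    simp only [map_add, map_mul, map_pow, hc, map_intCast]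
    rw [q0_eq, b1_eq, b2_eq]
    push_cast
    rw [← hw]
    have e8 : (z ^ 4) ^ 2 = z ^ 3 := by
      calc (z ^ 4) ^ 2 = z ^ 5 * z ^ 3 := by ring
        _ = z ^ 3 := by rw [h5, one_mul]
    have e12 : (z ^ 4) ^ 3 = z ^ 2 := by
      calc (z ^ 4) ^ 3 = z ^ 5 * z ^ 5 * z ^ 2 := by ring
        _ = z ^ 2 := by rw [h5, one_mul, one_mul]
    have e16 : (z ^ 4) ^ 4 = z := by
      calc (z ^ 4) ^ 4 = z ^ 5 * z ^ 5 * z ^ 5 * z := by ring
        _ = z := by rw [h5]; ring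
    rw [e8, e12, e16]
    linear_combination ((v 1 : ℂ) * v 1 + v 2 * v 2 + v 3 * v 3 + v 4 * v 4 +
      (v 1 * v 2 + v 2 * v 3 + v 3 * v 4) * z + (v 1 * v 3 + v 2 * v 4) * z ^ 2 +
      v 1 * v 4 * z ^ 3) * h5 +
      (v 0 * v 2 + v 1 * v 3 + v 2 * v 4 + v 3 * v 0 + v 4 * v 1) * h1
  rw [key] at h
  exact_mod_cast h.symm

/-! ### The root of five -/

theorem sqrt5_sq : √5 * √5 = (5 : ℝ) := Real.mul_self_sqrt (by norm_num)

theorem sqrt5_lin {a b : ℤ} (h : (a : ℝ) + b * √5 = 0) : a = 0 ∧ b = 0 := by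
  have hirr : Irrational (√5) := by
    have := Nat.Prime.irrational_sqrt (p := 5) (by norm_num)
    simpa using this
  have hb : b = 0 := by
    by_contra hb
    have hb' : (b : ℝ) ≠ 0 := by exact_mod_cast hb
    apply hirr
    refine ⟨-(a : ℚ) / b, ?_⟩
    push_cast
    field_simp
    linarith
  subst hb
  simp at h
  exact ⟨h, rfl⟩

/-! ### The primitive root -/

noncomputable def ze : ℂ := rt 5

theorem ze5 : ze ^ 5 = 1 := (rt_prim (by norm_num : (5 : ℕ) ≠ 0)).pow_eq_one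

theorem ze_ne : ze ≠ 1 := (rt_prim (by norm_num : (5 : ℕ) ≠ 0)).ne_one (by norm_num)

theorem ze_sum : 1 + ze + ze ^ 2 + ze ^ 3 + ze ^ 4 = 0 := by
  have h : (ze - 1) * (1 + ze + ze ^ 2 + ze ^ 3 + ze ^ 4) = 0 := by
    linear_combination ze5
  rcases mul_eq_zero.mp h with h | h
  · exact absurd (sub_eq_zero.mp h) ze_ne
  · exact h

theorem ze_conj : (starRingEnd ℂ) ze = ze ^ 4 := by
  have h1 : ze * (starRingEnd ℂ) ze = 1 := by
    rw [Complex.mul_conj, Complex.normSq_eq_norm_sq]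
    unfold ze
    rw [rt_norm]
    norm_num
  have h2 : ze * ze ^ 4 = 1 := by
    rw [← ze5]
    ring
  have h3 : ze ≠ 0 := by
    rintro h
    rw [h] at h1
    simp at h1
  exact mul_left_cancel₀ h3 (h1.trans h2.symm)

theorem ze_add : ze + ze ^ 4 = (((√5 - 1) / 2 : ℝ) : ℂ) := by
  rw [← ze_conj, Complex.add_conj]
  congr 1
  unfold ze rt
  have e : 2 * Real.pi * Complex.I / (5 : ℕ) = ((2 * (Real.pi / 5) : ℝ) : ℂ) * Complex.I := by
    push_cast
    ring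
  rw [e, Complex.exp_ofReal_mul_I_re, Real.cos_two_mul, Real.cos_pi_div_five]
  have := sqrt5_sq
  nlinarith

theorem ze_add2 : ze ^ 2 + (ze ^ 2) ^ 4 = ((-((√5 + 1) / 2) : ℝ) : ℂ) := by
  have h := ze_add
  have h1 := ze_sum
  have e8 : (ze ^ 2) ^ 4 = ze ^ 3 := by
    calc (ze ^ 2) ^ 4 = ze ^ 5 * ze ^ 3 := by ring
      _ = ze ^ 3 := by rw [ze5, one_mul]
  rw [e8]
  push_cast at h ⊢
  linear_combination h1 - h

theorem form1 (v : Fin 5 → ℤ) : 2 * Complex.normSq (evz ze v) = al v + be v * √5 := by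
  rw [normSq_evz ze5 ze_sum ze_conj ze_add v, al, be]
  push_cast
  ring

theorem form2 (v : Fin 5 → ℤ) : 2 * Complex.normSq (evz (ze ^ 2) v) = al v - be v * √5 := by
  rw [normSq_evz (z := ze ^ 2) ?_ ?_ ?_ ze_add2 v, al, be]
  · push_cast
    ring
  · calc (ze ^ 2) ^ 5 = ze ^ 5 * ze ^ 5 := by ring
      _ = 1 := by rw [ze5, one_mul]
  · have e4 : (ze ^ 2) ^ 3 = ze := by
      calc (ze ^ 2) ^ 3 = ze ^ 5 * ze := by ring
        _ = ze := by rw [ze5, one_mul]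
    have e8 : (ze ^ 2) ^ 4 = ze ^ 3 := by
      calc (ze ^ 2) ^ 4 = ze ^ 5 * ze ^ 3 := by ring
        _ = ze ^ 3 := by rw [ze5, one_mul]
    rw [e4, e8]
    linear_combination ze_sum
  · rw [map_pow, ze_conj]
    ring

theorem pos1 (v : Fin 5 → ℤ) : 0 ≤ (al v : ℝ) + be v * √5 := by
  rw [← form1]
  have := Complex.normSq_nonneg (evz ze v)
  linarith

theorem pos2 (v : Fin 5 → ℤ) : 0 ≤ (al v : ℝ) - be v * √5 := by
  rw [← form2]
  have := Complex.normSq_nonneg (evz (ze ^ 2) v)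
  linarith

theorem al_zero {v : Fin 5 → ℤ} (hv : ∑ k, v k = 0) : 2 * al v = 5 * q0 v := by
  rw [sum_five] at hv
  have h4 : v 4 = -v 0 - v 1 - v 2 - v 3 := by linarith
  rw [al]
  simp only [q0_eq, b1_eq, b2_eq, h4]
  ring

theorem be_zero {v : Fin 5 → ℤ} (hv : ∑ k, v k = 0) : 2 * be v = sf v := by
  rw [sum_five] at hv
  have h4 : v 4 = -v 0 - v 1 - v 2 - v 3 := by linarith
  rw [be, sf, q1]
  simp only [q0_eq, b1_eq, b2_eq, h4]
  ring

theorem form0 {v : Fin 5 → ℤ} (hv : ∑ k, v k = 0) :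
    4 * Complex.normSq (evz ze v) = 5 * q0 v + sf v * √5 := by
  have h := form1 v
  have h1 : (2 : ℝ) * al v = 5 * q0 v := by exact_mod_cast al_zero hv
  have h2 : (2 : ℝ) * be v = sf v := by exact_mod_cast be_zero hv
  rw [← h2, ← h1]
  linear_combination 2 * h

theorem evz_inj {v : Fin 5 → ℤ} (hv : ∑ k, v k = 0) (h : evz ze v = 0) : v = 0 := by
  have h1 := form0 hv
  rw [h, map_zero, mul_zero] at h1
  have h2 : ((5 * q0 v : ℤ) : ℝ) + (sf v : ℤ) * √5 = 0 := by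
    push_cast
    linarith
  obtain ⟨h3, -⟩ := sqrt5_lin h2
  have h4 : q0 v = 0 := by omega
  rw [q0_eq] at h4
  have e : ∀ x : ℤ, 0 ≤ x * x := mul_self_nonneg
  have z : ∀ x : ℤ, x * x = 0 → x = 0 := fun x hx => by simpa using hx
  funext k
  have a0 := e (v 0)
  have a1 := e (v 1)
  have a2 := e (v 2)
  have a3 := e (v 3)
  have a4 := e (v 4)
  have z0 : v 0 = 0 := z _ (by omega)
  have z1 : v 1 = 0 := z _ (by omega)
  have z2 : v 2 = 0 := z _ (by omega)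
  have z3 : v 3 = 0 := z _ (by omega)
  have z4 : v 4 = 0 := z _ (by omega)
  fin_cases k
  exacts [z0, z1, z2, z3, z4]

end Pool.Agent.H.MP_b0c270_co.Five
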