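import Pool.Agent.H.MP_b0c270_co.FiveCplx

/-! One jump changes the quadratic forms by a factor at most five. -/

set_option autoImplicit false

namespace Pool.Agent.H.MP_b0c270_co.Five

open Finset

theorem fin5 : ∀ i : Fin 5, i = 0 ∨ i = 1 ∨ i = 2 ∨ i = 3 ∨ i = 4 := by decide

/-- the sum over the ten pairs -/
def s10 (D : Fin 5 → Fin 5 → ℝ) : ℝ :=
  D 0 1 + D 0 2 + D 0 3 + D 0 4 + D 1 2 + D 1 3 + D 1 4 + D 2 3 + D 2 4 + D 3 4

theorem grow_abs (D D' : Fin 5 → Fin 5 → ℝ) (i j : Fin 5) (hij : i ≠ j)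
    (sym : ∀ a b, D a b = D b a) (zero : ∀ a, D a a = 0) (nonneg : ∀ a b, 0 ≤ D a b)
    (tri : ∀ a b c, 2 * D a b ≤ 3 * D a c + 6 * D c b)
    (hD : ∀ a b, D' a b = if a = b then 0 else if a = i then 2 * D i j + 2 * D j b - D i b
      else if b = i then 2 * D i j + 2 * D j a - D i a else D a b) :
    s10 D' ≤ 5 * s10 D := by
  have t0 := tri i j 0
  have t1 := tri i j 1
  have t2 := tri i j 2
  have t3 := tri i j 3
  have t4 := tri i j 4
  have e01 := sym 1 0
  have e02 := sym 2 0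
  have e03 := sym 3 0
  have e04 := sym 4 0
  have e12 := sym 2 1
  have e13 := sym 3 1
  have e14 := sym 4 1
  have e23 := sym 3 2
  have e24 := sym 4 2
  have e34 := sym 4 3
  have z0 := zero 0
  have z1 := zero 1
  have z2 := zero 2
  have z3 := zero 3
  have z4 := zero 4
  have n01 := nonneg 0 1
  have n02 := nonneg 0 2
  have n03 := nonneg 0 3
  have n04 := nonneg 0 4
  have n12 := nonneg 1 2
  have n13 := nonneg 1 3
  have n14 := nonneg 1 4
  have n23 := nonneg 2 3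
  have n24 := nonneg 2 4
  have n34 := nonneg 3 4
  clear tri
  unfold s10
  rw [hD 0 1, hD 0 2, hD 0 3, hD 0 4, hD 1 2, hD 1 3, hD 1 4, hD 2 3, hD 2 4, hD 3 4]
  clear hD
  rcases fin5 i with rfl | rfl | rfl | rfl | rfl <;>
    rcases fin5 j with rfl | rfl | rfl | rfl | rfl <;>
    first
      | exact absurd rfl hij
      | (simp (config := { decide := true }) only [if_true, if_false]
         linarith)

/-- real forms used for the growth bound -/
structure RF (G : (Fin 5 → ℤ) → ℝ) : Prop where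
  nonneg : ∀ v, ∑ k, v k = 0 → 0 ≤ G v
  even : ∀ v, G (-v) = G v
  zero : G 0 = 0
  par : ∀ a b c : Fin 5 → ℤ, G (b + b - a - c) = 2 * G (a - b) + 2 * G (b - c) - G (a - c)

theorem RF.tri {G : (Fin 5 → ℤ) → ℝ} (h : RF G) (a b c : Fin 5 → ℤ) (h1 : ∑ k, a k = ∑ k, b k)
    (h2 : ∑ k, b k = ∑ k, c k) : 2 * G (a - b) ≤ 3 * G (a - c) + 6 * G (c - b) := by
  have hn : 0 ≤ G ((a - c) - ((c - b) + (c - b))) := by
    apply h.nonneg
    simp only [Pi.sub_apply, Pi.add_apply, Finset.sum_sub_distrib, Finset.sum_add_distrib]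
    rw [h1, h2]
    ring
  -- first `G (u - v)` with `u = a - c`, `v = c - b`
  have g1 := h.par (a - c) 0 (c - b)
  -- `G (0 + 0 - u - v) = 2 G u + 2 G (-v) - G (u - v)`
  have g2 := h.par (a - c) (c - b) 0
  -- `G (v + v - u - 0) = 2 G (u - v) + 2 G v - G u`
  have k1 : (0 : Fin 5 → ℤ) + 0 - (a - c) - (c - b) = -(a - b) := by abel
  have k2 : (0 : Fin 5 → ℤ) - (c - b) = -(c - b) := by abel
  have k3 : (c - b) + (c - b) - (a - c) - 0 = -((a - c) - ((c - b) + (c - b))) := by abel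
  rw [k1, k2, h.even, h.even, sub_zero] at g1
  rw [k3, h.even, sub_zero, sub_zero] at g2
  linarith

theorem RF.grow {G : (Fin 5 → ℤ) → ℝ} (h : RF G) {m : Fin 5 → (Fin 5 → ℤ)}
    (hm : ∀ i, ∑ k, m i k = 1) (x : Fin 5 × Fin 5) (hx : x.1 ≠ x.2) :
    s10 (fun a b => G (jmp m x a - jmp m x b)) ≤ 5 * s10 (fun a b => G (m a - m b)) := by
  have hsym : ∀ u v : Fin 5 → ℤ, G (u - v) = G (v - u) := by
    intro u v
    rw [← neg_sub, h.even]
  refine grow_abs _ _ x.1 x.2 hx (fun a b => hsym _ _) (fun a => ?_) (fun a b => ?_)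
    (fun a b c => ?_) (fun a b => ?_)
  · show G (m a - m a) = 0
    rw [sub_self, h.zero]
  · apply h.nonneg
    simp only [Pi.sub_apply, Finset.sum_sub_distrib, hm]
    norm_num
  · exact h.tri _ _ _ (by rw [hm, hm]) (by rw [hm, hm])
  · show G (jmp m x a - jmp m x b) = _
    by_cases hab : a = b
    · rw [if_pos hab, hab, sub_self, h.zero]
    · rw [if_neg hab]
      by_cases ha : a = x.1
      · rw [if_pos ha]
        have hb : b ≠ x.1 := fun hb => hab (ha.trans hb.symm)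
        rw [ha, jmp_self, jmp_ne _ _ hb, h.par]
      · rw [if_neg ha]
        by_cases hb : b = x.1
        · rw [if_pos hb, hb, jmp_self, jmp_ne _ _ ha, hsym, h.par]
        · rw [if_neg hb, jmp_ne _ _ ha, jmp_ne _ _ hb]

theorem sf_neg (v : Fin 5 → ℤ) : sf (-v) = sf v := by
  rw [sf, sf, QF.q1.even, QF.q0.even]

theorem sf_par (a b c : Fin 5 → ℤ) :
    sf (b + b - a - c) = 2 * sf (a - b) + 2 * sf (b - c) - sf (a - c) := by
  simp only [sf]
  rw [QF.q1.par, QF.q0.par]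
  ring

theorem q0_zero : q0 0 = 0 := by simp [q0]

theorem sf_zero : sf 0 = 0 := by simp [sf, q1, b1, q0]

theorem RF1 : RF fun v => 5 * (q0 v : ℝ) + sf v * √5 where
  nonneg v hv := by
    have h1 := pos1 v
    have h2 : (2 : ℝ) * al v = 5 * q0 v := by exact_mod_cast al_zero hv
    have h3 : (2 : ℝ) * be v = sf v := by exact_mod_cast be_zero hv
    rw [← h2, ← h3]
    linarith
  even v := by
    show 5 * (q0 (-v) : ℝ) + sf (-v) * √5 = _
    rw [QF.q0.even, sf_neg]
  zero := by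
    show 5 * (q0 0 : ℝ) + sf 0 * √5 = 0
    rw [q0_zero, sf_zero]
    simp
  par a b c := by
    show 5 * (q0 (b + b - a - c) : ℝ) + sf (b + b - a - c) * √5 = _
    rw [QF.q0.par, sf_par]
    push_cast
    ring

theorem RF2 : RF fun v => 5 * (q0 v : ℝ) - sf v * √5 where
  nonneg v hv := by
    have h1 := pos2 v
    have h2 : (2 : ℝ) * al v = 5 * q0 v := by exact_mod_cast al_zero hv
    have h3 : (2 : ℝ) * be v = sf v := by exact_mod_cast be_zero hv
    rw [← h2, ← h3]
    linarith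
  even v := by
    show 5 * (q0 (-v) : ℝ) - sf (-v) * √5 = _
    rw [QF.q0.even, sf_neg]
  zero := by
    show 5 * (q0 0 : ℝ) - sf 0 * √5 = 0
    rw [q0_zero, sf_zero]
    simp
  par a b c := by
    show 5 * (q0 (b + b - a - c) : ℝ) - sf (b + b - a - c) * √5 = _
    rw [QF.q0.par, sf_par]
    push_cast
    ring

theorem s10_one (m : Fin 5 → (Fin 5 → ℤ)) :
    s10 (fun a b => 5 * (q0 (m a - m b) : ℝ) + sf (m a - m b) * √5) =
      5 * (tt q0 m : ℝ) + (tt sf m : ℝ) * √5 := by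
  unfold s10 tt
  push_cast
  ring

theorem s10_two (m : Fin 5 → (Fin 5 → ℤ)) :
    s10 (fun a b => 5 * (q0 (m a - m b) : ℝ) - sf (m a - m b) * √5) =
      5 * (tt q0 m : ℝ) - (tt sf m : ℝ) * √5 := by
  unfold s10 tt
  push_cast
  ring

theorem tt_sf (m : Fin 5 → (Fin 5 → ℤ)) : tt sf m = 4 * tt q1 m - 3 * tt q0 m := by
  unfold tt sf
  ring

/-- the first test -/
def C4 (m : Fin 5 → (Fin 5 → ℤ)) : Prop := 40 * tt q1 m ≤ 49 * tt q0 m ∧ 11 * tt q0 m ≤ 40 * tt q1 m

/-- the second test -/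
def C5 (m : Fin 5 → (Fin 5 → ℤ)) : Prop := 36 * tt q1 m < 47 * tt q0 m ∧ 7 * tt q0 m < 36 * tt q1 m

theorem tt_pos {m : Fin 5 → (Fin 5 → ℤ)} (h : Par m) : 0 < tt q0 m := by
  have h1 : 0 < q0 (m 0 - m 1) := by
    rw [q0_eq]
    obtain ⟨z, hz⟩ := h 0 0
    obtain ⟨w, hw⟩ := h 1 0
    have e1 : Idm 0 0 = 1 := rfl
    have e2 : Idm 1 0 = 0 := rfl
    have h2 : (m 0 - m 1) 0 ≠ 0 := by
      rw [Pi.sub_apply, hz, hw, e1, e2]
      omega
    have h3 : 0 < (m 0 - m 1) 0 * (m 0 - m 1) 0 := by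
      rcases lt_or_gt_of_ne h2 with h3 | h3
      · exact mul_pos_of_neg_of_neg h3 h3
      · exact mul_pos h3 h3
    have := mul_self_nonneg ((m 0 - m 1) 1)
    have := mul_self_nonneg ((m 0 - m 1) 2)
    have := mul_self_nonneg ((m 0 - m 1) 3)
    have := mul_self_nonneg ((m 0 - m 1) 4)
    omega
  unfold tt
  have n := QF.q0.nonneg
  have := n (m 0 - m 2)
  have := n (m 0 - m 3)
  have := n (m 0 - m 4)
  have := n (m 1 - m 2)
  have := n (m 1 - m 3)
  have := n (m 1 - m 4)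
  have := n (m 2 - m 3)
  have := n (m 2 - m 4)
  have := n (m 3 - m 4)
  omega

theorem C5_of_C4 {m : Fin 5 → (Fin 5 → ℤ)} (hm : ∀ i, ∑ k, m i k = 1) (hp : Par m)
    (x : Fin 5 × Fin 5) (hx : x.1 ≠ x.2) (h : C4 m) : C5 (jmp m x) := by
  obtain ⟨h1, h2⟩ := h
  have hm' := jmp_sum hm x
  have a1 := RF1.grow hm x hx
  have a2 := RF2.grow hm x hx
  have b1 := RF1.grow hm' x hx
  have b2 := RF2.grow hm' x hx
  rw [jmp_jmp m x hx] at b1 b2
  rw [s10_one, s10_one] at a1 b1
  rw [s10_two, s10_two] at a2 b2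
  have p1 := tt_pos (hp.jmp x)
  have e1 := tt_sf m
  have e2 := tt_sf (jmp m x)
  unfold C5
  generalize tt q0 m = P at *
  generalize tt q0 (jmp m x) = P' at *
  generalize tt q1 m = Q at *
  generalize tt q1 (jmp m x) = Q' at *
  generalize tt sf m = S at *
  generalize tt sf (jmp m x) = S' at *
  have c1 : 10 * S ≤ 19 * P := by omega
  have c2 : -(10 * S) ≤ 19 * P := by omega
  have c1' : (10 : ℝ) * S ≤ 19 * P := by exact_mod_cast c1
  have c2' : -((10 : ℝ) * S) ≤ 19 * P := by exact_mod_cast c2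
  have p1' : (0 : ℝ) < P' := by exact_mod_cast p1
  have r1 : (2236 : ℝ) / 1000 < √5 := by
    apply Real.lt_sqrt_of_sq_lt
    norm_num
  have r2 : √5 < (22361 : ℝ) / 10000 := by
    rw [Real.sqrt_lt' (by norm_num)]
    norm_num
  have p0 : (0 : ℝ) ≤ P := by
    have : 0 ≤ P := by omega
    exact_mod_cast this
  have d1 : 10 * (S * √5) ≤ 19 * P * (22361 / 10000) := by
    have : 10 * (S * √5) ≤ 19 * P * √5 := by nlinarith [Real.sqrt_nonneg 5]
    have h3 : 19 * P * √5 ≤ 19 * P * (22361 / 10000) := by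
      apply mul_le_mul_of_nonneg_left r2.le
      positivity
    linarith
  have d2 : -(10 * (S * √5)) ≤ 19 * P * (22361 / 10000) := by
    have : -(10 * (S * √5)) ≤ 19 * P * √5 := by nlinarith [Real.sqrt_nonneg 5]
    have h3 : 19 * P * √5 ≤ 19 * P * (22361 / 10000) := by
      apply mul_le_mul_of_nonneg_left r2.le
      positivity
    linarith
  constructor
  · by_contra hc
    have hc1 : 20 * P' ≤ 9 * S' := by omega
    have hc2 : (20 : ℝ) * P' ≤ 9 * S' := by exact_mod_cast hc1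
    have hd : 20 * P' * (2236 / 1000) ≤ 9 * (S' * √5) := by
      have h3 : 20 * P' * (2236 / 1000) ≤ 20 * P' * √5 := by
        apply mul_le_mul_of_nonneg_left r1.le
        positivity
      have h4 : 20 * P' * √5 ≤ 9 * S' * √5 := mul_le_mul_of_nonneg_right hc2 (Real.sqrt_nonneg 5)
      linarith
    linarith
  · by_contra hc
    have hc1 : 20 * P' ≤ -(9 * S') := by omega
    have hc2 : (20 : ℝ) * P' ≤ -(9 * S') := by exact_mod_cast hc1
    have hd : 20 * P' * (2236 / 1000) ≤ -(9 * (S' * √5)) := by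
      have h3 : 20 * P' * (2236 / 1000) ≤ 20 * P' * √5 := by
        apply mul_le_mul_of_nonneg_left r1.le
        positivity
      have h4 : 20 * P' * √5 ≤ -(9 * S') * √5 := mul_le_mul_of_nonneg_right hc2 (Real.sqrt_nonneg 5)
      linarith
    linarith

end Pool.Agent.H.MP_b0c270_co.Five
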