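import Pool.Agent.H.MP_b0c270_co.FiveKB

/-! A search over the sequences of five jumps of a pentagon: the values of two quadratic forms on
the ten differences of positions. -/

set_option autoImplicit false

namespace Pool.Agent.H.MP_b0c270_co.Five

/-- The values of a quadratic form on the ten differences. -/
inductive V : Type
  | mk (a01 a02 a03 a04 a12 a13 a14 a23 a24 a34 : Nat) : V

abbrev W := V → (V → Bool) → Bool

/-- A jump: code bit, set of codes which may not follow, update function. -/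
inductive Brc : Type
  | mk (b F : Nat) (u : W) : Brc

noncomputable def w01 : W := fun v k => @V.rec (fun _ => Bool) (fun a01 a02 a03 a04 a12 a13 a14 a23 a24 a34 =>
  force (Nat.sub (Nat.add (Nat.mul 2 a01) (Nat.mul 2 a12)) a02) fun b02 =>
  force (Nat.sub (Nat.add (Nat.mul 2 a01) (Nat.mul 2 a13)) a03) fun b03 =>
  force (Nat.sub (Nat.add (Nat.mul 2 a01) (Nat.mul 2 a14)) a04) fun b04 =>
  k (V.mk a01 b02 b03 b04 a12 a13 a14 a23 a24 a34)) v

noncomputable def w02 : W := fun v k => @V.rec (fun _ => Bool) (fun a01 a02 a03 a04 a12 a13 a14 a23 a24 a34 =>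
  force (Nat.sub (Nat.add (Nat.mul 2 a02) (Nat.mul 2 a12)) a01) fun b01 =>
  force (Nat.sub (Nat.add (Nat.mul 2 a02) (Nat.mul 2 a23)) a03) fun b03 =>
  force (Nat.sub (Nat.add (Nat.mul 2 a02) (Nat.mul 2 a24)) a04) fun b04 =>
  k (V.mk b01 a02 b03 b04 a12 a13 a14 a23 a24 a34)) v

noncomputable def w03 : W := fun v k => @V.rec (fun _ => Bool) (fun a01 a02 a03 a04 a12 a13 a14 a23 a24 a34 =>
  force (Nat.sub (Nat.add (Nat.mul 2 a03) (Nat.mul 2 a13)) a01) fun b01 =>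
  force (Nat.sub (Nat.add (Nat.mul 2 a03) (Nat.mul 2 a23)) a02) fun b02 =>
  force (Nat.sub (Nat.add (Nat.mul 2 a03) (Nat.mul 2 a34)) a04) fun b04 =>
  k (V.mk b01 b02 a03 b04 a12 a13 a14 a23 a24 a34)) v

noncomputable def w04 : W := fun v k => @V.rec (fun _ => Bool) (fun a01 a02 a03 a04 a12 a13 a14 a23 a24 a34 =>
  force (Nat.sub (Nat.add (Nat.mul 2 a04) (Nat.mul 2 a14)) a01) fun b01 =>
  force (Nat.sub (Nat.add (Nat.mul 2 a04) (Nat.mul 2 a24)) a02) fun b02 =>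
  force (Nat.sub (Nat.add (Nat.mul 2 a04) (Nat.mul 2 a34)) a03) fun b03 =>
  k (V.mk b01 b02 b03 a04 a12 a13 a14 a23 a24 a34)) v

noncomputable def w10 : W := fun v k => @V.rec (fun _ => Bool) (fun a01 a02 a03 a04 a12 a13 a14 a23 a24 a34 =>
  force (Nat.sub (Nat.add (Nat.mul 2 a01) (Nat.mul 2 a02)) a12) fun b12 =>
  force (Nat.sub (Nat.add (Nat.mul 2 a01) (Nat.mul 2 a03)) a13) fun b13 =>
  force (Nat.sub (Nat.add (Nat.mul 2 a01) (Nat.mul 2 a04)) a14) fun b14 =>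
  k (V.mk a01 a02 a03 a04 b12 b13 b14 a23 a24 a34)) v

noncomputable def w12 : W := fun v k => @V.rec (fun _ => Bool) (fun a01 a02 a03 a04 a12 a13 a14 a23 a24 a34 =>
  force (Nat.sub (Nat.add (Nat.mul 2 a12) (Nat.mul 2 a02)) a01) fun b01 =>
  force (Nat.sub (Nat.add (Nat.mul 2 a12) (Nat.mul 2 a23)) a13) fun b13 =>
  force (Nat.sub (Nat.add (Nat.mul 2 a12) (Nat.mul 2 a24)) a14) fun b14 =>
  k (V.mk b01 a02 a03 a04 a12 b13 b14 a23 a24 a34)) v

noncomputable def w13 : W := fun v k => @V.rec (fun _ => Bool) (fun a01 a02 a03 a04 a12 a13 a14 a23 a24 a34 =>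
  force (Nat.sub (Nat.add (Nat.mul 2 a13) (Nat.mul 2 a03)) a01) fun b01 =>
  force (Nat.sub (Nat.add (Nat.mul 2 a13) (Nat.mul 2 a23)) a12) fun b12 =>
  force (Nat.sub (Nat.add (Nat.mul 2 a13) (Nat.mul 2 a34)) a14) fun b14 =>
  k (V.mk b01 a02 a03 a04 b12 a13 b14 a23 a24 a34)) v

noncomputable def w14 : W := fun v k => @V.rec (fun _ => Bool) (fun a01 a02 a03 a04 a12 a13 a14 a23 a24 a34 =>
  force (Nat.sub (Nat.add (Nat.mul 2 a14) (Nat.mul 2 a04)) a01) fun b01 =>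
  force (Nat.sub (Nat.add (Nat.mul 2 a14) (Nat.mul 2 a24)) a12) fun b12 =>
  force (Nat.sub (Nat.add (Nat.mul 2 a14) (Nat.mul 2 a34)) a13) fun b13 =>
  k (V.mk b01 a02 a03 a04 b12 b13 a14 a23 a24 a34)) v

noncomputable def w20 : W := fun v k => @V.rec (fun _ => Bool) (fun a01 a02 a03 a04 a12 a13 a14 a23 a24 a34 =>
  force (Nat.sub (Nat.add (Nat.mul 2 a02) (Nat.mul 2 a01)) a12) fun b12 =>
  force (Nat.sub (Nat.add (Nat.mul 2 a02) (Nat.mul 2 a03)) a23) fun b23 =>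
  force (Nat.sub (Nat.add (Nat.mul 2 a02) (Nat.mul 2 a04)) a24) fun b24 =>
  k (V.mk a01 a02 a03 a04 b12 a13 a14 b23 b24 a34)) v

noncomputable def w21 : W := fun v k => @V.rec (fun _ => Bool) (fun a01 a02 a03 a04 a12 a13 a14 a23 a24 a34 =>
  force (Nat.sub (Nat.add (Nat.mul 2 a12) (Nat.mul 2 a01)) a02) fun b02 =>
  force (Nat.sub (Nat.add (Nat.mul 2 a12) (Nat.mul 2 a13)) a23) fun b23 =>
  force (Nat.sub (Nat.add (Nat.mul 2 a12) (Nat.mul 2 a14)) a24) fun b24 =>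
  k (V.mk a01 b02 a03 a04 a12 a13 a14 b23 b24 a34)) v

noncomputable def w23 : W := fun v k => @V.rec (fun _ => Bool) (fun a01 a02 a03 a04 a12 a13 a14 a23 a24 a34 =>
  force (Nat.sub (Nat.add (Nat.mul 2 a23) (Nat.mul 2 a03)) a02) fun b02 =>
  force (Nat.sub (Nat.add (Nat.mul 2 a23) (Nat.mul 2 a13)) a12) fun b12 =>
  force (Nat.sub (Nat.add (Nat.mul 2 a23) (Nat.mul 2 a34)) a24) fun b24 =>
  k (V.mk a01 b02 a03 a04 b12 a13 a14 a23 b24 a34)) v

noncomputable def w24 : W := fun v k => @V.rec (fun _ => Bool) (fun a01 a02 a03 a04 a12 a13 a14 a23 a24 a34 =>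
  force (Nat.sub (Nat.add (Nat.mul 2 a24) (Nat.mul 2 a04)) a02) fun b02 =>
  force (Nat.sub (Nat.add (Nat.mul 2 a24) (Nat.mul 2 a14)) a12) fun b12 =>
  force (Nat.sub (Nat.add (Nat.mul 2 a24) (Nat.mul 2 a34)) a23) fun b23 =>
  k (V.mk a01 b02 a03 a04 b12 a13 a14 b23 a24 a34)) v

noncomputable def w30 : W := fun v k => @V.rec (fun _ => Bool) (fun a01 a02 a03 a04 a12 a13 a14 a23 a24 a34 =>
  force (Nat.sub (Nat.add (Nat.mul 2 a03) (Nat.mul 2 a01)) a13) fun b13 =>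
  force (Nat.sub (Nat.add (Nat.mul 2 a03) (Nat.mul 2 a02)) a23) fun b23 =>
  force (Nat.sub (Nat.add (Nat.mul 2 a03) (Nat.mul 2 a04)) a34) fun b34 =>
  k (V.mk a01 a02 a03 a04 a12 b13 a14 b23 a24 b34)) v

noncomputable def w31 : W := fun v k => @V.rec (fun _ => Bool) (fun a01 a02 a03 a04 a12 a13 a14 a23 a24 a34 =>
  force (Nat.sub (Nat.add (Nat.mul 2 a13) (Nat.mul 2 a01)) a03) fun b03 =>
  force (Nat.sub (Nat.add (Nat.mul 2 a13) (Nat.mul 2 a12)) a23) fun b23 =>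
  force (Nat.sub (Nat.add (Nat.mul 2 a13) (Nat.mul 2 a14)) a34) fun b34 =>
  k (V.mk a01 a02 b03 a04 a12 a13 a14 b23 a24 b34)) v

noncomputable def w32 : W := fun v k => @V.rec (fun _ => Bool) (fun a01 a02 a03 a04 a12 a13 a14 a23 a24 a34 =>
  force (Nat.sub (Nat.add (Nat.mul 2 a23) (Nat.mul 2 a02)) a03) fun b03 =>
  force (Nat.sub (Nat.add (Nat.mul 2 a23) (Nat.mul 2 a12)) a13) fun b13 =>
  force (Nat.sub (Nat.add (Nat.mul 2 a23) (Nat.mul 2 a24)) a34) fun b34 =>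
  k (V.mk a01 a02 b03 a04 a12 b13 a14 a23 a24 b34)) v

noncomputable def w34 : W := fun v k => @V.rec (fun _ => Bool) (fun a01 a02 a03 a04 a12 a13 a14 a23 a24 a34 =>
  force (Nat.sub (Nat.add (Nat.mul 2 a34) (Nat.mul 2 a04)) a03) fun b03 =>
  force (Nat.sub (Nat.add (Nat.mul 2 a34) (Nat.mul 2 a14)) a13) fun b13 =>
  force (Nat.sub (Nat.add (Nat.mul 2 a34) (Nat.mul 2 a24)) a23) fun b23 =>
  k (V.mk a01 a02 b03 a04 a12 b13 a14 b23 a24 a34)) v

noncomputable def w40 : W := fun v k => @V.rec (fun _ => Bool) (fun a01 a02 a03 a04 a12 a13 a14 a23 a24 a34 =>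
  force (Nat.sub (Nat.add (Nat.mul 2 a04) (Nat.mul 2 a01)) a14) fun b14 =>
  force (Nat.sub (Nat.add (Nat.mul 2 a04) (Nat.mul 2 a02)) a24) fun b24 =>
  force (Nat.sub (Nat.add (Nat.mul 2 a04) (Nat.mul 2 a03)) a34) fun b34 =>
  k (V.mk a01 a02 a03 a04 a12 a13 b14 a23 b24 b34)) v

noncomputable def w41 : W := fun v k => @V.rec (fun _ => Bool) (fun a01 a02 a03 a04 a12 a13 a14 a23 a24 a34 =>
  force (Nat.sub (Nat.add (Nat.mul 2 a14) (Nat.mul 2 a01)) a04) fun b04 =>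
  force (Nat.sub (Nat.add (Nat.mul 2 a14) (Nat.mul 2 a12)) a24) fun b24 =>
  force (Nat.sub (Nat.add (Nat.mul 2 a14) (Nat.mul 2 a13)) a34) fun b34 =>
  k (V.mk a01 a02 a03 b04 a12 a13 a14 a23 b24 b34)) v

noncomputable def w42 : W := fun v k => @V.rec (fun _ => Bool) (fun a01 a02 a03 a04 a12 a13 a14 a23 a24 a34 =>
  force (Nat.sub (Nat.add (Nat.mul 2 a24) (Nat.mul 2 a02)) a04) fun b04 =>
  force (Nat.sub (Nat.add (Nat.mul 2 a24) (Nat.mul 2 a12)) a14) fun b14 =>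
  force (Nat.sub (Nat.add (Nat.mul 2 a24) (Nat.mul 2 a23)) a34) fun b34 =>
  k (V.mk a01 a02 a03 b04 a12 a13 b14 a23 a24 b34)) v

noncomputable def w43 : W := fun v k => @V.rec (fun _ => Bool) (fun a01 a02 a03 a04 a12 a13 a14 a23 a24 a34 =>
  force (Nat.sub (Nat.add (Nat.mul 2 a34) (Nat.mul 2 a03)) a04) fun b04 =>
  force (Nat.sub (Nat.add (Nat.mul 2 a34) (Nat.mul 2 a13)) a14) fun b14 =>
  force (Nat.sub (Nat.add (Nat.mul 2 a34) (Nat.mul 2 a23)) a24) fun b24 =>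
  k (V.mk a01 a02 a03 b04 a12 a13 b14 a23 b24 a34)) v

/-- The update functions. -/
noncomputable def ww : Fin 5 → Fin 5 → W
  | 0, 1 => w01
  | 0, 2 => w02
  | 0, 3 => w03
  | 0, 4 => w04
  | 1, 0 => w10
  | 1, 2 => w12
  | 1, 3 => w13
  | 1, 4 => w14
  | 2, 0 => w20
  | 2, 1 => w21
  | 2, 3 => w23
  | 2, 4 => w24
  | 3, 0 => w30
  | 3, 1 => w31
  | 3, 2 => w32
  | 3, 4 => w34
  | 4, 0 => w40
  | 4, 1 => w41
  | 4, 2 => w42
  | 4, 3 => w43
  | _, _ => w01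

noncomputable def mkBrc (x : Fin 5 × Fin 5) : Brc := .mk (2 ^ code x) (forb x.1 x.2) (ww x.1 x.2)

/-- The sum of the ten values. -/
noncomputable def tot (v : V) : Nat := @V.rec (fun _ => Nat) (fun a01 a02 a03 a04 a12 a13 a14 a23 a24 a34 =>
  Nat.add (Nat.add (Nat.add (Nat.add a01 a02) (Nat.add a03 a04))
    (Nat.add (Nat.add a12 a13) (Nat.add a14 a23))) (Nat.add a24 a34)) v

noncomputable def c4 (t0 t1 : Nat) : Bool :=
  @Bool.rec (fun _ => Bool) false (Nat.ble (Nat.mul 11 t0) (Nat.mul 40 t1))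
    (Nat.ble (Nat.mul 40 t1) (Nat.mul 49 t0))

noncomputable def c5 (t0 t1 : Nat) : Bool :=
  @Bool.rec (fun _ => Bool) false (Nat.blt (Nat.mul 7 t0) (Nat.mul 36 t1))
    (Nat.blt (Nat.mul 36 t1) (Nat.mul 47 t0))

noncomputable def allB (F : Nat) (f : Brc → Bool) (xs : List Brc) : Bool :=
  @List.rec Brc (fun _ => Bool) true (fun a _ ih =>
    @Brc.rec (fun _ => Bool) (fun b _ _ =>
      @Bool.rec (fun _ => Bool) (@Bool.rec (fun _ => Bool) false ih (f a)) ih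
        (Nat.blt 0 (Nat.land F b))) a) xs

noncomputable def leaf5 (v0 v1 : V) : Bool :=
  force (tot v0) fun t0 => force (tot v1) fun t1 => c5 t0 t1

noncomputable def leaf4 (A : List Brc) (F : Nat) (v0 v1 : V) : Bool :=
  force (tot v0) fun t0 => force (tot v1) fun t1 =>
   @Bool.rec (fun _ => Bool)
     (allB F (fun a => @Brc.rec (fun _ => Bool) (fun _ _ u =>
       u v0 fun v0' => u v1 fun v1' => leaf5 v0' v1') a) A)
     true (c4 t0 t1)

noncomputable def goA (A : List Brc) (n : Nat) : Nat → V → V → Bool :=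
  @Nat.rec (fun _ => Nat → V → V → Bool) (fun F v0 v1 => leaf4 A F v0 v1)
   (fun _ ih F v0 v1 => allB F (fun a => @Brc.rec (fun _ => Bool) (fun _ Fa u =>
     u v0 fun v0' => u v1 fun v1' => ih Fa v0' v1') a) A) n

/-- All jumps. -/
def allPairs : List (Fin 5 × Fin 5) := [(0, 1), (0, 2), (0, 3), (0, 4), (1, 0), (1, 2), (1, 3), (1, 4), (2, 0), (2, 1), (2, 3), (2, 4), (3, 0), (3, 1), (3, 2), (3, 4), (4, 0), (4, 1), (4, 2), (4, 3)]

noncomputable def A20 : List Brc := [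
  .mk 2 0 w01,
  .mk 4 0 w02,
  .mk 8 0 w03,
  .mk 16 0 w04,
  .mk 32 0 w10,
  .mk 128 28 w12,
  .mk 256 28 w13,
  .mk 512 28 w14,
  .mk 1024 800 w20,
  .mk 2048 26 w21,
  .mk 8192 826 w23,
  .mk 16384 826 w24,
  .mk 32768 20128 w30,
  .mk 65536 19478 w31,
  .mk 131072 694 w32,
  .mk 524288 20150 w34,
  .mk 1048576 241056 w40,
  .mk 2097152 240654 w41,
  .mk 4194304 229806 w42,
  .mk 8388608 11694 w43]

theorem A20_eq : A20 = allPairs.map mkBrc := rfl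

/-- The forms at the start. -/
noncomputable def vst0 : V := .mk 2 2 2 2 2 2 2 2 2 2
noncomputable def vst1 : V := .mk 1 2 2 1 1 2 2 1 2 1

end Pool.Agent.H.MP_b0c270_co.Five
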