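import Pool.Agent.H.MP_b0c270_co.FiveKA

set_option autoImplicit false
set_option maxRecDepth 100000

namespace Pool.Agent.H.MP_b0c270_co.Five

/-- Every sequence of five jumps passes the test. -/
theorem ka : goA A20 4 0 vst0 vst1 = true := by
  decide +kernel

end Pool.Agent.H.MP_b0c270_co.Five
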