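/-! A search over the orders of ten jumps of a pentagon (used for the lower bound of `f 5`).
The search is written with recursors so that the kernel evaluates it quickly. -/

set_option autoImplicit false

namespace Pool.Agent.H.MP_b0c270_co.Five

/-- `force n k = k n`, with `n` evaluated first. -/
@[reducible] noncomputable def force (n : Nat) (k : Nat → Bool) : Bool :=
  @Nat.rec (fun _ => Bool) false (fun m _ => k m) (Nat.add n 1)

abbrev U := Nat → Nat → Nat → Nat → Nat → (Nat → Nat → Nat → Nat → Nat → Nat → Bool) → Bool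

/-- A jump: jumping piece, code bit, set of codes which may not follow, target residue,
update function. -/
inductive Arc : Type
  | mk (i b F ti : Nat) (u : U) : Arc

noncomputable def revApp (acc : List Arc) : List Arc → List Arc :=
  @List.rec Arc (fun _ => List Arc → List Arc) (fun l => l) (fun a _ ih l => ih (a :: l)) acc

noncomputable def hasSrc (i : Nat) (l : List Arc) : Bool :=
  @List.rec Arc (fun _ => Bool) false
    (fun a _ ih => @Arc.rec (fun _ => Bool)
      (fun i' _ _ _ _ => @Bool.rec (fun _ => Bool) ih true (Nat.beq i i')) a) l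

abbrev K := Nat → Nat → Nat → Nat → Nat → Nat → Nat → List Arc → Bool

noncomputable def loop (F : Nat) (f : Arc → List Arc → Bool) (xs : List Arc) : List Arc → Bool :=
  @List.rec Arc (fun _ => List Arc → Bool) (fun _ => false) (fun a t ih acc =>
    @Bool.rec (fun _ => Bool)
      (@Bool.rec (fun _ => Bool) (ih (a :: acc)) true (f a (revApp acc t))) (ih (a :: acc))
      (@Arc.rec (fun _ => Bool) (fun _ b _ _ _ => Nat.blt 0 (Nat.land F b)) a)) xs

noncomputable def go (n : Nat) : K :=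
  @Nat.rec (fun _ => K) (fun _ _ _ _ _ _ _ _ => true)
    (fun _ ih x0 x1 x2 x3 x4 F ref arcs =>
      loop F (fun a rest => @Arc.rec (fun _ => Bool) (fun i _ Fa ti u =>
         u x0 x1 x2 x3 x4 (fun x' y0 y1 y2 y3 y4 =>
            @Bool.rec (fun _ => Bool)
             (force (Nat.add (Nat.mod (Nat.add x' ti) 1048573) 1) fun v =>
              @Bool.rec (fun _ => Bool)
                (@Bool.rec (fun _ => Bool) false (ih y0 y1 y2 y3 y4 Fa ref rest) (Nat.beq ref v))
                (ih y0 y1 y2 y3 y4 Fa v rest) (Nat.beq ref 0))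
             (ih y0 y1 y2 y3 y4 Fa ref rest)
             (hasSrc i rest))) a) arcs []) n

noncomputable def u01 : U := fun x0 x1 x2 x3 x4 k =>
  force (Nat.mod (Nat.add (Nat.mul 2 x1) (Nat.sub 1048573 x0)) 1048573) fun x' => k x' x' x1 x2 x3 x4
noncomputable def u02 : U := fun x0 x1 x2 x3 x4 k =>
  force (Nat.mod (Nat.add (Nat.mul 2 x2) (Nat.sub 1048573 x0)) 1048573) fun x' => k x' x' x1 x2 x3 x4
noncomputable def u03 : U := fun x0 x1 x2 x3 x4 k =>
  force (Nat.mod (Nat.add (Nat.mul 2 x3) (Nat.sub 1048573 x0)) 1048573) fun x' => k x' x' x1 x2 x3 x4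
noncomputable def u04 : U := fun x0 x1 x2 x3 x4 k =>
  force (Nat.mod (Nat.add (Nat.mul 2 x4) (Nat.sub 1048573 x0)) 1048573) fun x' => k x' x' x1 x2 x3 x4
noncomputable def u10 : U := fun x0 x1 x2 x3 x4 k =>
  force (Nat.mod (Nat.add (Nat.mul 2 x0) (Nat.sub 1048573 x1)) 1048573) fun x' => k x' x0 x' x2 x3 x4
noncomputable def u12 : U := fun x0 x1 x2 x3 x4 k =>
  force (Nat.mod (Nat.add (Nat.mul 2 x2) (Nat.sub 1048573 x1)) 1048573) fun x' => k x' x0 x' x2 x3 x4
noncomputable def u13 : U := fun x0 x1 x2 x3 x4 k =>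
  force (Nat.mod (Nat.add (Nat.mul 2 x3) (Nat.sub 1048573 x1)) 1048573) fun x' => k x' x0 x' x2 x3 x4
noncomputable def u14 : U := fun x0 x1 x2 x3 x4 k =>
  force (Nat.mod (Nat.add (Nat.mul 2 x4) (Nat.sub 1048573 x1)) 1048573) fun x' => k x' x0 x' x2 x3 x4
noncomputable def u20 : U := fun x0 x1 x2 x3 x4 k =>
  force (Nat.mod (Nat.add (Nat.mul 2 x0) (Nat.sub 1048573 x2)) 1048573) fun x' => k x' x0 x1 x' x3 x4
noncomputable def u21 : U := fun x0 x1 x2 x3 x4 k =>
  force (Nat.mod (Nat.add (Nat.mul 2 x1) (Nat.sub 1048573 x2)) 1048573) fun x' => k x' x0 x1 x' x3 x4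
noncomputable def u23 : U := fun x0 x1 x2 x3 x4 k =>
  force (Nat.mod (Nat.add (Nat.mul 2 x3) (Nat.sub 1048573 x2)) 1048573) fun x' => k x' x0 x1 x' x3 x4
noncomputable def u24 : U := fun x0 x1 x2 x3 x4 k =>
  force (Nat.mod (Nat.add (Nat.mul 2 x4) (Nat.sub 1048573 x2)) 1048573) fun x' => k x' x0 x1 x' x3 x4
noncomputable def u30 : U := fun x0 x1 x2 x3 x4 k =>
  force (Nat.mod (Nat.add (Nat.mul 2 x0) (Nat.sub 1048573 x3)) 1048573) fun x' => k x' x0 x1 x2 x' x4
noncomputable def u31 : U := fun x0 x1 x2 x3 x4 k =>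
  force (Nat.mod (Nat.add (Nat.mul 2 x1) (Nat.sub 1048573 x3)) 1048573) fun x' => k x' x0 x1 x2 x' x4
noncomputable def u32 : U := fun x0 x1 x2 x3 x4 k =>
  force (Nat.mod (Nat.add (Nat.mul 2 x2) (Nat.sub 1048573 x3)) 1048573) fun x' => k x' x0 x1 x2 x' x4
noncomputable def u34 : U := fun x0 x1 x2 x3 x4 k =>
  force (Nat.mod (Nat.add (Nat.mul 2 x4) (Nat.sub 1048573 x3)) 1048573) fun x' => k x' x0 x1 x2 x' x4
noncomputable def u40 : U := fun x0 x1 x2 x3 x4 k =>
  force (Nat.mod (Nat.add (Nat.mul 2 x0) (Nat.sub 1048573 x4)) 1048573) fun x' => k x' x0 x1 x2 x3 x'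
noncomputable def u41 : U := fun x0 x1 x2 x3 x4 k =>
  force (Nat.mod (Nat.add (Nat.mul 2 x1) (Nat.sub 1048573 x4)) 1048573) fun x' => k x' x0 x1 x2 x3 x'
noncomputable def u42 : U := fun x0 x1 x2 x3 x4 k =>
  force (Nat.mod (Nat.add (Nat.mul 2 x2) (Nat.sub 1048573 x4)) 1048573) fun x' => k x' x0 x1 x2 x3 x'
noncomputable def u43 : U := fun x0 x1 x2 x3 x4 k =>
  force (Nat.mod (Nat.add (Nat.mul 2 x3) (Nat.sub 1048573 x4)) 1048573) fun x' => k x' x0 x1 x2 x3 x'

/-- The update functions. -/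
noncomputable def uu : Fin 5 → Fin 5 → U
  | 0, 1 => u01
  | 0, 2 => u02
  | 0, 3 => u03
  | 0, 4 => u04
  | 1, 0 => u10
  | 1, 2 => u12
  | 1, 3 => u13
  | 1, 4 => u14
  | 2, 0 => u20
  | 2, 1 => u21
  | 2, 3 => u23
  | 2, 4 => u24
  | 3, 0 => u30
  | 3, 1 => u31
  | 3, 2 => u32
  | 3, 4 => u34
  | 4, 0 => u40
  | 4, 1 => u41
  | 4, 2 => u42
  | 4, 3 => u43
  | _, _ => u01

/-- The codes which may not follow a given jump. -/
def forb : Fin 5 → Fin 5 → Nat
  | 0, 1 => 0
  | 0, 2 => 0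
  | 0, 3 => 0
  | 0, 4 => 0
  | 1, 0 => 0
  | 1, 2 => 28
  | 1, 3 => 28
  | 1, 4 => 28
  | 2, 0 => 800
  | 2, 1 => 26
  | 2, 3 => 826
  | 2, 4 => 826
  | 3, 0 => 20128
  | 3, 1 => 19478
  | 3, 2 => 694
  | 3, 4 => 20150
  | 4, 0 => 241056
  | 4, 1 => 240654
  | 4, 2 => 229806
  | 4, 3 => 11694
  | _, _ => 0

/-- The code of a jump. -/
def code (x : Fin 5 × Fin 5) : Nat := 5 * x.1.val + x.2.val

/-- Negatives of the residues of the target shape, for the two signs. -/
def tres : Bool → Fin 5 → Nat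
  | false, 0 => 204194
  | false, 1 => 930458
  | false, 2 => 160525
  | false, 3 => 906261
  | false, 4 => 120320
  | true, 0 => 844379
  | true, 1 => 118115
  | true, 2 => 888048
  | true, 3 => 142312
  | true, 4 => 928253

noncomputable def mkArc (s : Bool) (x : Fin 5 × Fin 5) : Arc :=
  .mk x.1.val (2 ^ code x) (forb x.1 x.2) (tres s x.1) (uu x.1 x.2)

/-- The two jumps over piece `j`: by the neighbours if `o`, else by the other two. -/
def colP : Fin 5 → Bool → List (Fin 5 × Fin 5)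
  | 0, true => [(1, 0), (4, 0)]
  | 0, false => [(2, 0), (3, 0)]
  | 1, true => [(2, 1), (0, 1)]
  | 1, false => [(3, 1), (4, 1)]
  | 2, true => [(3, 2), (1, 2)]
  | 2, false => [(4, 2), (0, 2)]
  | 3, true => [(4, 3), (2, 3)]
  | 3, false => [(0, 3), (1, 3)]
  | 4, true => [(0, 4), (3, 4)]
  | 4, false => [(1, 4), (2, 4)]

def pairsB (o0 o1 o2 o3 o4 : Bool) : List (Fin 5 × Fin 5) :=
  colP 0 o0 ++ (colP 1 o1 ++ (colP 2 o2 ++ (colP 3 o3 ++ colP 4 o4)))

def sgnB (o0 o1 o2 o3 o4 : Bool) : Bool := xor o0 (xor o1 (xor o2 (xor o3 o4)))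

/-- Residues of the starting position. -/
def startR : Fin 5 → Nat
  | 0 => 1
  | 1 => 1237
  | 2 => 481596
  | 3 => 144788
  | 4 => 845346

/-- Whether some jump in the list is made by piece `i`. -/
def hasS (i : Fin 5) (l : List (Fin 5 × Fin 5)) : Bool := l.any fun x => x.1 == i

/-- The reference value of a piece which never jumps (`0` if there is none). -/
def refB (s : Bool) (l : List (Fin 5 × Fin 5)) : Nat :=
  if hasS 0 l = false then (startR 0 + tres s 0) % 1048573 + 1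
  else if hasS 1 l = false then (startR 1 + tres s 1) % 1048573 + 1
  else if hasS 2 l = false then (startR 2 + tres s 2) % 1048573 + 1
  else if hasS 3 l = false then (startR 3 + tres s 3) % 1048573 + 1
  else if hasS 4 l = false then (startR 4 + tres s 4) % 1048573 + 1
  else 0

end Pool.Agent.H.MP_b0c270_co.Five
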