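import Pool.Agent.H.MP_b0c270_co.FiveKB

set_option autoImplicit false
set_option maxRecDepth 100000

namespace Pool.Agent.H.MP_b0c270_co.Five

theorem kb12 : go 10 1 1237 481596 144788 845346 0 204196
    [.mk 2 1024 800 160525 u20, .mk 3 32768 20128 906261 u30, .mk 3 65536 19478 906261 u31, .mk 4 2097152 240654 120320 u41, .mk 3 131072 694 906261 u32, .mk 1 128 28 930458 u12, .mk 4 8388608 11694 120320 u43, .mk 2 8192 826 160525 u23, .mk 1 512 28 930458 u14, .mk 2 16384 826 160525 u24] = false := by
  decide +kernel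

theorem kb13 : go 10 1 1237 481596 144788 845346 0 844381
    [.mk 1 32 0 118115 u10, .mk 4 1048576 241056 928253 u40, .mk 3 65536 19478 142312 u31, .mk 4 2097152 240654 928253 u41, .mk 3 131072 694 142312 u32, .mk 1 128 28 118115 u12, .mk 4 8388608 11694 928253 u43, .mk 2 8192 826 888048 u23, .mk 1 512 28 118115 u14, .mk 2 16384 826 888048 u24] = false := by
  decide +kernel

theorem kb14 : go 10 1 1237 481596 144788 845346 0 0
    [.mk 2 1024 800 888048 u20, .mk 3 32768 20128 142312 u30, .mk 2 2048 26 888048 u21, .mk 0 2 0 844379 u01, .mk 3 131072 694 142312 u32, .mk 1 128 28 118115 u12, .mk 4 8388608 11694 928253 u43, .mk 2 8192 826 888048 u23, .mk 1 512 28 118115 u14, .mk 2 16384 826 888048 u24] = false := by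
  decide +kernel

theorem kb15 : go 10 1 1237 481596 144788 845346 0 0
    [.mk 1 32 0 930458 u10, .mk 4 1048576 241056 120320 u40, .mk 2 2048 26 160525 u21, .mk 0 2 0 204194 u01, .mk 3 131072 694 906261 u32, .mk 1 128 28 930458 u12, .mk 4 8388608 11694 120320 u43, .mk 2 8192 826 160525 u23, .mk 1 512 28 930458 u14, .mk 2 16384 826 160525 u24] = false := by
  decide +kernel

end Pool.Agent.H.MP_b0c270_co.Five
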