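import Pool.Agent.H.MP_b0c270_co.FiveKB0
import Pool.Agent.H.MP_b0c270_co.FiveKB1
import Pool.Agent.H.MP_b0c270_co.FiveKB2
import Pool.Agent.H.MP_b0c270_co.FiveKB3
import Pool.Agent.H.MP_b0c270_co.FiveKB4
import Pool.Agent.H.MP_b0c270_co.FiveKB5
import Pool.Agent.H.MP_b0c270_co.FiveKB6
import Pool.Agent.H.MP_b0c270_co.FiveKB7

set_option autoImplicit false
set_option maxRecDepth 100000

namespace Pool.Agent.H.MP_b0c270_co.Five

/-- No order of the ten jumps of any class passes the search. -/
theorem kb (o0 o1 o2 o3 o4 : Bool) :
    go 10 (startR 0) (startR 1) (startR 2) (startR 3) (startR 4) 0
      (refB (sgnB o0 o1 o2 o3 o4) (pairsB o0 o1 o2 o3 o4))
      ((pairsB o0 o1 o2 o3 o4).map (mkArc (sgnB o0 o1 o2 o3 o4))) = false := by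
  match o0, o1, o2, o3, o4 with
  | false, false, false, false, false => exact kb0
  | true, false, false, false, false => exact kb1
  | false, true, false, false, false => exact kb2
  | true, true, false, false, false => exact kb3
  | false, false, true, false, false => exact kb4
  | true, false, true, false, false => exact kb5
  | false, true, true, false, false => exact kb6
  | true, true, true, false, false => exact kb7
  | false, false, false, true, false => exact kb8
  | true, false, false, true, false => exact kb9
  | false, true, false, true, false => exact kb10
  | true, true, false, true, false => exact kb11
  | false, false, true, true, false => exact kb12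
  | true, false, true, true, false => exact kb13
  | false, true, true, true, false => exact kb14
  | true, true, true, true, false => exact kb15
  | false, false, false, false, true => exact kb16
  | true, false, false, false, true => exact kb17
  | false, true, false, false, true => exact kb18
  | true, true, false, false, true => exact kb19
  | false, false, true, false, true => exact kb20
  | true, false, true, false, true => exact kb21
  | false, true, true, false, true => exact kb22
  | true, true, true, false, true => exact kb23
  | false, false, false, true, true => exact kb24
  | true, false, false, true, true => exact kb25
  | false, true, false, true, true => exact kb26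
  | true, true, false, true, true => exact kb27
  | false, false, true, true, true => exact kb28
  | true, false, true, true, true => exact kb29
  | false, true, true, true, true => exact kb30
  | true, true, true, true, true => exact kb31

end Pool.Agent.H.MP_b0c270_co.Five
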