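import Pool.Agent.H.MP_b0c270_co.FiveMain

/-! The exact value of `f 5`. -/

set_option autoImplicit false

namespace Pool.Agent.H.MP_b0c270_co.Five

open Finset

/-- the bounds of the five-jump search give `t < 72` -/
theorem t_lt {X t P Q S U : ℤ} (hX : 0 < X) (ht : 0 < t) (hu : X ^ 2 - 5 * t ^ 2 = 1)
    (hP : 0 < Q) (h1 : P = X * Q + t * U) (h2 : S = X * U + 5 * t * Q)
    (c1 : 9 * S < 20 * P) (c2 : -(9 * U) < 20 * Q) : t < 72 := by
  have h3 : 0 < 9 * X - 20 * t := by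
    by_contra hc
    push Not at hc
    have h4 : 81 * X ^ 2 ≤ 400 * t ^ 2 := by nlinarith
    nlinarith
  have h5 : (9 * X - 20 * t) * (9 * U) < (180 * X - 405 * t) * Q := by
    rw [h1, h2] at c1
    nlinarith
  have h6 : (9 * X - 20 * t) * (-(20 * Q)) < (180 * X - 405 * t) * Q := by
    have h7 : (9 * X - 20 * t) * (-(20 * Q)) < (9 * X - 20 * t) * (9 * U) :=
      mul_lt_mul_of_pos_left (by linarith) h3
    linarith
  have h8 : 0 < (360 * X - 805 * t) * Q := by nlinarith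
  have h9 : 0 < 360 * X - 805 * t := (mul_pos_iff_of_pos_right hP).mp h8
  have h10 : 161 * t < 72 * X := by linarith
  have h11 : (161 * t) ^ 2 < (72 * X) ^ 2 := by nlinarith
  by_contra hc
  push Not at hc
  nlinarith

theorem pell {X t : ℤ} (hX : 0 < X) (ht : 0 < t) (hu : X ^ 2 - 5 * t ^ 2 = 1) (h : t < 72) :
    X = 9 ∧ t = 4 := by
  have key : ∀ t : Fin 72, 0 < t.val → (Nat.sqrt (5 * t.val ^ 2 + 1)) ^ 2 = 5 * t.val ^ 2 + 1 →
      t.val = 4 := by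
    decide +kernel
  obtain ⟨T, rfl⟩ := Int.eq_ofNat_of_zero_le ht.le
  obtain ⟨Y, rfl⟩ := Int.eq_ofNat_of_zero_le hX.le
  have hu' : Y ^ 2 = 5 * T ^ 2 + 1 := by
    have : ((Y ^ 2 : ℕ) : ℤ) = ((5 * T ^ 2 + 1 : ℕ) : ℤ) := by
      push_cast
      linarith
    exact_mod_cast this
  have hT : T < 72 := by exact_mod_cast h
  have hs : Nat.sqrt (5 * T ^ 2 + 1) = Y := by
    rw [← hu', Nat.sqrt_eq']
  have h4 := key ⟨T, hT⟩ (by exact_mod_cast ht) (by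
    show (Nat.sqrt (5 * T ^ 2 + 1)) ^ 2 = 5 * T ^ 2 + 1
    rw [hs, hu'])
  simp only at h4
  subst h4
  have hY : Y = 9 := by nlinarith
  exact ⟨by exact_mod_cast hY, rfl⟩

theorem odd_small {x : ℤ} (h : ∃ z, x = 1 + 2 * z) (h2 : x * x ≤ 10) :
    x = -3 ∨ x = -1 ∨ x = 1 ∨ x = 3 := by
  obtain ⟨z, hz⟩ := h
  have h3 : x ≤ 3 := by nlinarith
  have h4 : -3 ≤ x := by nlinarith
  omega

theorem even_small {x : ℤ} (h : ∃ z, x = 2 * z) (h2 : x * x ≤ 10) :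
    x = -2 ∨ x = 0 ∨ x = 2 := by
  obtain ⟨z, hz⟩ := h
  have h3 : x ≤ 3 := by nlinarith
  have h4 : -3 ≤ x := by nlinarith
  omega

/-- the only short difference vector -/
theorem short_vec {d0 d1 d2 d3 d4 : ℤ} (o0 : ∃ z, d0 = 1 + 2 * z) (o1 : ∃ z, d1 = 1 + 2 * z)
    (o2 : ∃ z, d2 = 2 * z) (o3 : ∃ z, d3 = 2 * z) (o4 : ∃ z, d4 = 2 * z)
    (hs : d0 + d1 + d2 + d3 + d4 = 0) (hq : d0 * d0 + d1 * d1 + d2 * d2 + d3 * d3 + d4 * d4 = 10)
    (hb : d0 * d1 + d1 * d2 + d2 * d3 + d3 * d4 + d4 * d0 = 3) :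
    ∃ s : Bool, d1 = eps s ∧ d2 = 2 * eps s ∧ d3 = 0 ∧ d4 = -2 * eps s ∧ d0 = -eps s := by
  have n0 := mul_self_nonneg d0
  have n1 := mul_self_nonneg d1
  have n2 := mul_self_nonneg d2
  have n3 := mul_self_nonneg d3
  have n4 := mul_self_nonneg d4
  have b0 := odd_small o0 (by omega)
  have b1 := odd_small o1 (by omega)
  have b2 := even_small o2 (by omega)
  have b3 := even_small o3 (by omega)
  have b4 := even_small o4 (by omega)
  clear o0 o1 o2 o3 o4 n0 n1 n2 n3 n4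
  have key : ∀ (a0 a1 : Fin 4) (a2 a3 a4 : Fin 3),
      (![(-3 : ℤ), -1, 1, 3] a0) + (![(-3 : ℤ), -1, 1, 3] a1) + (![(-2 : ℤ), 0, 2] a2) +
        (![(-2 : ℤ), 0, 2] a3) + (![(-2 : ℤ), 0, 2] a4) = 0 →
      (![(-3 : ℤ), -1, 1, 3] a0) * (![(-3 : ℤ), -1, 1, 3] a0) +
        (![(-3 : ℤ), -1, 1, 3] a1) * (![(-3 : ℤ), -1, 1, 3] a1) +
        (![(-2 : ℤ), 0, 2] a2) * (![(-2 : ℤ), 0, 2] a2) +
        (![(-2 : ℤ), 0, 2] a3) * (![(-2 : ℤ), 0, 2] a3) +
        (![(-2 : ℤ), 0, 2] a4) * (![(-2 : ℤ), 0, 2] a4) = 10 →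
      (![(-3 : ℤ), -1, 1, 3] a0) * (![(-3 : ℤ), -1, 1, 3] a1) +
        (![(-3 : ℤ), -1, 1, 3] a1) * (![(-2 : ℤ), 0, 2] a2) +
        (![(-2 : ℤ), 0, 2] a2) * (![(-2 : ℤ), 0, 2] a3) +
        (![(-2 : ℤ), 0, 2] a3) * (![(-2 : ℤ), 0, 2] a4) +
        (![(-2 : ℤ), 0, 2] a4) * (![(-3 : ℤ), -1, 1, 3] a0) = 3 →
      ((![(-3 : ℤ), -1, 1, 3] a1) = 1 ∧ (![(-2 : ℤ), 0, 2] a2) = 2 ∧ (![(-2 : ℤ), 0, 2] a3) = 0 ∧
        (![(-2 : ℤ), 0, 2] a4) = -2 ∧ (![(-3 : ℤ), -1, 1, 3] a0) = -1) ∨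
      ((![(-3 : ℤ), -1, 1, 3] a1) = -1 ∧ (![(-2 : ℤ), 0, 2] a2) = -2 ∧
        (![(-2 : ℤ), 0, 2] a3) = 0 ∧ (![(-2 : ℤ), 0, 2] a4) = 2 ∧
        (![(-3 : ℤ), -1, 1, 3] a0) = 1) := by
    decide +kernel
  have c4 : ∀ x : ℤ, (x = -3 ∨ x = -1 ∨ x = 1 ∨ x = 3) → ∃ a : Fin 4, ![(-3 : ℤ), -1, 1, 3] a = x := by
    rintro x (rfl | rfl | rfl | rfl)
    exacts [⟨0, rfl⟩, ⟨1, rfl⟩, ⟨2, rfl⟩, ⟨3, rfl⟩]
  have c3 : ∀ x : ℤ, (x = -2 ∨ x = 0 ∨ x = 2) → ∃ a : Fin 3, ![(-2 : ℤ), 0, 2] a = x := by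
    rintro x (rfl | rfl | rfl)
    exacts [⟨0, rfl⟩, ⟨1, rfl⟩, ⟨2, rfl⟩]
  obtain ⟨a0, rfl⟩ := c4 d0 b0
  obtain ⟨a1, rfl⟩ := c4 d1 b1
  obtain ⟨a2, rfl⟩ := c3 d2 b2
  obtain ⟨a3, rfl⟩ := c3 d3 b3
  obtain ⟨a4, rfl⟩ := c3 d4 b4
  rcases key a0 a1 a2 a3 a4 hs hq hb with ⟨h1, h2, h3, h4, h0⟩ | ⟨h1, h2, h3, h4, h0⟩
  · exact ⟨false, h1, h2, h3, h4, h0⟩
  · exact ⟨true, h1, h2, h3, h4, h0⟩

theorem no_small {T : List (Fin 5 × Fin 5)} (hT : Good T) {R : ℝ} (hR : 1 < R)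
    (h : OnNgon (runT (stdStart 5) T) R) (hl : T.length = 10) : False := by
  obtain ⟨C, g, X, t, hM, hal, hbe, hu, ht, hX, -⟩ := final_data hT hR h
  have hpar : Par (runT Idm T) := Par.runT T Par.Idm
  -- halves
  have hsplit : T.take 5 ++ T.drop 5 = T := List.take_append_drop 5 T
  have hG1 : Good (T.take 5) := fun x hx => hT x (List.mem_of_mem_take hx)
  have hG2 : Good (T.drop 5) := fun x hx => hT x (List.mem_of_mem_drop hx)
  have hl1 : (T.take 5).length = 5 := by rw [List.length_take, hl]; rfl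
  have hl2 : (T.drop 5).reverse.length = 5 := by rw [List.length_reverse, List.length_drop, hl]
  have hmid : runT (runT Idm T) (T.drop 5).reverse = runT Idm (T.take 5) := by
    conv_lhs => rw [← hsplit]
    rw [runT_append]
    have e : (T.take 5 ++ T.drop 5).drop 5 = T.drop 5 := by rw [hsplit]
    rw [e]
    exact runT_reverse _ hG2 _
  have hconv : ∀ a b, runT Idm (T.take 5) a - runT Idm (T.take 5) b =
      conv (runT Idm (T.drop 5).reverse a - runT Idm (T.drop 5).reverse b) g := by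
    intro a b
    rw [← hmid]
    exact back_conv hM _ a b
  obtain ⟨k1, k2⟩ := tt_conv (runT_sum (T.drop 5).reverse Idm_sum) hconv
  have cX := C5_all hl1 hG1
  have cY := C5_all hl2 hG2.reverse
  have pY := tt_pos (Par.runT (T.drop 5).reverse Par.Idm)
  have sX := tt_sf (runT Idm (T.take 5))
  have sY := tt_sf (runT Idm (T.drop 5).reverse)
  have ht72 : t < 72 := by
    rw [hal, hbe] at k1 k2
    refine t_lt (P := tt q0 (runT Idm (T.take 5))) (Q := tt q0 (runT Idm (T.drop 5).reverse))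
      (S := tt sf (runT Idm (T.take 5))) (U := tt sf (runT Idm (T.drop 5).reverse))
      hX ht hu pY (by linarith) (by linarith) ?_ ?_
    · have := cX.1
      rw [sX]
      linarith
    · have := cY.2
      rw [sY]
      linarith
  obtain ⟨rfl, rfl⟩ := pell hX ht hu ht72
  -- the difference of two neighbouring rows
  have hd : runT Idm T 0 - runT Idm T 1 = conv (Idm 0 - Idm 1) g := by
    have := back_conv hM [] 0 1
    rwa [runT_nil, runT_nil] at this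
  have hz : ∑ k, (Idm 0 - Idm 1) k = 0 := sum_sub_zero Idm_sum 0 1
  have h1 := q0_conv _ g hz
  have h2 := sf_conv _ g hz
  rw [← hd, q0_e, sf_e, hal, hbe] at h1 h2
  have hq : q0 (runT Idm T 0 - runT Idm T 1) = 10 := by linarith
  have hsf : sf (runT Idm T 0 - runT Idm T 1) = 22 := by linarith
  have hb : b1 (runT Idm T 0 - runT Idm T 1) = 3 := by
    rw [sf, q1, hq] at hsf
    linarith
  have hsum0 := sum_sub_zero (runT_sum T Idm_sum) 0 1
  have hk : ∀ k, (runT Idm T 0 - runT Idm T 1) k = g k - g (k - 1) := by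
    intro k
    rw [Pi.sub_apply, hM, hM, sub_zero]
    ring
  have hpk : ∀ k, ∃ z, (runT Idm T 0 - runT Idm T 1) k = Idm 0 k - Idm 1 k + 2 * z := by
    intro k
    obtain ⟨z, hz⟩ := hpar 0 k
    obtain ⟨w, hw⟩ := hpar 1 k
    refine ⟨z - w, ?_⟩
    rw [Pi.sub_apply, hz, hw]
    ring
  rw [q0_eq] at hq
  rw [b1_eq] at hb
  rw [sum_five] at hsum0
  obtain ⟨z0, y0⟩ := hpk 0
  obtain ⟨z1, y1⟩ := hpk 1
  obtain ⟨z2, y2⟩ := hpk 2
  obtain ⟨z3, y3⟩ := hpk 3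
  obtain ⟨z4, y4⟩ := hpk 4
  have i00 : Idm 0 0 - Idm 1 0 = 1 := rfl
  have i01 : Idm 0 1 - Idm 1 1 = -1 := rfl
  have i02 : Idm 0 2 - Idm 1 2 = 0 := rfl
  have i03 : Idm 0 3 - Idm 1 3 = 0 := rfl
  have i04 : Idm 0 4 - Idm 1 4 = 0 := rfl
  rw [i00] at y0
  rw [i01] at y1
  rw [i02, zero_add] at y2
  rw [i03, zero_add] at y3
  rw [i04, zero_add] at y4
  have hk1 := hk 1
  have hk2 := hk 2
  have hk3 := hk 3
  have hk4 := hk 4
  generalize (runT Idm T 0 - runT Idm T 1) 0 = d0 at *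
  generalize (runT Idm T 0 - runT Idm T 1) 1 = d1 at *
  generalize (runT Idm T 0 - runT Idm T 1) 2 = d2 at *
  generalize (runT Idm T 0 - runT Idm T 1) 3 = d3 at *
  generalize (runT Idm T 0 - runT Idm T 1) 4 = d4 at *
  obtain ⟨s, s1, s2, s3, s4, s0⟩ := short_vec (d0 := d0) (d1 := d1) (d2 := d2) (d3 := d3) (d4 := d4)
    ⟨z0, y0⟩ ⟨z1 - 1, by linarith⟩ ⟨z2, y2⟩ ⟨z3, y3⟩ ⟨z4, y4⟩ hsum0 hq hb
  have f1 : g (1 - 1) = g 0 := rfl
  have f2 : g (2 - 1) = g 1 := rfl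
  have f3 : g (3 - 1) = g 2 := rfl
  have f4 : g (4 - 1) = g 3 := rfl
  rw [f1] at hk1
  rw [f2] at hk2
  rw [f3] at hk3
  rw [f4] at hk4
  -- `g` is the standard shape up to a constant
  have hshape : ∀ l, g l = (g 0 + eps s) - eps s * g0 l := by
    intro l
    rcases fin5 l with rfl | rfl | rfl | rfl | rfl
    · have : g0 0 = 1 := rfl
      rw [this]
      ring
    · have : g0 1 = 0 := rfl
      rw [this]
      linarith
    · have : g0 2 = -2 := rfl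
      rw [this]
      linarith
    · have : g0 3 = -2 := rfl
      rw [this]
      linarith
    · have : g0 4 = 0 := rfl
      rw [this]
      linarith
  have heps : eps (!s) = -eps s := by cases s <;> rfl
  refine no_ten hl hT (!s) (fun k => C k + (g 0 + eps s)) ?_
  intro i k
  rw [hM, hshape (k - i), heps]
  ring

/-- Fewer than twelve jumps do not suffice. -/
theorem lower_five : 12 ≤ f 5 := by
  by_contra hlt
  push Not at hlt
  obtain ⟨h0, -⟩ := bound_general (N := 5) (Or.inl rfl)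
  obtain ⟨q, R, hR, hreach, hq⟩ := h0
  obtain ⟨T, hTl, hT, rfl⟩ := reach_list hreach
  obtain ⟨k, hk⟩ := even_length hT hR hq
  have hk5 : k ≤ 5 := by omega
  have hx : ((0 : Fin 5), (1 : Fin 5)).1 ≠ ((0 : Fin 5), (1 : Fin 5)).2 := by decide
  have hrun : ∀ p : Fin 5 → ℂ, runT p (T ++ List.replicate (2 * (5 - k)) ((0 : Fin 5), (1 : Fin 5))) =
      runT p T := by
    intro p
    rw [runT_append, runT_replicate _ _ hx]
  refine no_small (T := T ++ List.replicate (2 * (5 - k)) ((0 : Fin 5), (1 : Fin 5))) ?_ hR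
    (by rw [hrun]; exact hq) ?_
  · intro x hx'
    rcases List.mem_append.mp hx' with hx' | hx'
    · exact hT x hx'
    · rw [List.eq_of_mem_replicate hx']
      exact hx
  · rw [List.length_append, List.length_replicate]
    omega

theorem f_five : f 5 = 12 := le_antisymm bound_five lower_five

end Pool.Agent.H.MP_b0c270_co.Five
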