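import Pool.Agent.H.MP_b0c270_co.FiveGrow
import Pool.Agent.H.MP_b0c270_co.FiveKAAll

/-! What the search over five jumps proves. -/

set_option autoImplicit false

namespace Pool.Agent.H.MP_b0c270_co.Five

open Finset

def vv (f : Fin 5 → Fin 5 → ℕ) : V :=
  .mk (f 0 1) (f 0 2) (f 0 3) (f 0 4) (f 1 2) (f 1 3) (f 1 4) (f 2 3) (f 2 4) (f 3 4)

theorem w_abs (f f' : Fin 5 → Fin 5 → ℕ) (sym : ∀ a b, f a b = f b a) (i j : Fin 5) (hij : i ≠ j)
    (hf : ∀ p r, p ≠ r → f' p r = if p = i then (if r = j then f i j else 2 * f i j + 2 * f j r - f i r)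
      else if r = i then (if p = j then f i j else 2 * f i j + 2 * f j p - f i p) else f p r)
    (k : V → Bool) : ww i j (vv f) k = k (vv f') := by
  have e01 := sym 1 0
  have e02 := sym 2 0
  have e03 := sym 3 0
  have e04 := sym 4 0
  have e12 := sym 2 1
  have e13 := sym 3 1
  have e14 := sym 4 1
  have e23 := sym 3 2
  have e24 := sym 4 2
  have e34 := sym 4 3
  clear sym
  have hv : vv f' = .mk (f' 0 1) (f' 0 2) (f' 0 3) (f' 0 4) (f' 1 2) (f' 1 3) (f' 1 4) (f' 2 3)
    (f' 2 4) (f' 3 4) := rfl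
  rw [hv, hf 0 1 (by decide), hf 0 2 (by decide), hf 0 3 (by decide), hf 0 4 (by decide),
    hf 1 2 (by decide), hf 1 3 (by decide), hf 1 4 (by decide), hf 2 3 (by decide),
    hf 2 4 (by decide), hf 3 4 (by decide)]
  clear hf hv
  rcases fin5 i with rfl | rfl | rfl | rfl | rfl <;>
    rcases fin5 j with rfl | rfl | rfl | rfl | rfl <;>
    first
      | exact absurd rfl hij
      | (simp (config := { decide := true }) only [if_true, if_false, e01, e02, e03, e04, e12,
           e13, e14, e23, e24, e34]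
         rfl)

noncomputable def dn (q : (Fin 5 → ℤ) → ℤ) (m : Fin 5 → (Fin 5 → ℤ)) (a b : Fin 5) : ℕ :=
  (q (m a - m b)).toNat

theorem dn_sym {q : (Fin 5 → ℤ) → ℤ} (h : QF q) (m : Fin 5 → (Fin 5 → ℤ)) (a b : Fin 5) :
    dn q m a b = dn q m b a := by
  unfold dn
  rw [← neg_sub, h.even]

theorem w_spec {q : (Fin 5 → ℤ) → ℤ} (h : QF q) (m : Fin 5 → (Fin 5 → ℤ)) (x : Fin 5 × Fin 5)
    (hx : x.1 ≠ x.2) (k : V → Bool) :
    ww x.1 x.2 (vv (dn q m)) k = k (vv (dn q (jmp m x))) := by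
  have key : ∀ b : Fin 5, b ≠ x.1 → dn q (jmp m x) x.1 b = if b = x.2 then dn q m x.1 x.2 else
      2 * dn q m x.1 x.2 + 2 * dn q m x.2 b - dn q m x.1 b := by
    intro b hb
    unfold dn
    rw [jmp_self, jmp_ne _ _ hb]
    have h1 := h.par (m x.1) (m x.2) (m b)
    have n1 := h.nonneg (m x.1 - m x.2)
    have n2 := h.nonneg (m x.2 - m b)
    have n3 := h.nonneg (m x.1 - m b)
    have n4 := h.nonneg (m x.2 + m x.2 - m x.1 - m b)
    split_ifs with hb2
    · rw [hb2]
      have e : m x.2 + m x.2 - m x.1 - m x.2 = -(m x.1 - m x.2) := by abel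
      rw [e, h.even]
    · omega
  refine w_abs _ _ (dn_sym h m) x.1 x.2 hx ?_ k
  intro p r hpr
  by_cases hp : p = x.1
  · rw [if_pos hp, hp]
    exact key r (fun hr => hpr (hp.trans hr.symm))
  · rw [if_neg hp]
    by_cases hr : r = x.1
    · rw [if_pos hr, hr, dn_sym h]
      exact key p hp
    · rw [if_neg hr]
      unfold dn
      rw [jmp_ne _ _ hp, jmp_ne _ _ hr]

theorem allB_spec (F : ℕ) (f : Brc → Bool) (l : List (Fin 5 × Fin 5))
    (h : allB F f (l.map mkBrc) = true) : ∀ x ∈ l, mayF F x → f (mkBrc x) = true := by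
  induction l with
  | nil =>
    intro x hx
    simp at hx
  | cons a t ih =>
    have h' : @Bool.rec (fun _ => Bool)
        (@Bool.rec (fun _ => Bool) false (allB F f (t.map mkBrc)) (f (mkBrc a)))
        (allB F f (t.map mkBrc)) (Nat.blt 0 (Nat.land F (2 ^ code a))) = true := h
    intro x hx hm
    cases hb : Nat.blt 0 (Nat.land F (2 ^ code a)) with
    | false =>
      rw [hb] at h'
      cases hfa : f (mkBrc a) with
      | false =>
        rw [hfa] at h'
        exact absurd (show false = true from h') (by decide)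
      | true =>
        rw [hfa] at h'
        rcases List.mem_cons.mp hx with rfl | hx
        · exact hfa
        · exact ih h' x hx hm
    | true =>
      rw [hb] at h'
      rcases List.mem_cons.mp hx with rfl | hx
      · unfold mayF at hm
        rw [hb] at hm
        exact absurd hm (by decide)
      · exact ih h' x hx hm

theorem mem_allPairs : ∀ x : Fin 5 × Fin 5, x.1 ≠ x.2 → x ∈ allPairs := by decide

/-- the state after the last jump -/
def lastF : ℕ → List (Fin 5 × Fin 5) → ℕ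
  | F, [] => F
  | _, x :: t => lastF (forb x.1 x.2) t

theorem ch_append (F : ℕ) (T : List (Fin 5 × Fin 5)) (x : Fin 5 × Fin 5) :
    ch F (T ++ [x]) ↔ ch F T ∧ mayF (lastF F T) x := by
  induction T generalizing F with
  | nil => exact ⟨fun h => ⟨trivial, h.1⟩, fun h => ⟨h.2, trivial⟩⟩
  | cons a t ih =>
    show mayF F a ∧ ch (forb a.1 a.2) (t ++ [x]) ↔ _
    rw [ih]
    exact ⟨fun h => ⟨⟨h.1, h.2.1⟩, h.2.2⟩, fun h => ⟨h.1.1, h.1.2, h.2⟩⟩

theorem goA_spec (n F : ℕ) (m : Fin 5 → (Fin 5 → ℤ))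
    (h : goA A20 n F (vv (dn q0 m)) (vv (dn q1 m)) = true) (T : List (Fin 5 × Fin 5))
    (hl : T.length = n) (hT : Good T) (hc : ch F T) :
    leaf4 A20 (lastF F T) (vv (dn q0 (runT m T))) (vv (dn q1 (runT m T))) = true := by
  induction n generalizing F m T with
  | zero =>
    rw [List.length_eq_zero_iff] at hl
    subst hl
    exact h
  | succ n ih =>
    obtain ⟨x, t, rfl⟩ : ∃ x t, T = x :: t := by
      cases T with
      | nil => simp at hl
      | cons x t => exact ⟨x, t, rfl⟩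
    have hx : x.1 ≠ x.2 := hT x List.mem_cons_self
    have h' : allB F (fun a => @Brc.rec (fun _ => Bool) (fun _ Fa u =>
        u (vv (dn q0 m)) fun v0' => u (vv (dn q1 m)) fun v1' => goA A20 n Fa v0' v1') a)
        (allPairs.map mkBrc) = true := h
    have h2 := allB_spec F _ allPairs h' x (mem_allPairs x hx) hc.1
    have h3 : ww x.1 x.2 (vv (dn q0 m)) (fun v0' => ww x.1 x.2 (vv (dn q1 m))
        fun v1' => goA A20 n (forb x.1 x.2) v0' v1') = true := h2
    rw [w_spec QF.q0 m x hx, w_spec QF.q1 m x hx] at h3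
    exact ih (forb x.1 x.2) (jmp m x) h3 t (by simpa using hl)
      (fun y hy => hT y (List.mem_cons_of_mem _ hy)) hc.2

theorem tot_spec {q : (Fin 5 → ℤ) → ℤ} (h : QF q) (m : Fin 5 → (Fin 5 → ℤ)) :
    (tot (vv (dn q m)) : ℤ) = tt q m := by
  have e : tot (vv (dn q m)) = dn q m 0 1 + dn q m 0 2 + (dn q m 0 3 + dn q m 0 4) +
    (dn q m 1 2 + dn q m 1 3 + (dn q m 1 4 + dn q m 2 3)) + (dn q m 2 4 + dn q m 3 4) := rfl
  rw [e]
  unfold dn tt
  push_cast
  simp only [Int.toNat_of_nonneg (h.nonneg _)]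
  ring

theorem c4_spec (a b : ℕ) (h : c4 a b = true) : 40 * b ≤ 49 * a ∧ 11 * a ≤ 40 * b := by
  have h' : @Bool.rec (fun _ => Bool) false (Nat.ble (11 * a) (40 * b))
    (Nat.ble (40 * b) (49 * a)) = true := h
  cases h1 : Nat.ble (40 * b) (49 * a) with
  | false =>
    rw [h1] at h'
    exact absurd (show false = true from h') (by decide)
  | true =>
    rw [h1] at h'
    exact ⟨Nat.le_of_ble_eq_true h1, Nat.le_of_ble_eq_true h'⟩

theorem c5_spec (a b : ℕ) (h : c5 a b = true) : 36 * b < 47 * a ∧ 7 * a < 36 * b := by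
  have h' : @Bool.rec (fun _ => Bool) false (Nat.blt (7 * a) (36 * b))
    (Nat.blt (36 * b) (47 * a)) = true := h
  cases h1 : Nat.blt (36 * b) (47 * a) with
  | false =>
    rw [h1] at h'
    exact absurd (show false = true from h') (by decide)
  | true =>
    rw [h1] at h'
    exact ⟨Nat.le_of_ble_eq_true h1, Nat.le_of_ble_eq_true h'⟩

theorem C4_of {m : Fin 5 → (Fin 5 → ℤ)}
    (h : c4 (tot (vv (dn q0 m))) (tot (vv (dn q1 m))) = true) : C4 m := by
  obtain ⟨h1, h2⟩ := c4_spec _ _ h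
  have e0 := tot_spec QF.q0 m
  have e1 := tot_spec QF.q1 m
  unfold C4
  omega

theorem C5_of {m : Fin 5 → (Fin 5 → ℤ)}
    (h : c5 (tot (vv (dn q0 m))) (tot (vv (dn q1 m))) = true) : C5 m := by
  obtain ⟨h1, h2⟩ := c5_spec _ _ h
  have e0 := tot_spec QF.q0 m
  have e1 := tot_spec QF.q1 m
  unfold C5
  omega

theorem leaf4_spec (F : ℕ) (m : Fin 5 → (Fin 5 → ℤ)) (hm : ∀ i, ∑ k, m i k = 1) (hp : Par m)
    (h : leaf4 A20 F (vv (dn q0 m)) (vv (dn q1 m)) = true) (x : Fin 5 × Fin 5) (hx : x.1 ≠ x.2)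
    (hF : mayF F x) : C5 (jmp m x) := by
  have h' : @Bool.rec (fun _ => Bool)
     (allB F (fun a => @Brc.rec (fun _ => Bool) (fun _ _ u =>
       u (vv (dn q0 m)) fun v0' => u (vv (dn q1 m)) fun v1' => leaf5 v0' v1') a)
       (allPairs.map mkBrc)) true (c4 (tot (vv (dn q0 m))) (tot (vv (dn q1 m)))) = true := h
  cases hc : c4 (tot (vv (dn q0 m))) (tot (vv (dn q1 m))) with
  | true => exact C5_of_C4 hm hp x hx (C4_of hc)
  | false =>
    rw [hc] at h'
    have h2 := allB_spec F _ allPairs h' x (mem_allPairs x hx) hF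
    have h3 : ww x.1 x.2 (vv (dn q0 m)) (fun v0' => ww x.1 x.2 (vv (dn q1 m))
        fun v1' => leaf5 v0' v1') = true := h2
    rw [w_spec QF.q0 m x hx, w_spec QF.q1 m x hx] at h3
    exact C5_of h3

theorem vst0_eq : vst0 = vv (dn q0 Idm) := by
  have h : ∀ a b : Fin 5, a ≠ b → dn q0 Idm a b = 2 := by decide +kernel
  have hv : vv (dn q0 Idm) = .mk (dn q0 Idm 0 1) (dn q0 Idm 0 2) (dn q0 Idm 0 3) (dn q0 Idm 0 4)
    (dn q0 Idm 1 2) (dn q0 Idm 1 3) (dn q0 Idm 1 4) (dn q0 Idm 2 3) (dn q0 Idm 2 4)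
    (dn q0 Idm 3 4) := rfl
  rw [hv, h 0 1 (by decide), h 0 2 (by decide), h 0 3 (by decide), h 0 4 (by decide),
    h 1 2 (by decide), h 1 3 (by decide), h 1 4 (by decide), h 2 3 (by decide),
    h 2 4 (by decide), h 3 4 (by decide)]
  rfl

theorem vst1_eq : vst1 = vv (dn q1 Idm) := by
  have h : ∀ a b : Fin 5, a ≠ b → dn q1 Idm a b = if b = a + 1 ∨ a = b + 1 then 1 else 2 := by
    decide +kernel
  have hv : vv (dn q1 Idm) = .mk (dn q1 Idm 0 1) (dn q1 Idm 0 2) (dn q1 Idm 0 3) (dn q1 Idm 0 4)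
    (dn q1 Idm 1 2) (dn q1 Idm 1 3) (dn q1 Idm 1 4) (dn q1 Idm 2 3) (dn q1 Idm 2 4)
    (dn q1 Idm 3 4) := rfl
  rw [hv, h 0 1 (by decide), h 0 2 (by decide), h 0 3 (by decide), h 0 4 (by decide),
    h 1 2 (by decide), h 1 3 (by decide), h 1 4 (by decide), h 2 3 (by decide),
    h 2 4 (by decide), h 3 4 (by decide)]
  rfl

/-- every sequence of five jumps in normal order satisfies the bound -/
theorem C5_run {T : List (Fin 5 × Fin 5)} (hl : T.length = 5) (hT : Good T) (hc : ch 0 T) :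
    C5 (runT Idm T) := by
  rcases List.eq_nil_or_concat T with rfl | ⟨S, x, rfl⟩
  · simp at hl
  rw [List.concat_eq_append] at *
  have hc' := (ch_append 0 S x).mp hc
  have h0 : goA A20 4 0 (vv (dn q0 Idm)) (vv (dn q1 Idm)) = true := by
    rw [← vst0_eq, ← vst1_eq]
    exact ka
  have hS : Good S := fun y hy => hT y (List.mem_append_left _ hy)
  have h1 := goA_spec 4 0 Idm h0 S (by simpa using hl) hS hc'.1
  rw [runT_append, runT_cons, runT_nil]
  exact leaf4_spec _ _ (runT_sum S Idm_sum) (Par.runT S Par.Idm) h1 x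
    (hT x (List.mem_append_right _ (List.mem_singleton.mpr rfl))) hc'.2

/-- every sequence of five jumps satisfies the bound -/
theorem C5_all {T : List (Fin 5 × Fin 5)} (hl : T.length = 5) (hT : Good T) :
    C5 (runT Idm T) := by
  obtain ⟨T', hp, hc, hr⟩ := exists_ch T
  rw [← hr (Fin 5 → ℤ) Idm]
  exact C5_run (hp.length_eq.trans hl) (fun x hx => hT x (hp.mem_iff.mp hx)) hc

end Pool.Agent.H.MP_b0c270_co.Five
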