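import Pool.Agent.H.MP_b0c270_co.FiveGrow
import Pool.Agent.H.MP_b0c270_co.FiveKBAll

/-! What the search over ten jumps proves. -/

set_option autoImplicit false

namespace Pool.Agent.H.MP_b0c270_co.Five

open Finset

def jx (xs : Fin 5 → ℕ) (x : Fin 5 × Fin 5) : Fin 5 → ℕ :=
  Function.update xs x.1 ((2 * xs x.2 + (1048573 - xs x.1)) % 1048573)

theorem u_spec (xs : Fin 5 → ℕ) (x : Fin 5 × Fin 5) (hx : x.1 ≠ x.2)
    (k : ℕ → ℕ → ℕ → ℕ → ℕ → ℕ → Bool) :
    uu x.1 x.2 (xs 0) (xs 1) (xs 2) (xs 3) (xs 4) k =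
      k (jx xs x x.1) (jx xs x 0) (jx xs x 1) (jx xs x 2) (jx xs x 3) (jx xs x 4) := by
  obtain ⟨i, j⟩ := x
  rcases fin5 i with rfl | rfl | rfl | rfl | rfl <;>
    rcases fin5 j with rfl | rfl | rfl | rfl | rfl <;>
    first
      | exact absurd rfl hx
      | rfl

theorem revApp_map (g : Fin 5 × Fin 5 → Arc) (acc l : List (Fin 5 × Fin 5)) :
    revApp (acc.map g) (l.map g) = (acc.reverse ++ l).map g := by
  induction acc generalizing l with
  | nil => rfl
  | cons a acc ih =>
    have h : revApp ((a :: acc).map g) (l.map g) = revApp (acc.map g) ((a :: l).map g) := rfl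
    rw [h, ih, List.reverse_cons, List.append_assoc, List.singleton_append]

theorem loop_true (s : Bool) (F : ℕ) (f : Arc → List Arc → Bool) (x : Fin 5 × Fin 5)
    (hx : mayF F x) (l1 l2 acc : List (Fin 5 × Fin 5))
    (h : f (mkArc s x) ((acc.reverse ++ (l1 ++ l2)).map (mkArc s)) = true) :
    loop F f ((l1 ++ x :: l2).map (mkArc s)) (acc.map (mkArc s)) = true := by
  induction l1 generalizing acc with
  | nil =>
    have e : loop F f (([] ++ x :: l2).map (mkArc s)) (acc.map (mkArc s)) =
      @Bool.rec (fun _ => Bool)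
        (@Bool.rec (fun _ => Bool) (loop F f (l2.map (mkArc s)) (mkArc s x :: acc.map (mkArc s)))
          true (f (mkArc s x) (revApp (acc.map (mkArc s)) (l2.map (mkArc s)))))
        (loop F f (l2.map (mkArc s)) (mkArc s x :: acc.map (mkArc s)))
        (Nat.blt 0 (Nat.land F (2 ^ code x))) := rfl
    unfold mayF at hx
    rw [List.nil_append] at h
    rw [e, hx, revApp_map, h]
  | cons y l1 ih =>
    have e : loop F f ((y :: l1 ++ x :: l2).map (mkArc s)) (acc.map (mkArc s)) =
      @Bool.rec (fun _ => Bool)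
        (@Bool.rec (fun _ => Bool)
          (loop F f ((l1 ++ x :: l2).map (mkArc s)) ((y :: acc).map (mkArc s)))
          true (f (mkArc s y) (revApp (acc.map (mkArc s)) ((l1 ++ x :: l2).map (mkArc s)))))
        (loop F f ((l1 ++ x :: l2).map (mkArc s)) ((y :: acc).map (mkArc s)))
        (Nat.blt 0 (Nat.land F (2 ^ code y))) := rfl
    have h2 := ih (y :: acc) (by
      rw [List.reverse_cons, List.append_assoc, List.singleton_append]
      exact h)
    rw [e, h2]
    cases Nat.blt 0 (Nat.land F (2 ^ code y)) with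
    | true => rfl
    | false =>
      cases f (mkArc s y) (revApp (acc.map (mkArc s)) ((l1 ++ x :: l2).map (mkArc s))) <;> rfl

theorem hasSrc_false (s : Bool) (i : Fin 5) (l : List (Fin 5 × Fin 5))
    (h : hasSrc i.val (l.map (mkArc s)) = false) : ∀ x ∈ l, x.1 ≠ i := by
  induction l with
  | nil =>
    intro x hx
    simp at hx
  | cons a t ih =>
    have h' : @Bool.rec (fun _ => Bool) (hasSrc i.val (t.map (mkArc s))) true
      (Nat.beq i.val a.1.val) = false := h
    cases hb : Nat.beq i.val a.1.val with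
    | true =>
      rw [hb] at h'
      exact absurd (show true = false from h') (by decide)
    | false =>
      rw [hb] at h'
      intro x hx
      rcases List.mem_cons.mp hx with rfl | hx
      · intro he
        rw [he] at hb
        have : Nat.beq i.val i.val = true := Nat.beq_refl _
        rw [this] at hb
        exact absurd hb (by decide)
      · exact ih h' x hx

theorem foldl_jx_ne (T : List (Fin 5 × Fin 5)) (xs : Fin 5 → ℕ) (i : Fin 5)
    (h : ∀ x ∈ T, x.1 ≠ i) : T.foldl jx xs i = xs i := by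
  induction T generalizing xs with
  | nil => rfl
  | cons x T ih =>
    rw [List.foldl_cons, ih _ (fun y hy => h y (List.mem_cons_of_mem _ hy))]
    unfold jx
    rw [Function.update_of_ne (h x List.mem_cons_self).symm]

theorem go_true (s : Bool) (v : ℕ) (T : List (Fin 5 × Fin 5)) :
    ∀ (l : List (Fin 5 × Fin 5)) (xs : Fin 5 → ℕ) (F ref : ℕ), Good T → ch F T → T.Perm l →
      (∀ i, (T.foldl jx xs i + tres s i) % 1048573 + 1 = v) → (ref = 0 ∨ ref = v) →
      go T.length (xs 0) (xs 1) (xs 2) (xs 3) (xs 4) F ref (l.map (mkArc s)) = true := by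
  induction T with
  | nil =>
    intro l xs F ref _ _ _ _ _
    rfl
  | cons x t ih =>
    intro l xs F ref hT hc hp hv href
    have hx : x.1 ≠ x.2 := hT x List.mem_cons_self
    have ht : Good t := fun y hy => hT y (List.mem_cons_of_mem _ hy)
    obtain ⟨l1, l2, rfl⟩ := List.append_of_mem (hp.mem_iff.mp List.mem_cons_self)
    have hp' : t.Perm (l1 ++ l2) := (hp.trans List.perm_middle).cons_inv
    have hv' : ∀ i, (t.foldl jx (jx xs x) i + tres s i) % 1048573 + 1 = v := hv
    have e : go (x :: t).length (xs 0) (xs 1) (xs 2) (xs 3) (xs 4) F ref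
        ((l1 ++ x :: l2).map (mkArc s)) =
      loop F (fun a rest => @Arc.rec (fun _ => Bool) (fun i _ Fa ti u =>
         u (xs 0) (xs 1) (xs 2) (xs 3) (xs 4) (fun x' y0 y1 y2 y3 y4 =>
            @Bool.rec (fun _ => Bool)
             (force (Nat.add (Nat.mod (Nat.add x' ti) 1048573) 1) fun v =>
              @Bool.rec (fun _ => Bool)
                (@Bool.rec (fun _ => Bool) false (go t.length y0 y1 y2 y3 y4 Fa ref rest)
                  (Nat.beq ref v))
                (go t.length y0 y1 y2 y3 y4 Fa v rest) (Nat.beq ref 0))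
             (go t.length y0 y1 y2 y3 y4 Fa ref rest)
             (hasSrc i rest))) a) ((l1 ++ x :: l2).map (mkArc s))
        (([] : List (Fin 5 × Fin 5)).map (mkArc s)) := rfl
    rw [e]
    apply loop_true s F _ x hc.1 l1 l2 []
    rw [List.reverse_nil, List.nil_append]
    show uu x.1 x.2 (xs 0) (xs 1) (xs 2) (xs 3) (xs 4) (fun x' y0 y1 y2 y3 y4 =>
            @Bool.rec (fun _ => Bool)
             (@Bool.rec (fun _ => Bool)
                (@Bool.rec (fun _ => Bool) false
                  (go t.length y0 y1 y2 y3 y4 (forb x.1 x.2) ref ((l1 ++ l2).map (mkArc s)))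
                  (Nat.beq ref ((x' + tres s x.1) % 1048573 + 1)))
                (go t.length y0 y1 y2 y3 y4 (forb x.1 x.2) ((x' + tres s x.1) % 1048573 + 1)
                  ((l1 ++ l2).map (mkArc s))) (Nat.beq ref 0))
             (go t.length y0 y1 y2 y3 y4 (forb x.1 x.2) ref ((l1 ++ l2).map (mkArc s)))
             (hasSrc x.1.val ((l1 ++ l2).map (mkArc s)))) = true
    rw [u_spec xs x hx]
    have h1 := ih (l1 ++ l2) (jx xs x) (forb x.1 x.2) ref ht hc.2 hp' hv' href
    have h2 := ih (l1 ++ l2) (jx xs x) (forb x.1 x.2) v ht hc.2 hp' hv' (Or.inr rfl)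
    cases hs : hasSrc x.1.val ((l1 ++ l2).map (mkArc s)) with
    | true => exact h1
    | false =>
      have h3 := hasSrc_false s x.1 _ hs
      have h4 : t.foldl jx (jx xs x) x.1 = jx xs x x.1 :=
        foldl_jx_ne t _ _ (fun y hy => h3 y (hp'.mem_iff.mp hy))
      have h5 := hv' x.1
      rw [h4] at h5
      rw [h5]
      rcases href with rfl | rfl
      · exact h2
      · have h6 : Nat.beq ref 0 = false := by
          rw [← h5]
          rfl
        have h7 : Nat.beq ref ref = true := Nat.beq_refl _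
        rw [h6, h7]
        exact h1

/-! ### Residues -/

def phi (v : Fin 5 → ℤ) : ℤ :=
  v 0 + 1237 * v 1 + 1237 ^ 2 * v 2 + 1237 ^ 3 * v 3 + 1237 ^ 4 * v 4

def Rel (xs : Fin 5 → ℕ) (m : Fin 5 → (Fin 5 → ℤ)) : Prop :=
  ∀ i, xs i < 1048573 ∧ ∃ z : ℤ, (xs i : ℤ) = phi (m i) + 1048573 * z

theorem Rel.jmp {xs : Fin 5 → ℕ} {m : Fin 5 → (Fin 5 → ℤ)} (h : Rel xs m) (x : Fin 5 × Fin 5) :
    Rel (jx xs x) (jmp m x) := by
  intro i
  by_cases hi : i = x.1
  · subst hi
    rw [jmp_self]
    unfold jx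
    rw [Function.update_self]
    obtain ⟨a1, z1, e1⟩ := h x.1
    obtain ⟨a2, z2, e2⟩ := h x.2
    refine ⟨Nat.mod_lt _ (by norm_num), ?_⟩
    have e3 : phi (m x.2 + m x.2 - m x.1) = 2 * phi (m x.2) - phi (m x.1) := by
      unfold phi
      simp only [Pi.sub_apply, Pi.add_apply]
      ring
    rw [e3]
    refine ⟨2 * z2 - z1 + 1 - ((2 * xs x.2 + (1048573 - xs x.1)) / 1048573 : ℕ), ?_⟩
    have h3 := Nat.div_add_mod (2 * xs x.2 + (1048573 - xs x.1)) 1048573
    omega
  · rw [jmp_ne _ _ hi]
    unfold jx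
    rw [Function.update_of_ne hi]
    exact h i

theorem Rel.run (T : List (Fin 5 × Fin 5)) {xs : Fin 5 → ℕ} {m : Fin 5 → (Fin 5 → ℤ)}
    (h : Rel xs m) : Rel (T.foldl jx xs) (runT m T) := by
  induction T generalizing xs m with
  | nil => exact h
  | cons x T ih => exact ih (h.jmp x)

theorem Rel.start : Rel startR Idm := by
  have h : ∀ i : Fin 5, startR i < 1048573 ∧ (startR i : ℤ) =
      phi (Idm i) + 1048573 * (((startR i : ℤ) - phi (Idm i)) / 1048573) := by
    decide +kernel
  intro i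
  exact ⟨(h i).1, _, (h i).2⟩

/-- the shape of the final pentagon -/
def g0 : Fin 5 → ℤ := ![1, 0, -2, -2, 0]

def eps (s : Bool) : ℤ := if s then -1 else 1

theorem tres_spec : ∀ (s : Bool) (i : Fin 5), (tres s i : ℤ) =
    -(eps s * phi (fun k => g0 (k - i))) + 1048573 *
      (((tres s i : ℤ) + eps s * phi (fun k => g0 (k - i))) / 1048573) := by
  decide +kernel

theorem mem_col : ∀ (k : Fin 5) (b : Bool) (x : Fin 5 × Fin 5), x ∈ colP k b →
    x.2 = k ∧ x.1 ≠ k ∧ g0 (k - x.1) = if b then 0 else -2 := by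
  decide +kernel

theorem pairsB_ok : ∀ o0 o1 o2 o3 o4 : Bool, (pairsB o0 o1 o2 o3 o4).Nodup ∧
    (pairsB o0 o1 o2 o3 o4).length = 10 := by
  decide +kernel

theorem mem_pairsB {o : Fin 5 → Bool} {x : Fin 5 × Fin 5}
    (h : x ∈ pairsB (o 0) (o 1) (o 2) (o 3) (o 4)) : x ∈ colP x.2 (o x.2) := by
  unfold pairsB at h
  simp only [List.mem_append] at h
  rcases h with h | h | h | h | h
  · rw [(mem_col _ _ _ h).1]; exact h
  · rw [(mem_col _ _ _ h).1]; exact h
  · rw [(mem_col _ _ _ h).1]; exact h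
  · rw [(mem_col _ _ _ h).1]; exact h
  · rw [(mem_col _ _ _ h).1]; exact h

theorem refB_or (s : Bool) (l : List (Fin 5 × Fin 5)) : refB s l = 0 ∨
    ∃ i, hasS i l = false ∧ refB s l = (startR i + tres s i) % 1048573 + 1 := by
  unfold refB
  split_ifs with h0 h1 h2 h3 h4
  · exact Or.inr ⟨0, h0, rfl⟩
  · exact Or.inr ⟨1, h1, rfl⟩
  · exact Or.inr ⟨2, h2, rfl⟩
  · exact Or.inr ⟨3, h3, rfl⟩
  · exact Or.inr ⟨4, h4, rfl⟩
  · exact Or.inl rfl

/-- no ten jumps lead to the shape -/
theorem no_ten {T : List (Fin 5 × Fin 5)} (hl : T.length = 10) (hT : Good T) (s : Bool)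
    (C : Fin 5 → ℤ) (hM : ∀ i k, runT Idm T i k = C k + eps s * g0 (k - i)) : False := by
  have hpar := Par.runT T Par.Idm
  have hsum := runT_sum T Idm_sum 0
  -- the columns are even
  have hC : ∀ k, ∃ z, C k = 2 * z := by
    intro k
    obtain ⟨z, hz⟩ := hpar (k + 1) k
    rw [hM] at hz
    have e1 : Idm (k + 1) k = 0 := by
      unfold Idm
      rw [if_neg]
      have : ∀ k : Fin 5, k + 1 ≠ k := by decide
      exact this k
    have e2 : g0 (k - (k + 1)) = 0 := by
      have : ∀ k : Fin 5, g0 (k - (k + 1)) = 0 := by decide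
      exact this k
    rw [e1, e2] at hz
    exact ⟨z, by linarith⟩
  -- the sign
  set o : Fin 5 → Bool := fun k => decide (C k % 4 = 2) with ho
  have hsgn : sgnB (o 0) (o 1) (o 2) (o 3) (o 4) = s := by
    rw [Fin.sum_univ_five] at hsum
    simp only [hM] at hsum
    have g00 : g0 (0 - 0) = 1 := rfl
    have g01 : g0 (1 - 0) = 0 := rfl
    have g02 : g0 (2 - 0) = -2 := rfl
    have g03 : g0 (3 - 0) = -2 := rfl
    have g04 : g0 (4 - 0) = 0 := rfl
    rw [g00, g01, g02, g03, g04] at hsum
    obtain ⟨c0, h0⟩ := hC 0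
    obtain ⟨c1, h1⟩ := hC 1
    obtain ⟨c2, h2⟩ := hC 2
    obtain ⟨c3, h3⟩ := hC 3
    obtain ⟨c4, h4⟩ := hC 4
    have k0 : C 0 % 4 = 2 ∨ C 0 % 4 = 0 := by omega
    have k1 : C 1 % 4 = 2 ∨ C 1 % 4 = 0 := by omega
    have k2 : C 2 % 4 = 2 ∨ C 2 % 4 = 0 := by omega
    have k3 : C 3 % 4 = 2 ∨ C 3 % 4 = 0 := by omega
    have k4 : C 4 % 4 = 2 ∨ C 4 % 4 = 0 := by omega
    rw [ho]
    simp only
    cases s <;> simp only [eps] at hsum <;>
      rcases k0 with k0 | k0 <;> rcases k1 with k1 | k1 <;> rcases k2 with k2 | k2 <;>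
      rcases k3 with k3 | k3 <;> rcases k4 with k4 | k4 <;>
      rw [k0, k1, k2, k3, k4] <;>
      first
        | rfl
        | (exfalso
           norm_num at hsum
           omega)
  -- the ten jumps
  have hmem : ∀ x ∈ pairsB (o 0) (o 1) (o 2) (o 3) (o 4), x ∈ T := by
    intro x hx
    have hx2 := mem_pairsB (o := o) hx
    obtain ⟨-, h1, h2⟩ := mem_col _ _ _ hx2
    by_contra hnot
    obtain ⟨z, hz⟩ := runT_mod4 T Par.Idm (i := x.1) (k := x.2) h1
    have hcnt : T.count (x.1, x.2) = 0 := List.count_eq_zero.mpr hnot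
    have e1 : Idm x.1 x.2 = 0 := by
      unfold Idm
      rw [if_neg h1]
    rw [hM, hcnt, e1, h2] at hz
    obtain ⟨c, hc⟩ := hC x.2
    have heps : eps s = 1 ∨ eps s = -1 := by
      cases s
      · exact Or.inl rfl
      · exact Or.inr rfl
    by_cases ho2 : C x.2 % 4 = 2
    · have : o x.2 = true := by
        rw [ho]
        exact decide_eq_true ho2
      rw [this, if_pos rfl] at hz
      push_cast at hz
      omega
    · have : o x.2 = false := by
        rw [ho]
        exact decide_eq_false ho2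
      rw [this] at hz
      simp only [Bool.false_eq_true, if_false] at hz
      rcases heps with he | he <;> rw [he] at hz <;> push_cast at hz <;> omega
  obtain ⟨hnd, hlen⟩ := pairsB_ok (o 0) (o 1) (o 2) (o 3) (o 4)
  have hperm : (pairsB (o 0) (o 1) (o 2) (o 3) (o 4)).Perm T :=
    (List.subperm_of_subset hnd hmem).perm_of_length_le (by rw [hl, hlen])
  obtain ⟨T', hp', hc', hr'⟩ := exists_ch T
  have hM' : runT Idm T' = runT Idm T := hr' _ Idm
  have rel := Rel.run T' Rel.start
  have hv : ∀ i, (T'.foldl jx startR i + tres s i) % 1048573 + 1 =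
      (phi C % 1048573).toNat + 1 := by
    intro i
    obtain ⟨-, z, hz⟩ := rel i
    have ht := tres_spec s i
    have e : phi (runT Idm T' i) = phi C + eps s * phi (fun k => g0 (k - i)) := by
      rw [hM']
      unfold phi
      simp only [hM]
      ring
    rw [e] at hz
    generalize T'.foldl jx startR i = a at hz
    generalize tres s i = b at ht
    generalize ((b : ℤ) + eps s * phi fun k => g0 (k - i)) / 1048573 = w at ht
    generalize eps s * phi (fun k => g0 (k - i)) = d at ht hz
    have h1 : ((a + b : ℕ) : ℤ) = phi C + 1048573 * (z + w) := by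
      push_cast
      linarith
    have h2 : ((a + b) % 1048573 : ℕ) = phi C % 1048573 := by
      push_cast at h1 ⊢
      rw [h1, Int.add_mul_emod_self_left]
    have h3 : 0 ≤ phi C % 1048573 := Int.emod_nonneg _ (by norm_num)
    omega
  have href : refB s (pairsB (o 0) (o 1) (o 2) (o 3) (o 4)) = 0 ∨
      refB s (pairsB (o 0) (o 1) (o 2) (o 3) (o 4)) = (phi C % 1048573).toNat + 1 := by
    rcases refB_or s (pairsB (o 0) (o 1) (o 2) (o 3) (o 4)) with h | ⟨i, h1, h2⟩
    · exact Or.inl h
    · right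
      rw [h2, ← hv i, foldl_jx_ne T' startR i]
      intro x hx he
      have hx2 : x ∈ pairsB (o 0) (o 1) (o 2) (o 3) (o 4) :=
        hperm.mem_iff.mpr (hp'.mem_iff.mp hx)
      unfold hasS at h1
      rw [List.any_eq_false] at h1
      exact h1 x hx2 (by rw [he]; exact beq_self_eq_true i)
  have h1 := go_true s _ T' _ startR 0 _ (fun x hx => hT x (hp'.mem_iff.mp hx)) hc'
    (hp'.trans hperm.symm) hv href
  have h2 := kb (o 0) (o 1) (o 2) (o 3) (o 4)
  rw [hsgn] at h2
  rw [hp'.length_eq, hl, h2] at h1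
  exact absurd h1 (by decide)

end Pool.Agent.H.MP_b0c270_co.Five
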