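import Pool.Agent.H.MP_b0c270_co.FiveStruct
import Pool.Agent.H.MP_b0c270_co.FiveSpecA
import Pool.Agent.H.MP_b0c270_co.FiveSpecB

/-! The lower bound `12 ≤ f 5`. -/

set_option autoImplicit false

namespace Pool.Agent.H.MP_b0c270_co.Five

open Finset

theorem reach_list {n : ℕ} {p q : Fin 5 → ℂ} (h : Reach n p q) :
    ∃ T : List (Fin 5 × Fin 5), T.length = n ∧ Good T ∧ q = runT p T := by
  induction h with
  | refl p => exact ⟨[], rfl, fun x hx => by simp at hx, rfl⟩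
  | tail _ hm ih =>
    obtain ⟨T, h1, h2, h3⟩ := ih
    obtain ⟨i, j, hij, e⟩ := hm
    refine ⟨T ++ [(i, j)], by simp [h1], ?_, ?_⟩
    · intro x hx
      rcases List.mem_append.mp hx with hx | hx
      · exact h2 x hx
      · rw [List.mem_singleton] at hx
        subst hx
        exact hij
    · rw [runT_append, ← h3, e]
      show _ = jmp _ (i, j)
      unfold jmp
      rw [two_mul]

/-! ### Trace modulo four -/

def tr (m : Fin 5 → (Fin 5 → ℤ)) : ℤ := ∑ i, m i i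

theorem tr_jmp {m : Fin 5 → (Fin 5 → ℤ)} (h : Par m) (x : Fin 5 × Fin 5) (hx : x.1 ≠ x.2) :
    ∃ z : ℤ, tr (jmp m x) = tr m + 2 + 4 * z := by
  obtain ⟨z, hz⟩ := h x.1 x.1
  obtain ⟨w, hw⟩ := h x.2 x.1
  have e1 : Idm x.1 x.1 = 1 := by simp [Idm]
  have e2 : Idm x.2 x.1 = 0 := by simp [Idm, hx.symm]
  rw [e1] at hz
  rw [e2] at hw
  have e3 : jmp m x x.1 x.1 = 2 * m x.2 x.1 - m x.1 x.1 := by
    rw [jmp_self]
    simp only [Pi.sub_apply, Pi.add_apply]
    ring
  have e4 : tr (jmp m x) = tr m + (jmp m x x.1 x.1 - m x.1 x.1) := by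
    unfold tr
    rw [← Finset.add_sum_erase _ _ (Finset.mem_univ x.1),
      ← Finset.add_sum_erase (Finset.univ) (fun i => m i i) (Finset.mem_univ x.1)]
    have e5 : ∑ i ∈ Finset.univ.erase x.1, jmp m x i i = ∑ i ∈ Finset.univ.erase x.1, m i i := by
      apply Finset.sum_congr rfl
      intro i hi
      rw [jmp_ne _ _ (Finset.ne_of_mem_erase hi)]
    rw [e5]
    ring
  refine ⟨w - z - 1, ?_⟩
  rw [e4, e3, hz, hw]
  ring

theorem tr_run (T : List (Fin 5 × Fin 5)) (hT : Good T) {m : Fin 5 → (Fin 5 → ℤ)} (h : Par m) :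
    ∃ z : ℤ, tr (runT m T) = tr m + 2 * (T.length : ℤ) + 4 * z := by
  induction T generalizing m with
  | nil => exact ⟨0, by simp [runT_nil]⟩
  | cons x T ih =>
    obtain ⟨z, hz⟩ := ih (fun y hy => hT y (List.mem_cons_of_mem _ hy)) (h.jmp x)
    obtain ⟨w, hw⟩ := tr_jmp h x (hT x List.mem_cons_self)
    refine ⟨z + w, ?_⟩
    rw [runT_cons, hz, hw, List.length_cons]
    push_cast
    ring

/-! ### Convolution -/

theorem conv_sub (u v g : Fin 5 → ℤ) : conv (u - v) g = conv u g - conv v g := by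
  funext k
  unfold conv
  simp only [Pi.sub_apply, sub_mul, Finset.sum_sub_distrib]

theorem back_conv {M : Fin 5 → (Fin 5 → ℤ)} {C g : Fin 5 → ℤ}
    (hM : ∀ i k, M i k = C k + g (k - i)) (S : List (Fin 5 × Fin 5)) (a b : Fin 5) :
    runT M S a - runT M S b = conv (runT Idm S a - runT Idm S b) g := by
  have h : ∀ i k, runT M S i k = C k + conv (runT Idm S i) g k := by
    intro i k
    rw [runT_eq, Finset.sum_apply]
    unfold conv
    have hs := runT_sum S Idm_sum i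
    calc ∑ l, (runT Idm S i l • M l) k = ∑ l, (runT Idm S i l * C k +
          runT Idm S i l * g (k - l)) := by
          apply Finset.sum_congr rfl
          intro l _
          rw [Pi.smul_apply, smul_eq_mul, hM]
          ring
      _ = (∑ l, runT Idm S i l) * C k + ∑ l, runT Idm S i l * g (k - l) := by
          rw [Finset.sum_add_distrib, Finset.sum_mul]
      _ = _ := by rw [hs, one_mul]
  rw [conv_sub]
  funext k
  rw [Pi.sub_apply, Pi.sub_apply, h, h]
  ring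

theorem sum_sub_zero {m : Fin 5 → (Fin 5 → ℤ)} (hm : ∀ i, ∑ k, m i k = 1) (a b : Fin 5) :
    ∑ k, (m a - m b) k = 0 := by
  simp only [Pi.sub_apply, Finset.sum_sub_distrib, hm]
  norm_num

theorem tt_conv {X Y : Fin 5 → (Fin 5 → ℤ)} {g : Fin 5 → ℤ} (hY : ∀ i, ∑ k, Y i k = 1)
    (h : ∀ a b, X a - X b = conv (Y a - Y b) g) :
    2 * tt q0 X = al g * tt q0 Y + be g * tt sf Y ∧
      2 * tt sf X = al g * tt sf Y + 5 * be g * tt q0 Y := by
  have h1 : ∀ a b, 2 * q0 (X a - X b) = al g * q0 (Y a - Y b) + be g * sf (Y a - Y b) := by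
    intro a b
    rw [h, q0_conv _ _ (sum_sub_zero hY a b)]
  have h2 : ∀ a b, 2 * sf (X a - X b) = al g * sf (Y a - Y b) + 5 * be g * q0 (Y a - Y b) := by
    intro a b
    rw [h, sf_conv _ _ (sum_sub_zero hY a b)]
  unfold tt
  constructor
  · linear_combination h1 0 1 + h1 0 2 + h1 0 3 + h1 0 4 + h1 1 2 + h1 1 3 + h1 1 4 + h1 2 3 +
      h1 2 4 + h1 3 4
  · linear_combination h2 0 1 + h2 0 2 + h2 0 3 + h2 0 4 + h2 1 2 + h2 1 3 + h2 1 4 + h2 2 3 +
      h2 2 4 + h2 3 4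

theorem q0_e : q0 (Idm 0 - Idm 1) = 2 := by decide

theorem sf_e : sf (Idm 0 - Idm 1) = -2 := by decide

/-- The data of a final pentagon. -/
theorem final_data {T : List (Fin 5 × Fin 5)} (hT : Good T) {R : ℝ} (hR : 1 < R)
    (h : OnNgon (runT (stdStart 5) T) R) :
    ∃ (C g : Fin 5 → ℤ) (X t : ℤ), (∀ i k, runT Idm T i k = C k + g (k - i)) ∧
      al g = 2 * X ∧ be g = 2 * t ∧ X ^ 2 - 5 * t ^ 2 = 1 ∧ 0 < t ∧ 0 < X ∧
      ∃ k : ℤ, g 1 + g 2 + g 3 + g 4 = 4 * k := by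
  obtain ⟨hF, hN⟩ := structure_final (by linarith) h
  have hpar : Par (runT Idm T) := Par.runT T Par.Idm
  have hsum := runT_sum T Idm_sum
  have hM : ∀ i k, runT Idm T i k = (runT Idm T k k - runT Idm T 0 0) +
      (fun l : Fin 5 => runT Idm T (-l) 0) (k - i) := by
    intro i k
    rw [circ hF i k]
    have e : -(k - i) = i - k := neg_sub k i
    simp only [e]
  set g : Fin 5 → ℤ := fun l : Fin 5 => runT Idm T (-l) 0 with hg
  set C : Fin 5 → ℤ := fun k => runT Idm T k k - runT Idm T 0 0 with hC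
  have hM' : ∀ i k, runT Idm T i k = C k + g (k - i) := hM
  -- parity of `g`
  have p0 : ∃ z, g 0 = 1 + 2 * z := by
    obtain ⟨z, hz⟩ := hpar 0 0
    exact ⟨z, hz⟩
  have pl : ∀ l : Fin 5, l ≠ 0 → ∃ z, g l = 2 * z := by
    intro l hl
    obtain ⟨z, hz⟩ := hpar (-l) 0
    have e : Idm (-l) 0 = 0 := by
      unfold Idm
      rw [if_neg]
      intro h
      exact hl (neg_eq_zero.mp h)
    rw [e] at hz
    exact ⟨z, by rw [hg]; simp only; rw [hz]; ring⟩
  obtain ⟨z0, e0⟩ := p0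
  obtain ⟨z1, e1⟩ := pl 1 (by decide)
  obtain ⟨z2, e2⟩ := pl 2 (by decide)
  obtain ⟨z3, e3⟩ := pl 3 (by decide)
  obtain ⟨z4, e4⟩ := pl 4 (by decide)
  -- `b1` and `b2`
  have hb1 : b1 g = 2 * ((1 + 2 * z0) * (z1 + z4) + 2 * (z1 * z2 + z2 * z3 + z3 * z4)) := by
    rw [b1_eq, e0, e1, e2, e3, e4]
    ring
  have hb2 : b2 g = 2 * ((1 + 2 * z0) * (z2 + z3) + 2 * (z1 * z3 + z2 * z4 + z4 * z1)) := by
    rw [b2_eq, e0, e1, e2, e3, e4]
    ring
  have hq0 : q0 g = 1 + 4 * (z0 + z0 ^ 2 + z1 ^ 2 + z2 ^ 2 + z3 ^ 2 + z4 ^ 2) := by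
    rw [q0_eq, e0, e1, e2, e3, e4]
    ring
  obtain ⟨u, hu⟩ : ∃ u, b1 g = 2 * u := ⟨_, hb1⟩
  obtain ⟨w, hw⟩ : ∃ w, b2 g = 2 * w := ⟨_, hb2⟩
  have hal : al g = 2 * (q0 g - u - w) := by
    rw [al, hu, hw]
    ring
  have hbe : be g = 2 * (u - w) := by
    rw [be, hu, hw]
    ring
  set X : ℤ := q0 g - u - w with hX
  set t : ℤ := u - w with ht
  -- the unit property
  have hunit : X ^ 2 - 5 * t ^ 2 = 1 := by
    have hb := back_conv hM' T.reverse 0 1
    rw [runT_reverse T hT] at hb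
    have hZ := sum_sub_zero (runT_sum T.reverse Idm_sum) 0 1
    generalize runT Idm T.reverse 0 - runT Idm T.reverse 1 = v at hb hZ
    have h1 := q0_conv v g hZ
    have h2 := sf_conv v g hZ
    rw [← hb, q0_e, hal, hbe] at h1
    rw [← hb, sf_e, hal, hbe] at h2
    obtain ⟨z, hz⟩ := norm_div v hZ
    have h3 : (X ^ 2 - 5 * t ^ 2) * z = 1 := by
      have h4 : 16 * ((X ^ 2 - 5 * t ^ 2) * z) = 16 := by
        have h5 : X * q0 v + t * sf v = 2 := by linarith
        have h6 : X * sf v + 5 * t * q0 v = -2 := by linarith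
        calc 16 * ((X ^ 2 - 5 * t ^ 2) * z) = (X ^ 2 - 5 * t ^ 2) * (16 * z) := by ring
          _ = (X ^ 2 - 5 * t ^ 2) * (5 * q0 v ^ 2 - sf v ^ 2) := by rw [hz]
          _ = 5 * (X * q0 v + t * sf v) ^ 2 - (X * sf v + 5 * t * q0 v) ^ 2 := by ring
          _ = 16 := by rw [h5, h6]; norm_num
      linarith
    rcases Int.eq_one_or_neg_one_of_mul_eq_one h3 with h4 | h4
    · exact h4
    · exfalso
      have hp1 := pos1 g
      have hp2 := pos2 g
      rw [hal, hbe] at hp1 hp2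
      have h5 : (0 : ℝ) ≤ (2 * X + 2 * t * √5) * (2 * X - 2 * t * √5) := by
        have := mul_nonneg hp1 hp2
        push_cast at this
        linarith
      have h6 : (2 * X + 2 * t * √5) * (2 * X - 2 * t * √5) = 4 * ((X : ℝ) ^ 2 - 5 * t ^ 2) := by
        have := sqrt5_sq
        linear_combination (-4 * (t : ℝ) ^ 2) * this
      have h7 : ((X : ℝ) ^ 2 - 5 * t ^ 2) = -1 := by exact_mod_cast h4
      rw [h6, h7] at h5
      norm_num at h5
  -- enlargement
  have hbig : 1 < (X : ℝ) + t * √5 := by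
    have hd : runT Idm T 0 - runT Idm T 1 = conv (Idm 0 - Idm 1) g := by
      have := back_conv hM' [] 0 1
      rwa [runT_nil, runT_nil] at this
    have hz : ∑ k, (Idm 0 - Idm 1) k = 0 := sum_sub_zero Idm_sum 0 1
    have h1 := q0_conv _ g hz
    have h2 := sf_conv _ g hz
    rw [← hd, q0_e, sf_e, hal, hbe] at h1 h2
    have h3 := form0 (sum_sub_zero hsum 0 1)
    have h4 := form0 hz
    rw [q0_e, sf_e] at h4
    have h5 : evz ze (Idm 0 - Idm 1) = 1 - ze := by
      rw [evz_eq]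
      have i0 : (Idm 0 - Idm 1) 0 = 1 := rfl
      have i1 : (Idm 0 - Idm 1) 1 = -1 := rfl
      have i2 : (Idm 0 - Idm 1) 2 = 0 := rfl
      have i3 : (Idm 0 - Idm 1) 3 = 0 := rfl
      have i4 : (Idm 0 - Idm 1) 4 = 0 := rfl
      rw [i0, i1, i2, i3, i4]
      push_cast
      ring
    rw [h5] at h4
    rw [hN] at h3
    have h6 : (q0 (runT Idm T 0 - runT Idm T 1) : ℝ) = 2 * X - 2 * t := by
      have : q0 (runT Idm T 0 - runT Idm T 1) = 2 * X - 2 * t := by linarith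
      rw [this]
      push_cast
      ring
    have h7 : (sf (runT Idm T 0 - runT Idm T 1) : ℝ) = -2 * X + 10 * t := by
      have : sf (runT Idm T 0 - runT Idm T 1) = -2 * X + 10 * t := by linarith
      rw [this]
      push_cast
      ring
    rw [h6, h7] at h3
    have s5 := sqrt5_sq
    have r2 : √5 < (3 : ℝ) := by
      rw [Real.sqrt_lt' (by norm_num)]
      norm_num
    have h8 : R ^ 2 * (10 - 2 * √5) = ((X : ℝ) + t * √5) * (10 - 2 * √5) := by
      push_cast at h4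
      have h9 : 4 * (R ^ 2 * Complex.normSq (1 - ze)) = R ^ 2 * (10 - 2 * √5) := by
        linear_combination (R ^ 2) * h4
      rw [← h9, h3]
      linear_combination (2 * (t : ℝ)) * s5
    have h10 : (0 : ℝ) < 10 - 2 * √5 := by linarith
    have h11 : R ^ 2 = (X : ℝ) + t * √5 := mul_right_cancel₀ h10.ne' h8
    rw [← h11]
    nlinarith
  have hprod : ((X : ℝ) + t * √5) * (X - t * √5) = 1 := by
    have h7 : ((X : ℝ) ^ 2 - 5 * t ^ 2) = 1 := by exact_mod_cast hunit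
    have := sqrt5_sq
    linear_combination h7 + (-(t : ℝ) ^ 2) * this
  have hsmall : (X : ℝ) - t * √5 < 1 := by
    by_contra hc
    push Not at hc
    nlinarith
  have hpos : 0 < (X : ℝ) - t * √5 := by
    by_contra hc
    push Not at hc
    nlinarith
  have hs5 : (0 : ℝ) < √5 := Real.sqrt_pos.mpr (by norm_num)
  have htpos : 0 < t := by
    have : (0 : ℝ) < t := by
      by_contra hc
      push Not at hc
      nlinarith
    exact_mod_cast this
  have hXpos : 0 < X := by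
    have : (0 : ℝ) < X := by linarith
    exact_mod_cast this
  refine ⟨C, g, X, t, hM', hal, hbe, hunit, htpos, hXpos, ?_⟩
  -- the sum of the even entries
  have hteven : ∃ s, t = 2 * s := by
    rcases Int.even_or_odd t with ⟨s, hs⟩ | ⟨s, hs⟩
    · exact ⟨s, by omega⟩
    · exfalso
      rcases Int.even_or_odd X with ⟨r, hr⟩ | ⟨r, hr⟩
      · rw [hs, hr] at hunit
        have : 4 * (r ^ 2 - 5 * s ^ 2 - 5 * s) = 6 := by linarith
        omega
      · rw [hs, hr] at hunit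
        have : 4 * (r ^ 2 + r - 5 * s ^ 2 - 5 * s) = 5 := by linarith
        omega
  obtain ⟨s, hs⟩ := hteven
  have hXodd : ∃ r, X = 2 * r + 1 := by
    rcases Int.even_or_odd X with ⟨r, hr⟩ | ⟨r, hr⟩
    · exfalso
      rw [hs, hr] at hunit
      have : 4 * (r ^ 2 - 5 * s ^ 2) = 1 := by linarith
      omega
    · exact ⟨r, hr⟩
  obtain ⟨r, hr⟩ := hXodd
  have huw : ∃ c, u + w = 2 * c := by
    refine ⟨2 * (z0 + z0 ^ 2 + z1 ^ 2 + z2 ^ 2 + z3 ^ 2 + z4 ^ 2) - r, ?_⟩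
    have : q0 g - u - w = 2 * r + 1 := by rw [← hX]; exact hr
    rw [hq0] at this
    linarith
  obtain ⟨c, hc⟩ := huw
  have hu' : u = (1 + 2 * z0) * (z1 + z4) + 2 * (z1 * z2 + z2 * z3 + z3 * z4) := by
    rw [hu] at hb1
    linarith
  have hw' : w = (1 + 2 * z0) * (z2 + z3) + 2 * (z1 * z3 + z2 * z4 + z4 * z1) := by
    rw [hw] at hb2
    linarith
  refine ⟨c - z0 * (z1 + z2 + z3 + z4) - (z1 * z2 + z2 * z3 + z3 * z4) -
    (z1 * z3 + z2 * z4 + z4 * z1), ?_⟩
  rw [e1, e2, e3, e4]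
  have h9 : z1 + z2 + z3 + z4 = 2 * c - 2 * z0 * (z1 + z2 + z3 + z4) -
      2 * (z1 * z2 + z2 * z3 + z3 * z4) - 2 * (z1 * z3 + z2 * z4 + z4 * z1) := by
    rw [← hc, hu', hw']
    ring
  linear_combination 2 * h9

/-- the number of jumps is even -/
theorem even_length {T : List (Fin 5 × Fin 5)} (hT : Good T) {R : ℝ} (hR : 1 < R)
    (h : OnNgon (runT (stdStart 5) T) R) : ∃ k : ℕ, T.length = 2 * k := by
  obtain ⟨C, g, X, t, hM, -, -, -, -, -, k, hk⟩ := final_data hT hR h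
  obtain ⟨z, hz⟩ := tr_run T hT Par.Idm
  have h1 : tr Idm = 5 := by decide
  have h2 := runT_sum T Idm_sum 0
  rw [Fin.sum_univ_five] at h2
  simp only [hM] at h2
  have s0 : g (0 - 0) = g 0 := rfl
  have s1 : g (1 - 0) = g 1 := rfl
  have s2 : g (2 - 0) = g 2 := rfl
  have s3 : g (3 - 0) = g 3 := rfl
  have s4 : g (4 - 0) = g 4 := rfl
  rw [s0, s1, s2, s3, s4] at h2
  have h3 : tr (runT Idm T) = C 0 + C 1 + C 2 + C 3 + C 4 + 5 * g 0 := by
    unfold tr
    rw [Fin.sum_univ_five]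
    simp only [hM]
    have t0 : g (0 - 0) = g 0 := rfl
    have t1 : g (1 - 1) = g 0 := rfl
    have t2 : g (2 - 2) = g 0 := rfl
    have t3 : g (3 - 3) = g 0 := rfl
    have t4 : g (4 - 4) = g 0 := rfl
    rw [t0, t1, t2, t3, t4]
    ring
  refine ⟨T.length / 2, ?_⟩
  omega

theorem runT_replicate {E : Type*} [AddCommGroup E] (p : Fin 5 → E) (x : Fin 5 × Fin 5)
    (hx : x.1 ≠ x.2) (k : ℕ) : runT p (List.replicate (2 * k) x) = p := by
  induction k with
  | zero => rfl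
  | succ k ih =>
    have e : List.replicate (2 * (k + 1)) x = x :: x :: List.replicate (2 * k) x := by
      rw [show 2 * (k + 1) = 2 * k + 1 + 1 by ring, List.replicate_succ, List.replicate_succ]
    rw [e, runT_cons, runT_cons, jmp_jmp _ _ hx, ih]

end Pool.Agent.H.MP_b0c270_co.Five
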