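import Pool.Agent.H.MP_b0c270_co.Assemble
import Pool.Agent.H.MP_b0c270_co.FiveKB

/-! Sequences of jumps of five pieces: linear description, parity, normal order. -/

set_option autoImplicit false

namespace Pool.Agent.H.MP_b0c270_co.Five

open Finset

/-- piece `x.1` jumps over piece `x.2` -/
def jmp {E : Type*} [AddCommGroup E] (p : Fin 5 → E) (x : Fin 5 × Fin 5) : Fin 5 → E :=
  Function.update p x.1 (p x.2 + p x.2 - p x.1)

/-- all jumps of a list, in this order -/
def runT {E : Type*} [AddCommGroup E] (p : Fin 5 → E) (T : List (Fin 5 × Fin 5)) : Fin 5 → E :=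
  T.foldl jmp p

/-- every jump is over another piece -/
def Good (T : List (Fin 5 × Fin 5)) : Prop := ∀ x ∈ T, x.1 ≠ x.2

def Idm : Fin 5 → (Fin 5 → ℤ) := fun i k => if i = k then 1 else 0

/-- the combinations with the given coefficients -/
def act {E : Type*} [AddCommGroup E] (m : Fin 5 → (Fin 5 → ℤ)) (p : Fin 5 → E) : Fin 5 → E :=
  fun i => ∑ k, m i k • p k

section
variable {E : Type*} [AddCommGroup E]

theorem runT_append (p : Fin 5 → E) (S T : List (Fin 5 × Fin 5)) :
    runT p (S ++ T) = runT (runT p S) T := List.foldl_append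

theorem runT_cons (p : Fin 5 → E) (x : Fin 5 × Fin 5) (T : List (Fin 5 × Fin 5)) :
    runT p (x :: T) = runT (jmp p x) T := rfl

theorem runT_nil (p : Fin 5 → E) : runT p [] = p := rfl

theorem jmp_self (p : Fin 5 → E) (x : Fin 5 × Fin 5) :
    jmp p x x.1 = p x.2 + p x.2 - p x.1 := by
  simp [jmp]

theorem jmp_ne (p : Fin 5 → E) (x : Fin 5 × Fin 5) {i : Fin 5} (h : i ≠ x.1) :
    jmp p x i = p i := by
  simp [jmp, Function.update_of_ne h]

theorem jmp_act (m : Fin 5 → (Fin 5 → ℤ)) (p : Fin 5 → E) (x : Fin 5 × Fin 5) :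
    jmp (act m p) x = act (jmp m x) p := by
  funext i
  by_cases h : i = x.1
  · subst h
    rw [jmp_self]
    unfold act
    rw [jmp_self]
    simp only [Pi.sub_apply, Pi.add_apply, sub_smul, add_smul, Finset.sum_sub_distrib,
      Finset.sum_add_distrib]
  · rw [jmp_ne _ _ h]
    unfold act
    rw [jmp_ne _ _ h]

theorem runT_act (T : List (Fin 5 × Fin 5)) (m : Fin 5 → (Fin 5 → ℤ)) (p : Fin 5 → E) :
    runT (act m p) T = act (runT m T) p := by
  induction T generalizing m with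
  | nil => rfl
  | cons x T ih => rw [runT_cons, runT_cons, jmp_act, ih]

theorem act_Idm (p : Fin 5 → E) : act Idm p = p := by
  funext i
  unfold act Idm
  simp

theorem runT_eq (p : Fin 5 → E) (T : List (Fin 5 × Fin 5)) (i : Fin 5) :
    runT p T i = ∑ k, runT Idm T i k • p k := by
  have h := congrFun (runT_act T Idm p) i
  rw [act_Idm] at h
  exact h

theorem jmp_jmp (p : Fin 5 → E) (x : Fin 5 × Fin 5) (hx : x.1 ≠ x.2) :
    jmp (jmp p x) x = p := by
  funext i
  by_cases h : i = x.1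
  · subst h
    rw [jmp_self, jmp_self, jmp_ne _ _ hx.symm]
    abel
  · rw [jmp_ne _ _ h, jmp_ne _ _ h]

theorem runT_reverse (T : List (Fin 5 × Fin 5)) (hT : Good T) (p : Fin 5 → E) :
    runT (runT p T) T.reverse = p := by
  induction T generalizing p with
  | nil => rfl
  | cons x T ih =>
    rw [runT_cons, List.reverse_cons, runT_append, ih (fun y hy => hT y (List.mem_cons_of_mem _ hy)),
      runT_cons, runT_nil, jmp_jmp _ _ (hT x List.mem_cons_self)]

theorem Good.reverse {T : List (Fin 5 × Fin 5)} (hT : Good T) : Good T.reverse :=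
  fun x hx => hT x (List.mem_reverse.mp hx)

theorem jmp_comm (p : Fin 5 → E) {x y : Fin 5 × Fin 5} (h1 : x.1 ≠ y.1) (h2 : x.1 ≠ y.2)
    (h3 : y.1 ≠ x.2) : jmp (jmp p x) y = jmp (jmp p y) x := by
  funext i
  by_cases hy : i = y.1
  · subst hy
    rw [jmp_self, jmp_ne _ _ h2.symm, jmp_ne p x h1.symm, jmp_ne _ _ h1.symm, jmp_self]
  · by_cases hx : i = x.1
    · subst hx
      rw [jmp_ne _ _ h1, jmp_self, jmp_self, jmp_ne _ _ h3.symm, jmp_ne _ _ h1]
    · rw [jmp_ne _ _ hy, jmp_ne _ _ hx, jmp_ne _ _ hx, jmp_ne _ _ hy]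

end

/-! ### Row sums and parity -/

theorem jmp_sum {m : Fin 5 → (Fin 5 → ℤ)} (h : ∀ i, ∑ k, m i k = 1) (x : Fin 5 × Fin 5) :
    ∀ i, ∑ k, jmp m x i k = 1 := by
  intro i
  by_cases hi : i = x.1
  · subst hi
    rw [jmp_self]
    simp only [Pi.sub_apply, Pi.add_apply, Finset.sum_sub_distrib, Finset.sum_add_distrib, h]
    norm_num
  · rw [jmp_ne _ _ hi]
    exact h i

theorem runT_sum (T : List (Fin 5 × Fin 5)) {m : Fin 5 → (Fin 5 → ℤ)} (h : ∀ i, ∑ k, m i k = 1) :
    ∀ i, ∑ k, runT m T i k = 1 := by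
  induction T generalizing m with
  | nil => exact h
  | cons x T ih => exact ih (jmp_sum h x)

theorem Idm_sum : ∀ i, ∑ k, Idm i k = 1 := by
  intro i
  simp [Idm]

/-- congruent to the start modulo `2` -/
def Par (m : Fin 5 → (Fin 5 → ℤ)) : Prop := ∀ i k, ∃ z : ℤ, m i k = Idm i k + 2 * z

theorem Par.jmp {m : Fin 5 → (Fin 5 → ℤ)} (h : Par m) (x : Fin 5 × Fin 5) : Par (jmp m x) := by
  intro i k
  by_cases hi : i = x.1
  · subst hi
    rw [jmp_self]
    obtain ⟨z, hz⟩ := h x.1 k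
    obtain ⟨w, hw⟩ := h x.2 k
    refine ⟨m x.2 k - m x.1 k + z, ?_⟩
    simp only [Pi.sub_apply, Pi.add_apply]
    rw [hz]
    ring
  · rw [jmp_ne _ _ hi]
    exact h i k

theorem Par.Idm : Par Idm := fun i k => ⟨0, by simp⟩

theorem Par.runT (T : List (Fin 5 × Fin 5)) {m : Fin 5 → (Fin 5 → ℤ)} (h : Par m) :
    Par (runT m T) := by
  induction T generalizing m with
  | nil => exact h
  | cons x T ih => exact ih (h.jmp x)

theorem jmp_mod4 {m : Fin 5 → (Fin 5 → ℤ)} (h : Par m) (x : Fin 5 × Fin 5) {i k : Fin 5}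
    (hik : i ≠ k) : ∃ z : ℤ, jmp m x i k = m i k + 2 * (if x = (i, k) then 1 else 0) + 4 * z := by
  by_cases hi : i = x.1
  · subst hi
    rw [jmp_self]
    obtain ⟨z, hz⟩ := h x.1 k
    obtain ⟨w, hw⟩ := h x.2 k
    have e1 : Idm x.1 k = 0 := by simp [Five.Idm, hik]
    by_cases hx : x.2 = k
    · have e2 : Idm x.2 k = 1 := by simp [Five.Idm, hx]
      rw [if_pos (show x = (x.1, k) from Prod.ext rfl hx)]
      refine ⟨w - z, ?_⟩
      simp only [Pi.sub_apply, Pi.add_apply]
      rw [hz, hw, e1, e2]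
      ring
    · have e2 : Idm x.2 k = 0 := by simp [Five.Idm, hx]
      rw [if_neg (show ¬ x = (x.1, k) from fun h => hx (congrArg Prod.snd h))]
      refine ⟨w - z, ?_⟩
      simp only [Pi.sub_apply, Pi.add_apply]
      rw [hz, hw, e1, e2]
      ring
  · rw [jmp_ne _ _ hi, if_neg (fun h => hi (congrArg Prod.fst h).symm)]
    exact ⟨0, by ring⟩

theorem runT_mod4 (T : List (Fin 5 × Fin 5)) {m : Fin 5 → (Fin 5 → ℤ)} (h : Par m) {i k : Fin 5}
    (hik : i ≠ k) : ∃ z : ℤ, runT m T i k = m i k + 2 * (T.count (i, k) : ℤ) + 4 * z := by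
  induction T generalizing m with
  | nil => exact ⟨0, by simp [runT_nil]⟩
  | cons x T ih =>
    obtain ⟨z, hz⟩ := ih (h.jmp x)
    obtain ⟨w, hw⟩ := jmp_mod4 h x hik
    refine ⟨z + w, ?_⟩
    rw [runT_cons, hz, hw, List.count_cons]
    by_cases hx : x = (i, k)
    · simp [hx]
      ring
    · simp [hx]
      ring

/-! ### Normal order -/

/-- `y` may follow `x` -/
def mayF (F : ℕ) (y : Fin 5 × Fin 5) : Prop := Nat.blt 0 (Nat.land F (2 ^ code y)) = false

instance (F : ℕ) (y : Fin 5 × Fin 5) : Decidable (mayF F y) := by unfold mayF; infer_instance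

/-- the list has no adjacent commuting jumps in the wrong order -/
def ch : ℕ → List (Fin 5 × Fin 5) → Prop
  | _, [] => True
  | F, x :: t => mayF F x ∧ ch (forb x.1 x.2) t

theorem skip_spec : ∀ x y : Fin 5 × Fin 5, ¬ mayF (forb x.1 x.2) y →
    (x.1 ≠ y.1 ∧ x.1 ≠ y.2 ∧ y.1 ≠ x.2) ∧ code y < code x := by
  decide +kernel

theorem mayF_zero (y : Fin 5 × Fin 5) : mayF 0 y := by
  unfold mayF
  show Nat.blt 0 (0 &&& 2 ^ code y) = false
  rw [Nat.zero_and]
  rfl

theorem ch_or (F : ℕ) (T : List (Fin 5 × Fin 5)) : ch F T ∨ (∃ y t, T = y :: t ∧ ¬ mayF F y) ∨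
    ∃ A x y B, T = A ++ x :: y :: B ∧ ¬ mayF (forb x.1 x.2) y := by
  induction T generalizing F with
  | nil => exact Or.inl trivial
  | cons x T ih =>
    by_cases hx : mayF F x
    · rcases ih (forb x.1 x.2) with h | ⟨y, t, rfl, h⟩ | ⟨A, x', y, B, rfl, h⟩
      · exact Or.inl ⟨hx, h⟩
      · exact Or.inr (Or.inr ⟨[], x, y, t, rfl, h⟩)
      · exact Or.inr (Or.inr ⟨x :: A, x', y, B, rfl, h⟩)
    · exact Or.inr (Or.inl ⟨x, T, rfl, hx⟩)

/-- a weight of lists -/
def wt (s : ℕ) (T : List (Fin 5 × Fin 5)) : ℕ := T.foldl (fun s x => 25 * s + code x) s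

theorem wt_lt (T : List (Fin 5 × Fin 5)) {s s' : ℕ} (h : s < s') : wt s T < wt s' T := by
  induction T generalizing s s' with
  | nil => exact h
  | cons x T ih =>
    show wt (25 * s + code x) T < wt (25 * s' + code x) T
    exact ih (by omega)

theorem code_lt (x : Fin 5 × Fin 5) : code x < 25 := by
  unfold code
  have h1 := x.1.2
  have h2 := x.2.2
  omega

theorem wt_swap (A B : List (Fin 5 × Fin 5)) {x y : Fin 5 × Fin 5} (h : code y < code x) (s : ℕ) :
    wt s (A ++ y :: x :: B) < wt s (A ++ x :: y :: B) := by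
  unfold wt
  rw [List.foldl_append, List.foldl_append]
  simp only [List.foldl_cons]
  have h1 := code_lt x
  have h2 := code_lt y
  exact wt_lt B (by omega)

theorem exists_ch (T : List (Fin 5 × Fin 5)) : ∃ T' : List (Fin 5 × Fin 5), T'.Perm T ∧ ch 0 T' ∧
    ∀ (E : Type) [AddCommGroup E] (p : Fin 5 → E), runT p T' = runT p T := by
  induction hn : wt 0 T using Nat.strong_induction_on generalizing T with
  | _ n ih =>
    rcases ch_or 0 T with h | ⟨y, t, _, h⟩ | ⟨A, x, y, B, hT, h⟩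
    · exact ⟨T, List.Perm.refl _, h, fun _ _ _ => rfl⟩
    · exact absurd (mayF_zero y) h
    · obtain ⟨⟨h1, h2, h3⟩, h4⟩ := skip_spec x y h
      subst hT
      obtain ⟨T', hp, hc, hr⟩ := ih (wt 0 (A ++ y :: x :: B)) (hn ▸ wt_swap A B h4 0)
        (A ++ y :: x :: B) rfl
      refine ⟨T', hp.trans (List.Perm.append_left A (List.Perm.swap x y B)), hc, ?_⟩
      intro E _ p
      rw [hr E p, runT_append, runT_append, runT_cons, runT_cons, runT_cons, runT_cons,
        jmp_comm _ h1 h2 h3]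

end Pool.Agent.H.MP_b0c270_co.Five
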