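import Pool.Agent.H.MP_b0c270_co.FiveCplx

/-! The coefficients of a final pentagon. -/

set_option autoImplicit false

namespace Pool.Agent.H.MP_b0c270_co.Five

open Finset

theorem std_eq (k : Fin 5) : stdStart 5 k = ze ^ (k : ℕ) := by
  unfold stdStart ze
  rw [exp_eq_rt]

theorem ze_succ (k : Fin 5) : ze ^ ((k + 1 : Fin 5) : ℕ) = ze * ze ^ (k : ℕ) := by
  have h := ze5
  fin_cases k
  · show ze ^ 1 = ze * ze ^ 0
    ring
  · show ze ^ 2 = ze * ze ^ 1
    ring
  · show ze ^ 3 = ze * ze ^ 2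
    ring
  · show ze ^ 4 = ze * ze ^ 3
    ring
  · show ze ^ 0 = ze * ze ^ 4
    rw [← pow_succ', h, pow_zero]

theorem evz_sub (z : ℂ) (u v : Fin 5 → ℤ) : evz z (u - v) = evz z u - evz z v := by
  rw [evz_eq, evz_eq, evz_eq]
  simp only [Pi.sub_apply]
  push_cast
  ring

theorem evz_shift (v : Fin 5 → ℤ) : evz ze (fun l => v (l - 1)) = ze * evz ze v := by
  rw [evz_eq, evz_eq]
  have e0 : (0 : Fin 5) - 1 = 4 := rfl
  have e1 : (1 : Fin 5) - 1 = 0 := rfl
  have e2 : (2 : Fin 5) - 1 = 1 := rfl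
  have e3 : (3 : Fin 5) - 1 = 2 := rfl
  have e4 : (4 : Fin 5) - 1 = 3 := rfl
  simp only [e0, e1, e2, e3, e4]
  linear_combination (-(v 4 : ℂ)) * ze5

theorem sum_shift (v : Fin 5 → ℤ) : ∑ l, v (l - 1) = ∑ l, v l := by
  exact Fintype.sum_equiv (Equiv.subRight 1) _ _ (fun _ => rfl)

theorem runT_std (T : List (Fin 5 × Fin 5)) (i : Fin 5) :
    runT (stdStart 5) T i = evz ze (runT Idm T i) := by
  rw [runT_eq]
  unfold evz
  simp only [std_eq]

theorem normSq_ze (k : ℕ) : Complex.normSq (ze ^ k) = 1 := by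
  rw [Complex.normSq_eq_norm_sq, norm_pow]
  unfold ze
  rw [rt_norm]
  norm_num

/-- the coefficients of a final pentagon -/
theorem structure_final {T : List (Fin 5 × Fin 5)} {R : ℝ} (hR : 0 < R)
    (h : OnNgon (runT (stdStart 5) T) R) :
    (∀ i l, runT Idm T (i + 1 + 1) l - runT Idm T (i + 1) l =
      runT Idm T (i + 1) (l - 1) - runT Idm T i (l - 1)) ∧
    Complex.normSq (evz ze (runT Idm T 0 - runT Idm T 1)) =
      R ^ 2 * Complex.normSq (1 - ze) := by
  obtain ⟨σ, c, a, ha, hq⟩ := exists_perm (by norm_num) hR h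
  have hpar : Par (runT Idm T) := Par.runT T Par.Idm
  have hsum := runT_sum T Idm_sum
  simp only [runT_std, std_eq] at hq
  generalize runT Idm T = M at hq hpar hsum
  have hev : ∀ k, evz ze (M (σ.symm k)) = c + a * ze ^ (k : ℕ) := by
    intro k
    rw [hq, Equiv.apply_symm_apply]
  have hD : ∀ k l, M (σ.symm (k + 1 + 1)) l - M (σ.symm (k + 1)) l =
      M (σ.symm (k + 1)) (l - 1) - M (σ.symm k) (l - 1) := by
    intro k l
    have h0 : evz ze ((M (σ.symm (k + 1 + 1)) - M (σ.symm (k + 1))) -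
        (fun l => (M (σ.symm (k + 1)) - M (σ.symm k)) (l - 1))) = 0 := by
      rw [evz_sub, evz_shift, evz_sub, evz_sub, hev, hev, hev, ze_succ (k + 1), ze_succ k]
      ring
    have h1 : ∑ l, ((M (σ.symm (k + 1 + 1)) - M (σ.symm (k + 1))) -
        (fun l => (M (σ.symm (k + 1)) - M (σ.symm k)) (l - 1))) l = 0 := by
      simp only [Pi.sub_apply, Finset.sum_sub_distrib]
      rw [sum_shift (fun l => M (σ.symm (k + 1)) l), sum_shift (fun l => M (σ.symm k) l)]
      simp only [hsum]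
      norm_num
    have h2 := congrFun (evz_inj h1 h0) l
    simp only [Pi.sub_apply, Pi.zero_apply] at h2
    linarith
  have hstep : ∀ k, σ.symm (k + 1) = σ.symm k + 1 := by
    intro k
    have h0 := hD k (σ.symm (k + 1))
    obtain ⟨z1, e1⟩ := hpar (σ.symm (k + 1 + 1)) (σ.symm (k + 1))
    obtain ⟨z2, e2⟩ := hpar (σ.symm (k + 1)) (σ.symm (k + 1))
    obtain ⟨z3, e3⟩ := hpar (σ.symm (k + 1)) (σ.symm (k + 1) - 1)
    obtain ⟨z4, e4⟩ := hpar (σ.symm k) (σ.symm (k + 1) - 1)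
    have f1 : Idm (σ.symm (k + 1 + 1)) (σ.symm (k + 1)) = 0 := by
      unfold Idm
      rw [if_neg]
      intro h
      have h' := σ.symm.injective h
      have : ∀ k : Fin 5, k + 1 + 1 ≠ k + 1 := by decide
      exact this k h'
    have f2 : Idm (σ.symm (k + 1)) (σ.symm (k + 1)) = 1 := by
      unfold Idm
      rw [if_pos rfl]
    have f3 : Idm (σ.symm (k + 1)) (σ.symm (k + 1) - 1) = 0 := by
      unfold Idm
      rw [if_neg]
      have : ∀ k : Fin 5, k ≠ k - 1 := by decide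
      exact this _
    by_contra hne
    have f4 : Idm (σ.symm k) (σ.symm (k + 1) - 1) = 0 := by
      unfold Idm
      rw [if_neg]
      intro h
      apply hne
      rw [h]
      have : ∀ k : Fin 5, k = k - 1 + 1 := by decide
      exact this _
    rw [e1, e2, e3, e4, f1, f2, f3, f4] at h0
    omega
  have hs : ∀ i, σ.symm (σ i + 1) = i + 1 := by
    intro i
    rw [hstep, Equiv.symm_apply_apply]
  constructor
  · intro i l
    have h0 := hD (σ i) l
    rw [hstep (σ i + 1), hs, Equiv.symm_apply_apply] at h0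
    exact h0
  · have hs0 : σ 1 = σ 0 + 1 := by
      have := hs 0
      rw [Equiv.symm_apply_eq] at this
      exact this.symm
    rw [evz_sub, hq 0, hq 1, hs0, ze_succ]
    have e : c + a * ze ^ ((σ 0 : Fin 5) : ℕ) - (c + a * (ze * ze ^ ((σ 0 : Fin 5) : ℕ))) =
        a * ze ^ ((σ 0 : Fin 5) : ℕ) * (1 - ze) := by ring
    rw [e, map_mul, map_mul, normSq_ze, Complex.normSq_eq_norm_sq a, ha, mul_one]

/-- circulant description -/
theorem circ {M : Fin 5 → (Fin 5 → ℤ)}
    (h : ∀ i l, M (i + 1 + 1) l - M (i + 1) l = M (i + 1) (l - 1) - M i (l - 1)) :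
    ∀ i k, M i k = M k k - M 0 0 + M (i - k) 0 := by
  have h1 : ∀ i l, M (i + 1 + 1) (l + 1) - M (i + 1) l = M (i + 1) (l + 1) - M i l := by
    intro i l
    have h2 := h i (l + 1)
    have e : ∀ l : Fin 5, l + 1 - 1 = l := by decide
    rw [e] at h2
    linarith
  have a0 := fun l => h1 0 l
  have a1 := fun l => h1 1 l
  have a2 := fun l => h1 2 l
  have a3 := fun l => h1 3 l
  have a4 := fun l => h1 4 l
  have c0 : ∀ l, M (0 + 1 + 1) (l + 1) = M 2 (l + 1) := fun _ => rfl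
  intro i k
  have b00 := h1 0 0
  have b01 := h1 0 1
  have b02 := h1 0 2
  have b03 := h1 0 3
  have b04 := h1 0 4
  have b10 := h1 1 0
  have b11 := h1 1 1
  have b12 := h1 1 2
  have b13 := h1 1 3
  have b14 := h1 1 4
  have b20 := h1 2 0
  have b21 := h1 2 1
  have b22 := h1 2 2
  have b23 := h1 2 3
  have b24 := h1 2 4
  have b30 := h1 3 0
  have b31 := h1 3 1
  have b32 := h1 3 2
  have b33 := h1 3 3
  have b34 := h1 3 4
  have b40 := h1 4 0
  have b41 := h1 4 1
  have b42 := h1 4 2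
  have b43 := h1 4 3
  have b44 := h1 4 4
  clear a0 a1 a2 a3 a4 c0 h1 h
  have s01 : (0 : Fin 5) + 1 = 1 := rfl
  have s11 : (1 : Fin 5) + 1 = 2 := rfl
  have s21 : (2 : Fin 5) + 1 = 3 := rfl
  have s31 : (3 : Fin 5) + 1 = 4 := rfl
  have s41 : (4 : Fin 5) + 1 = 0 := rfl
  simp only [s01, s11, s21, s31, s41] at *
  have key : ∀ i k : Fin 5, M i k = M k k - M 0 0 + M (i - k) 0 := by
    intro i k
    fin_cases i <;> fin_cases k <;>
      (first
        | (show M 0 0 = M 0 0 - M 0 0 + M 0 0; omega)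
        | (show M 0 1 = M 1 1 - M 0 0 + M 4 0; omega)
        | (show M 0 2 = M 2 2 - M 0 0 + M 3 0; omega)
        | (show M 0 3 = M 3 3 - M 0 0 + M 2 0; omega)
        | (show M 0 4 = M 4 4 - M 0 0 + M 1 0; omega)
        | (show M 1 0 = M 0 0 - M 0 0 + M 1 0; omega)
        | (show M 1 1 = M 1 1 - M 0 0 + M 0 0; omega)
        | (show M 1 2 = M 2 2 - M 0 0 + M 4 0; omega)
        | (show M 1 3 = M 3 3 - M 0 0 + M 3 0; omega)
        | (show M 1 4 = M 4 4 - M 0 0 + M 2 0; omega)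
        | (show M 2 0 = M 0 0 - M 0 0 + M 2 0; omega)
        | (show M 2 1 = M 1 1 - M 0 0 + M 1 0; omega)
        | (show M 2 2 = M 2 2 - M 0 0 + M 0 0; omega)
        | (show M 2 3 = M 3 3 - M 0 0 + M 4 0; omega)
        | (show M 2 4 = M 4 4 - M 0 0 + M 3 0; omega)
        | (show M 3 0 = M 0 0 - M 0 0 + M 3 0; omega)
        | (show M 3 1 = M 1 1 - M 0 0 + M 2 0; omega)
        | (show M 3 2 = M 2 2 - M 0 0 + M 1 0; omega)
        | (show M 3 3 = M 3 3 - M 0 0 + M 0 0; omega)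
        | (show M 3 4 = M 4 4 - M 0 0 + M 4 0; omega)
        | (show M 4 0 = M 0 0 - M 0 0 + M 4 0; omega)
        | (show M 4 1 = M 1 1 - M 0 0 + M 3 0; omega)
        | (show M 4 2 = M 2 2 - M 0 0 + M 2 0; omega)
        | (show M 4 3 = M 3 3 - M 0 0 + M 1 0; omega)
        | (show M 4 4 = M 4 4 - M 0 0 + M 0 0; omega))
  exact key i k

end Pool.Agent.H.MP_b0c270_co.Five
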