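import Pool.Agent.H.MP_b0c270_co.Centre

/-! The rescaling factors for odd polygons. -/

namespace Pool.Agent.H.MP_b0c270_co

open Finset

variable {m : ℕ}

/-- the standard root of unity -/
noncomputable def rt (N : ℕ) : ℂ := Complex.exp (2 * Real.pi * Complex.I / N)

theorem rt_prim {N : ℕ} (hN : N ≠ 0) : IsPrimitiveRoot (rt N) N := Complex.isPrimitiveRoot_exp N hN

theorem rt_ne_zero (N : ℕ) : rt N ≠ 0 := Complex.exp_ne_zero _

theorem rt_norm (N : ℕ) : ‖rt N‖ = 1 := by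
  unfold rt
  have : (2 * Real.pi * Complex.I / N : ℂ) = ((2 * Real.pi / N : ℝ) : ℂ) * Complex.I := by
    push_cast; ring
  rw [this, Complex.norm_exp_ofReal_mul_I]

theorem rt_add_inv (N : ℕ) : rt N + (rt N)⁻¹ = ((2 * Real.cos (2 * Real.pi / N) : ℝ) : ℂ) := by
  unfold rt
  rw [← Complex.exp_neg]
  push_cast
  rw [Complex.cos]
  have e1 : (2 * Real.pi * Complex.I / N : ℂ) = (2 * Real.pi / N : ℂ) * Complex.I := by ring
  have e2 : -(2 * Real.pi * Complex.I / N : ℂ) = -(2 * Real.pi / N : ℂ) * Complex.I := by ring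
  rw [e2, e1]
  ring

theorem cos_facts (hm : 2 ≤ m) : 0 < Real.cos (2 * Real.pi / (2 * m + 1 : ℕ)) ∧
    Real.cos (2 * Real.pi / (2 * m + 1 : ℕ)) < 1 := by
  have hpi := Real.pi_pos
  have hM : (5 : ℝ) ≤ ((2 * m + 1 : ℕ) : ℝ) := by exact_mod_cast (by omega : 5 ≤ 2 * m + 1)
  have h0 : 0 < 2 * Real.pi / ((2 * m + 1 : ℕ) : ℝ) := by positivity
  have h1 : 2 * Real.pi / ((2 * m + 1 : ℕ) : ℝ) ≤ 2 * Real.pi / 5 :=
    div_le_div_of_nonneg_left (by positivity) (by norm_num) hM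
  constructor
  · apply Real.cos_pos_of_mem_Ioo
    constructor
    · linarith
    · linarith
  · rw [← Real.cos_zero]
    apply Real.cos_lt_cos_of_nonneg_of_le_pi (le_refl _) _ h0
    linarith

theorem cubic_ne (hm : 2 ≤ m) {c : ℝ} (hc : c = Real.cos (2 * Real.pi / (2 * m + 1 : ℕ))) :
    4 * c ^ 3 + 2 * c ^ 2 - c - 1 ≠ 0 := by
  obtain ⟨hc0, hc1⟩ := cos_facts hm
  rw [← hc] at hc0 hc1
  have hK : rt (2 * m + 1) + (rt (2 * m + 1))⁻¹ = ((2 * c : ℝ) : ℂ) := by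
    rw [rt_add_inv, hc]
  have hprim := rt_prim (N := 2 * m + 1) (by omega)
  have hz0 := rt_ne_zero (2 * m + 1)
  have hzi : rt (2 * m + 1) * (rt (2 * m + 1))⁻¹ = 1 := mul_inv_cancel₀ hz0
  by_cases h2 : m = 2
  · subst h2
    have hs : ∑ i ∈ range 5, (rt 5) ^ i = 0 := hprim.geom_sum_eq_zero (by norm_num)
    simp only [Finset.sum_range_succ, Finset.sum_range_zero] at hs
    norm_num at hK hzi
    have h : ((4 * c ^ 2 + 2 * c - 1 : ℝ) : ℂ) = 0 := by
      push_cast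
      rw [show (4 * (c : ℂ) ^ 2 + 2 * c - 1) = (2 * c) ^ 2 + 2 * c - 1 by ring, ← hK]
      have e : ((rt 5) ^ 2) * ((rt 5 + (rt 5)⁻¹) ^ 2 + (rt 5 + (rt 5)⁻¹) - 1) = 0 := by
        linear_combination hs + (2 * rt 5 ^ 2 + rt 5 + rt 5 * (rt 5)⁻¹ + 1) * hzi
      rcases mul_eq_zero.mp e with h | h
      · exact absurd (pow_eq_zero_iff (by norm_num) |>.mp h) (rt_ne_zero 5)
      · exact h
    have h' : 4 * c ^ 2 + 2 * c - 1 = 0 := by exact_mod_cast h
    intro h3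
    have : c * (4 * c ^ 2 + 2 * c - 1) = 1 := by linarith
    rw [h'] at this
    norm_num at this
  by_cases h3 : m = 3
  · subst h3
    have hs : ∑ i ∈ range 7, (rt 7) ^ i = 0 := hprim.geom_sum_eq_zero (by norm_num)
    simp only [Finset.sum_range_succ, Finset.sum_range_zero] at hs
    norm_num at hK hzi
    have h : ((8 * c ^ 3 + 4 * c ^ 2 - 4 * c - 1 : ℝ) : ℂ) = 0 := by
      push_cast
      rw [show (8 * (c : ℂ) ^ 3 + 4 * c ^ 2 - 4 * c - 1) =
        (2 * c) ^ 3 + (2 * c) ^ 2 - 2 * (2 * c) - 1 by ring, ← hK]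
      have e : ((rt 7) ^ 3) * ((rt 7 + (rt 7)⁻¹) ^ 3 + (rt 7 + (rt 7)⁻¹) ^ 2
          - 2 * (rt 7 + (rt 7)⁻¹) - 1) = 0 := by
        set z := rt 7
        have hz1 : z * z⁻¹ = 1 := hzi
        have t1 : z ^ 3 * (z + z⁻¹) ^ 3 = (z ^ 2 + 1) ^ 3 := by
          rw [← mul_pow, mul_add, hz1]; ring
        have t2 : z ^ 3 * (z + z⁻¹) ^ 2 = z * (z ^ 2 + 1) ^ 2 := by
          rw [show z ^ 3 = z * z ^ 2 by ring, mul_assoc, ← mul_pow, mul_add, hz1]; ring
        have t3 : z ^ 3 * (z + z⁻¹) = z ^ 2 * (z ^ 2 + 1) := by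
          rw [show z ^ 3 = z ^ 2 * z by ring, mul_assoc, mul_add, hz1]; ring
        linear_combination hs + t1 + t2 - 2 * t3
      rcases mul_eq_zero.mp e with h | h
      · exact absurd (pow_eq_zero_iff (by norm_num) |>.mp h) (rt_ne_zero 7)
      · exact h
    have h' : 8 * c ^ 3 + 4 * c ^ 2 - 4 * c - 1 = 0 := by exact_mod_cast h
    intro h4
    have h5 : c = 1 / 2 := by linarith
    rw [h5] at h'
    norm_num at h'
  · have hm4 : 4 ≤ m := by omega
    have hpi := Real.pi_pos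
    have hM : (8 : ℝ) ≤ ((2 * m + 1 : ℕ) : ℝ) := by exact_mod_cast (by omega : 8 ≤ 2 * m + 1)
    have h1 : 2 * Real.pi / ((2 * m + 1 : ℕ) : ℝ) ≤ Real.pi / 4 := by
      calc 2 * Real.pi / ((2 * m + 1 : ℕ) : ℝ) ≤ 2 * Real.pi / 8 :=
            div_le_div_of_nonneg_left (by positivity) (by norm_num) hM
        _ = Real.pi / 4 := by ring
    have h2' : Real.cos (Real.pi / 4) ≤ c := by
      rw [hc]
      apply Real.cos_le_cos_of_nonneg_of_le_pi (by positivity) (by linarith) h1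
    rw [Real.cos_pi_div_four] at h2'
    have hsq : (1 / 2 : ℝ) ≤ c ^ 2 := by
      have h4 : (0 : ℝ) ≤ √2 / 2 := by positivity
      have h5 : (√2 / 2) ^ 2 ≤ c ^ 2 := pow_le_pow_left₀ h4 h2' 2
      have h6 : (√2 / 2 : ℝ) ^ 2 = 1 / 2 := by
        rw [div_pow, Real.sq_sqrt (by norm_num)]; norm_num
      linarith
    have h7 : 2 * c ≤ 4 * c ^ 3 := by nlinarith
    intro h8
    nlinarith

/-- An odd polygon with at least five vertices can be enlarged about its centre. -/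
theorem odd_centred (hm : 2 ≤ m) : ∃ w : ℂ, 1 < ‖w‖ ∧ ∀ α β : ℂ,
    RL (2 * m + 1) (2 * ((m + 1) * (7 * m + 2)) + m * (4 * m)) (st (rt (2 * m + 1)) α β)
      (st (rt (2 * m + 1)) (w * α) β) := by
  set ω := rt (2 * m + 1) with hωdef
  have hprim := rt_prim (N := 2 * m + 1) (by omega)
  have hω : ω ^ (2 * m + 1) = 1 := hprim.pow_eq_one
  have h1 : ω ≠ 1 := hprim.ne_one (by omega)
  have hω2 : (ω ^ 2) ^ (2 * m + 1) = 1 := by rw [← pow_mul, mul_comm, pow_mul, hω, one_pow]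
  have h2 : ω ^ 2 ≠ 1 := by
    intro h
    apply h1
    have : ω ^ (2 * m + 1) = ω := by rw [pow_succ, pow_mul, h, one_pow, one_mul]
    rw [← this, hω]
  have h0 : ω ≠ 0 := rt_ne_zero _
  have hmu1 := mu_spec hω h1
  have hmu2 := mu_spec hω2 h2
  set c := Real.cos (2 * Real.pi / (2 * m + 1 : ℕ)) with hc
  obtain ⟨hc0, hc1⟩ := cos_facts hm
  rw [← hc] at hc0 hc1
  have hK : ω + ω⁻¹ = ((2 * c : ℝ) : ℂ) := rt_add_inv _
  have hK2 : ω ^ 2 + (ω ^ 2)⁻¹ = ((4 * c ^ 2 - 2 : ℝ) : ℂ) := by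
    have e : ω ^ 2 + (ω ^ 2)⁻¹ = (ω + ω⁻¹) ^ 2 - 2 * (ω * ω⁻¹) := by
      rw [← inv_pow]; ring
    rw [e, hK, mul_inv_cancel₀ h0]
    push_cast
    ring
  have hc2 : 4 * c ^ 2 - 2 ≠ 0 := by
    intro h
    rw [hK2, h] at hmu2
    simp at hmu2
  have hl : 1 + 2 * mu m ω = ((1 + 1 / c : ℝ) : ℂ) := by
    have e : mu m ω = ((1 / (2 * c) : ℝ) : ℂ) := by
      rw [hK] at hmu1
      have : ((2 * c : ℝ) : ℂ) ≠ 0 := by exact_mod_cast (by positivity : (2 * c : ℝ) ≠ 0)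
      rw [eq_div_of_mul_eq this hmu1]
      push_cast
      ring
    rw [e]
    push_cast
    field_simp
  have hl2 : 1 + 2 * mu m (ω ^ 2) = ((1 + 1 / (2 * c ^ 2 - 1) : ℝ) : ℂ) := by
    have e : mu m (ω ^ 2) = ((1 / (4 * c ^ 2 - 2) : ℝ) : ℂ) := by
      rw [hK2] at hmu2
      have : ((4 * c ^ 2 - 2 : ℝ) : ℂ) ≠ 0 := by exact_mod_cast hc2
      rw [eq_div_of_mul_eq this hmu2]
      push_cast
      ring
    rw [e, show (4 * c ^ 2 - 2 : ℝ) = 2 * (2 * c ^ 2 - 1) by ring]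
    push_cast
    rw [one_div, mul_inv]
    ring
  have hc3 : 2 * c ^ 2 - 1 ≠ 0 := by
    intro h
    apply hc2
    linarith
  set l : ℝ := 1 + 1 / c with hldef
  set l2 : ℝ := 1 + 1 / (2 * c ^ 2 - 1) with hl2def
  have hlc : l * c = c + 1 := by rw [hldef]; field_simp
  have hl2c : l2 * (2 * c ^ 2 - 1) = 2 * c ^ 2 := by rw [hl2def]; field_simp; ring
  have hl0 : l ≠ 0 := by
    intro h
    rw [h] at hlc
    linarith
  have hl20 : l2 ≠ 0 := by
    intro h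
    rw [h] at hl2c
    have : 0 < c ^ 2 := by positivity
    linarith
  have hcen := fun α β => centred hω h1 α β (by rw [hl]; exact_mod_cast hl0)
  rw [hl, hl2] at hcen
  have hne : |l2| ≠ |l| := by
    intro h
    rcases abs_eq_abs.mp h with h | h
    · have e1 : 2 * c ^ 2 * c = (c + 1) * (2 * c ^ 2 - 1) := by
        linear_combination -c * hl2c + (2 * c ^ 2 - 1) * hlc + c * (2 * c ^ 2 - 1) * h
      have e2 : (2 * c + 1) * (c - 1) = 0 := by linarith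
      rcases mul_eq_zero.mp e2 with h3 | h3
      · linarith
      · linarith
    · have e1 : 2 * c ^ 2 * c = -((c + 1) * (2 * c ^ 2 - 1)) := by
        linear_combination -c * hl2c - (2 * c ^ 2 - 1) * hlc + c * (2 * c ^ 2 - 1) * h
      exact cubic_ne hm hc (by linarith)
  rcases lt_or_gt_of_ne hne with hlt | hgt
  · refine ⟨((l / l2 : ℝ) : ℂ), ?_, ?_⟩
    · rw [Complex.norm_real, Real.norm_eq_abs, abs_div, one_lt_div (abs_pos.mpr hl20)]
      exact hlt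
    · intro α β
      have h := (hcen (((l / l2 : ℝ) : ℂ) * α) β).symm
      have e : ((l2 : ℝ) : ℂ) / ((l : ℝ) : ℂ) * (((l / l2 : ℝ) : ℂ) * α) = α := by
        have a1 : ((l : ℝ) : ℂ) ≠ 0 := by exact_mod_cast hl0
        have a2 : ((l2 : ℝ) : ℂ) ≠ 0 := by exact_mod_cast hl20
        push_cast
        field_simp
      rwa [e] at h
  · refine ⟨((l2 / l : ℝ) : ℂ), ?_, ?_⟩
    · rw [Complex.norm_real, Real.norm_eq_abs, abs_div, one_lt_div (abs_pos.mpr hl0)]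
      exact hgt
    · intro α β
      have h := hcen α β
      have e : ((l2 : ℝ) : ℂ) / ((l : ℝ) : ℂ) = ((l2 / l : ℝ) : ℂ) := by push_cast; rfl
      rwa [e] at h

/-- An odd polygon with at least five vertices can be enlarged cheaply (the centre may move). -/
theorem odd_free (hm : 2 ≤ m) : ∃ w : ℂ, 1 < ‖w‖ ∧ ∀ α β : ℂ, ∃ β' : ℂ,
    RL (2 * m + 1) (2 * costPhi m) (st (rt (2 * m + 1)) α β)
      (st (rt (2 * m + 1)) (w * α) β') := by
  set ω := rt (2 * m + 1) with hωdef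
  have hprim := rt_prim (N := 2 * m + 1) (by omega)
  have hω : ω ^ (2 * m + 1) = 1 := hprim.pow_eq_one
  set c := Real.cos (2 * Real.pi / (2 * m + 1 : ℕ)) with hc
  obtain ⟨hc0, hc1⟩ := cos_facts hm
  rw [← hc] at hc0 hc1
  have hK : ω + ω⁻¹ = ((2 * c : ℝ) : ℂ) := rt_add_inv _
  refine ⟨((1 + 1 / c : ℝ) : ℂ), ?_, ?_⟩
  · rw [Complex.norm_real, Real.norm_eq_abs, abs_of_pos (by positivity)]
    have : 0 < 1 / c := by positivity
    linarith
  · intro α β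
    apply st_free hω
    rw [hK]
    push_cast
    have : (c : ℂ) ≠ 0 := by exact_mod_cast hc0.ne'
    field_simp

end Pool.Agent.H.MP_b0c270_co
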