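import Pool.Agent.H.MP_b0c270_co.Sweep

/-! The two sweeps which multiply every second edge of a path by a tridiagonal unimodular
matrix of the form `(2 + K) K⁻¹`. -/

namespace Pool.Agent.H.MP_b0c270_co

open Finset

/-- alternating sums of the odd edges -/
noncomputable def tau (A : ℕ → ℂ) : ℕ → ℂ
  | 0 => 0
  | (j + 1) => A (2 * j + 1) - tau A j

/-- displacement in the first sweep -/
noncomputable def sft (A : ℕ → ℂ) (x : ℕ) : ℂ := if x % 4 < 2 then 0 else 2 * tau A (x / 4 + 1)

noncomputable def Rr (A A' : ℕ → ℂ) (j : ℕ) : ℂ := A' (2 * j + 1) - A (2 * j + 1) + 2 * tau A (j + 1)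

noncomputable def Gg (m : ℕ) (A A' : ℕ → ℂ) (j : ℕ) : ℂ := ∑ i ∈ Ico j ((m + 1) / 2), Rr A A' i

/-- displacement in the second sweep -/
noncomputable def wft (m : ℕ) (A A' : ℕ → ℂ) (x : ℕ) : ℂ := Gg m A A' ((x + 2) / 4)

def costU (x : ℕ) : ℕ := if x % 4 < 2 then 0 else if x % 4 = 2 then 2 * (x / 4) + 1 else
  2 * (x / 4) + 2

def costL (m x : ℕ) : ℕ := 2 * ((m + 1) / 2 - (x + 2) / 4)

variable {m : ℕ} {p A A' : ℕ → ℂ}

theorem tau_tr (hA : ∀ k < m, p (2 * k + 1) - p (2 * k + 2) = A (k + 1)) (j : ℕ)
    (hj : 2 * j ≤ m + 1) : Tr p {y | y + 1 < 4 * j} j (2 * tau A j) := by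
  induction j with
  | zero => simpa [tau] using Tr.zero (P := p) (S := {y | y + 1 < 4 * 0})
  | succ j ih =>
    have h1 := (ih (by omega)).neg.mono (S' := {y | y + 1 < 4 * (j + 1)}) (by
      intro y hy
      simp only [Set.mem_ofPred_eq] at hy ⊢
      omega)
    have h2 := Tr.add (4 * j + 2) (4 * j + 1) (by simp only [Set.mem_ofPred_eq]; omega)
      (by simp only [Set.mem_ofPred_eq]; omega) h1
    have h3 := hA (2 * j) (by omega)
    have e : -(2 * tau A j) + 2 * (p (4 * j + 1) - p (4 * j + 2)) = 2 * tau A (j + 1) := by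
      have e1 : 2 * (2 * j) + 1 = 4 * j + 1 := by ring
      have e2 : 2 * (2 * j) + 2 = 4 * j + 2 := by ring
      rw [e1, e2] at h3
      rw [h3, tau]
      ring
    rwa [e] at h2

/-- first sweep -/
theorem sweepU (hA : ∀ k < m, p (2 * k + 1) - p (2 * k + 2) = A (k + 1)) :
    RL (2 * m + 1) (∑ x ∈ range (2 * m + 1), costU x) p (fun x => p x + sft A x) := by
  apply sweepDown
  intro t ht
  have h4 := Nat.div_add_mod t 4
  set j := t / 4 with hj
  by_cases h01 : t % 4 < 2
  · refine ⟨0, Nat.zero_le _, ?_⟩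
    have : p t + sft A t = p t := by simp [sft, h01]
    rw [this]
    exact Sg.refl
  · by_cases h2 : t % 4 = 2
    · have htj : t = 4 * j + 2 := by omega
      have hT := tau_tr hA j (by omega)
      have hA' := hA (2 * j) (by omega)
      have e1 : 2 * (2 * j) + 1 = 4 * j + 1 := by ring
      have e2 : 2 * (2 * j) + 2 = 4 * j + 2 := by ring
      rw [e1, e2, ← htj] at hA'
      have hs := (Sg.jump (P := p) (S := {y | y < t}) (u := p t) (4 * j + 1)
        (by simp only [Set.mem_ofPred_eq]; omega) Sg.refl).tr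
        (hT.neg.mono (S' := {y | y < t}) (by
          intro y hy
          simp only [Set.mem_ofPred_eq] at hy ⊢
          omega))
      refine ⟨0 + 1 + 2 * j, ?_, ?_⟩
      · simp only [costU, h2]
        norm_num
        omega
      · have e : 2 * p (4 * j + 1) - p t + -(2 * tau A j) = p t + sft A t := by
          simp only [sft, h2]
          norm_num
          rw [← hj, tau, ← hA']
          ring
        rwa [e] at hs
    · have htj : t = 4 * j + 3 := by omega
      have h3 : t % 4 = 3 := by omega
      have hT := tau_tr hA (j + 1) (by omega)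
      have hs := (Sg.refl (P := p) (S := {y | y < t}) (u := p t)).tr
        (hT.mono (S' := {y | y < t}) (by
          intro y hy
          simp only [Set.mem_ofPred_eq] at hy ⊢
          omega))
      refine ⟨0 + 2 * (j + 1), ?_, ?_⟩
      · simp only [costU, h3]
        norm_num
        omega
      · have e : p t + 2 * tau A (j + 1) = p t + sft A t := by
          simp only [sft, h3]
          norm_num
          rw [← hj]
        rwa [e] at hs

/-- the recurrence hypotheses -/
structure Rec (m : ℕ) (A A' : ℕ → ℂ) : Prop where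
  zero : A 0 = 0
  zero' : A' 0 = 0
  last : A (m + 1) = -A m
  last' : A' (m + 1) = -A' m
  rc : ∀ k < m, A' (k + 2) + A' k = 2 * A (k + 1) + A (k + 2) + A k

theorem Rec.even (h : Rec m A A') (j : ℕ) (hj : 2 * j ≤ m + 1) :
    A' (2 * j) = A (2 * j) + 2 * tau A j := by
  induction j with
  | zero => simp [h.zero, h.zero', tau]
  | succ j ih =>
    have h1 := ih (by omega)
    have h2 := h.rc (2 * j) (by omega)
    have e : 2 * (j + 1) = 2 * j + 2 := by ring
    rw [e, tau]
    linear_combination h2 - h1

theorem Rec.step (h : Rec m A A') (j : ℕ) (hj : 2 * j + 3 ≤ m) :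
    Rr A A' j + Rr A A' (j + 1) =
      2 * (A' (2 * j + 2)) - 2 * (A (2 * j + 3) - 2 * tau A (j + 2)) := by
  have h1 := h.rc (2 * j + 1) (by omega)
  have h2 := h.even (j + 1) (by omega)
  have e : 2 * (j + 1) = 2 * j + 2 := by ring
  have e3 : 2 * (j + 1) + 1 = 2 * j + 3 := by ring
  have e4 : 2 * j + 1 + 2 = 2 * j + 3 := by ring
  have e5 : 2 * j + 1 + 1 = 2 * j + 2 := by ring
  rw [e4, e5] at h1
  rw [e] at h2
  simp only [Rr, tau] at *
  rw [e3] at *
  linear_combination h1 - 2 * h2

theorem Gg_tr (h : Rec m A A') (hA : ∀ k < m, p (2 * k + 1) - p (2 * k + 2) = A (k + 1))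
    (d : ℕ) : ∀ j, j + d = (m + 1) / 2 →
    ∃ n ≤ d, Tr (fun x => p x + sft A x) {y | 4 * j + 2 < y ∧ y < 2 * m + 1} n
      (Gg m A A' j) := by
  have hQ3 : ∀ j, 2 * j + 1 < m → A' (2 * j + 2) =
      (p (4 * j + 3) + sft A (4 * j + 3)) - (p (4 * j + 4) + sft A (4 * j + 4)) := by
    intro j hj
    have h2 := h.even (j + 1) (by omega)
    have h3 := hA (2 * j + 1) hj
    have e : 2 * (j + 1) = 2 * j + 2 := by ring
    have e1 : 2 * (2 * j + 1) + 1 = 4 * j + 3 := by ring
    have e2 : 2 * (2 * j + 1) + 2 = 4 * j + 4 := by ring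
    have e5 : 2 * j + 1 + 1 = 2 * j + 2 := by ring
    rw [e] at h2
    rw [e1, e2, e5] at h3
    have m1 : (4 * j + 3) % 4 = 3 := by omega
    have m2 : (4 * j + 4) % 4 = 0 := by omega
    have m3 : (4 * j + 3) / 4 = j := by omega
    simp only [sft, m1, m2, m3]
    norm_num
    linear_combination h2 - h3
  have hQ5 : ∀ j, 2 * j + 2 < m → A (2 * j + 3) - 2 * tau A (j + 2) =
      (p (4 * j + 5) + sft A (4 * j + 5)) - (p (4 * j + 6) + sft A (4 * j + 6)) := by
    intro j hj
    have h3 := hA (2 * j + 2) hj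
    have e1 : 2 * (2 * j + 2) + 1 = 4 * j + 5 := by ring
    have e2 : 2 * (2 * j + 2) + 2 = 4 * j + 6 := by ring
    have e5 : 2 * j + 2 + 1 = 2 * j + 3 := by ring
    rw [e1, e2, e5] at h3
    have m1 : (4 * j + 5) % 4 = 1 := by omega
    have m2 : (4 * j + 6) % 4 = 2 := by omega
    have m3 : (4 * j + 6) / 4 = j + 1 := by omega
    simp only [sft, m1, m2, m3]
    norm_num
    linear_combination -h3
  induction d using Nat.strong_induction_on with
  | _ d ih =>
    intro j hj
    match d, ih with
    | 0, _ =>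
      refine ⟨0, le_refl _, ?_⟩
      have : Gg m A A' j = 0 := by
        unfold Gg
        rw [← hj]
        simp
      rw [this]
      exact Tr.zero
    | 1, _ =>
      have hG : Gg m A A' j = Rr A A' j := by
        unfold Gg
        rw [← hj, Nat.Ico_succ_singleton, Finset.sum_singleton]
      by_cases hm : m = 2 * j + 1
      · refine ⟨0, Nat.zero_le _, ?_⟩
        have h1 := h.rc (2 * j) (by omega)
        have h2 := h.even j (by omega)
        have l := h.last
        have l' := h.last'
        rw [hm] at l l'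
        have : Gg m A A' j = 0 := by
          rw [hG]
          simp only [Rr, tau]
          have e4 : 2 * j + 1 + 1 = 2 * j + 2 := by ring
          rw [e4] at l l'
          linear_combination -h1 + l' - l + h2
        rw [this]
        exact Tr.zero
      · have hm : m = 2 * j + 2 := by omega
        refine ⟨1, le_refl _, ?_⟩
        have h1 := h.rc (2 * j + 1) (by omega)
        have h2 := h.even (j + 1) (by omega)
        have l := h.last
        have l' := h.last'
        rw [hm] at l l'
        have h3 := hQ3 j (by omega)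
        have e : 2 * (j + 1) = 2 * j + 2 := by ring
        have e4 : 2 * j + 1 + 2 = 2 * j + 2 + 1 := by ring
        have e5 : 2 * j + 1 + 1 = 2 * j + 2 := by ring
        rw [e] at h2
        rw [e4, e5] at h1
        have hR : Gg m A A' j = 0 + 2 * ((p (4 * j + 3) + sft A (4 * j + 3)) -
            (p (4 * j + 4) + sft A (4 * j + 4))) := by
          rw [hG, ← h3]
          simp only [Rr]
          linear_combination h1 - l' + l - h2
        rw [hR]
        exact Tr.add (P := fun x => p x + sft A x) (4 * j + 4) (4 * j + 3)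
          (by simp only [Set.mem_ofPred_eq]; omega) (by simp only [Set.mem_ofPred_eq]; omega)
          Tr.zero
    | (d + 2), ih =>
      obtain ⟨n, hn, hT⟩ := ih d (by omega) (j + 2) (by omega)
      refine ⟨n + 1 + 1, by omega, ?_⟩
      have hT' := hT.mono (S' := {y | 4 * j + 2 < y ∧ y < 2 * m + 1}) (by
        intro y hy
        simp only [Set.mem_ofPred_eq] at hy ⊢
        omega)
      have hG : Gg m A A' j = Gg m A A' (j + 2) +
          2 * ((p (4 * j + 3) + sft A (4 * j + 3)) - (p (4 * j + 4) + sft A (4 * j + 4))) +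
          2 * ((p (4 * j + 6) + sft A (4 * j + 6)) - (p (4 * j + 5) + sft A (4 * j + 5))) := by
        have h1 : Gg m A A' j = Rr A A' j + (Rr A A' (j + 1) + Gg m A A' (j + 2)) := by
          unfold Gg
          rw [Finset.sum_eq_sum_Ico_succ_bot (by omega), Finset.sum_eq_sum_Ico_succ_bot (by omega)]
        have h2 := h.step j (by omega)
        have h3 := hQ3 j (by omega)
        have h5 := hQ5 j (by omega)
        linear_combination h1 + h2 + 2 * h3 - 2 * h5
      rw [hG]
      exact Tr.add (P := fun x => p x + sft A x) (4 * j + 5) (4 * j + 6)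
        (by simp only [Set.mem_ofPred_eq]; omega) (by simp only [Set.mem_ofPred_eq]; omega)
        (Tr.add (P := fun x => p x + sft A x) (4 * j + 4) (4 * j + 3)
          (by simp only [Set.mem_ofPred_eq]; omega) (by simp only [Set.mem_ofPred_eq]; omega) hT')

/-- second sweep -/
theorem sweepL (h : Rec m A A') (hA : ∀ k < m, p (2 * k + 1) - p (2 * k + 2) = A (k + 1)) :
    RL (2 * m + 1) (∑ x ∈ range (2 * m + 1), costL m x) (fun x => p x + sft A x)
      (fun x => p x + sft A x + wft m A A' x) := by
  apply sweepUp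
  intro t ht
  obtain ⟨n, hn, hT⟩ := Gg_tr h hA ((m + 1) / 2 - (t + 2) / 4) ((t + 2) / 4) (by omega)
  refine ⟨0 + 2 * n, ?_, ?_⟩
  · unfold costL
    omega
  · refine (Sg.refl (P := fun x => p x + sft A x) (S := {y | t < y ∧ y < 2 * m + 1})).tr ?_
    refine hT.mono ?_
    intro y hy
    simp only [Set.mem_ofPred_eq] at hy ⊢
    omega

/-- the edges after the two sweeps -/
theorem edges (h : Rec m A A') {p' : ℕ → ℂ}
    (hA : ∀ k < m, p (2 * k + 1) - p (2 * k + 2) = A (k + 1))
    (hA' : ∀ k < m, p' (2 * k + 1) - p' (2 * k + 2) = A' (k + 1))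
    (hB : ∀ k < m, p' (2 * k) - p' (2 * k + 1) = p (2 * k) - p (2 * k + 1))
    (x : ℕ) (hx : x < 2 * m) :
    (p x + sft A x + wft m A A' x) - p' x =
      (p (x + 1) + sft A (x + 1) + wft m A A' (x + 1)) - p' (x + 1) := by
  have h4 := Nat.div_add_mod x 4
  set j := x / 4 with hj
  have hmod : x % 4 < 4 := Nat.mod_lt _ (by norm_num)
  interval_cases hr : x % 4
  · have hxj : x = 4 * j := by omega
    have b := hB (2 * j) (by omega)
    have e1 : 2 * (2 * j) = 4 * j := by ring
    rw [e1, ← hxj] at b
    have m1 : (x + 1) % 4 = 1 := by omega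
    have m2 : (x + 1) / 4 = j := by omega
    have m3 : (x + 2) / 4 = j := by omega
    have m4 : (x + 1 + 2) / 4 = j := by omega
    simp only [sft, wft, hr, m1, m3, m4]
    norm_num
    linear_combination -b
  · have hxj : x = 4 * j + 1 := by omega
    have a := hA (2 * j) (by omega)
    have a' := hA' (2 * j) (by omega)
    have e1 : 2 * (2 * j) + 1 = 4 * j + 1 := by ring
    have e2 : 2 * (2 * j) + 2 = 4 * j + 1 + 1 := by ring
    rw [e1, e2, ← hxj] at a a'
    have m1 : (x + 1) % 4 = 2 := by omega
    have m2 : (x + 1) / 4 = j := by omega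
    have m3 : (x + 2) / 4 = j := by omega
    have m4 : (x + 1 + 2) / 4 = j + 1 := by omega
    have hG : Gg m A A' j = Rr A A' j + Gg m A A' (j + 1) := by
      unfold Gg
      rw [Finset.sum_eq_sum_Ico_succ_bot (by omega)]
    simp only [sft, wft, hr, m1, m2, m3, m4]
    norm_num
    rw [hG]
    simp only [Rr]
    linear_combination a - a'
  · have hxj : x = 4 * j + 2 := by omega
    have b := hB (2 * j + 1) (by omega)
    have e1 : 2 * (2 * j + 1) = 4 * j + 2 := by ring
    rw [e1, ← hxj] at b
    have m1 : (x + 1) % 4 = 3 := by omega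
    have m2 : (x + 1) / 4 = j := by omega
    have m3 : (x + 2) / 4 = j + 1 := by omega
    have m4 : (x + 1 + 2) / 4 = j + 1 := by omega
    simp only [sft, wft, hr, m1, m2, m3, m4, ← hj]
    norm_num
    linear_combination -b
  · have hxj : x = 4 * j + 3 := by omega
    have a := hA (2 * j + 1) (by omega)
    have a' := hA' (2 * j + 1) (by omega)
    have ev := h.even (j + 1) (by omega)
    have e0 : 2 * (j + 1) = 2 * j + 1 + 1 := by ring
    have e1 : 2 * (2 * j + 1) + 1 = 4 * j + 3 := by ring
    have e2 : 2 * (2 * j + 1) + 2 = 4 * j + 3 + 1 := by ring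
    rw [e1, e2, ← hxj] at a a'
    rw [e0] at ev
    have m1 : (x + 1) % 4 = 0 := by omega
    have m3 : (x + 2) / 4 = j + 1 := by omega
    have m4 : (x + 1 + 2) / 4 = j + 1 := by omega
    simp only [sft, wft, hr, m1, m3, m4, ← hj]
    norm_num
    linear_combination a - a' - ev

end Pool.Agent.H.MP_b0c270_co
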