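import Pool.Agent.H.MP_b0c270_co.Phi

/-! Multiplying a regular polygon with an odd number of vertices by `1 + sec`. -/

namespace Pool.Agent.H.MP_b0c270_co

open Finset

theorem sum_costU (m : ℕ) : 2 * ∑ x ∈ range (2 * m + 1), costU x = m * (m + 1) := by
  induction m with
  | zero => simp [costU]
  | succ m ih =>
    have e : 2 * (m + 1) + 1 = (2 * m + 2) + 1 := by ring
    rw [e, Finset.sum_range_succ, Finset.sum_range_succ]
    have h : costU (2 * m + 1) + costU (2 * m + 2) = m + 1 := by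
      unfold costU
      split_ifs <;> omega
    have e2 : (m + 1) * (m + 1 + 1) = m * (m + 1) + 2 * (m + 1) := by ring
    rw [e2, ← ih]
    omega

theorem sum_costL_aux (K T : ℕ) : ∑ x ∈ range K, (T - (x + 2) / 4) ≤ 2 * T ^ 2 := by
  induction T with
  | zero => simp
  | succ T ih =>
    have h1 : ∑ x ∈ range K, (T + 1 - (x + 2) / 4) ≤
        ∑ x ∈ range K, ((T - (x + 2) / 4) + (if x < 4 * T + 2 then 1 else 0)) := by
      apply Finset.sum_le_sum
      intro x _
      split_ifs <;> omega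
    rw [Finset.sum_add_distrib] at h1
    have h2 : ∑ x ∈ range K, (if x < 4 * T + 2 then 1 else 0) ≤ 4 * T + 2 := by
      rw [← Finset.card_filter]
      calc _ ≤ (range (4 * T + 2)).card := by
            apply Finset.card_le_card
            intro x hx
            simp only [mem_filter, mem_range] at hx ⊢
            exact hx.2
        _ = 4 * T + 2 := card_range _
    calc _ ≤ _ := h1
      _ ≤ 2 * T ^ 2 + (4 * T + 2) := by omega
      _ = 2 * (T + 1) ^ 2 := by ring

theorem sum_costL (m : ℕ) : ∑ x ∈ range (2 * m + 1), costL m x ≤ (m + 1) ^ 2 := by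
  unfold costL
  rw [← Finset.mul_sum]
  have h := sum_costL_aux (2 * m + 1) ((m + 1) / 2)
  have h2 : 2 * ((m + 1) / 2) ≤ m + 1 := Nat.mul_div_le _ _
  calc _ ≤ 2 * (2 * ((m + 1) / 2) ^ 2) := Nat.mul_le_mul_left _ h
    _ = (2 * ((m + 1) / 2)) ^ 2 := by ring
    _ ≤ (m + 1) ^ 2 := Nat.pow_le_pow_left h2 2

/-- the total cost of the two sweeps -/
def costPhi (m : ℕ) : ℕ := ∑ x ∈ range (2 * m + 1), costU x + ∑ x ∈ range (2 * m + 1), costL m x

theorem two_costPhi (m : ℕ) : 2 * costPhi m ≤ (m + 1) * (3 * m + 2) := by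
  unfold costPhi
  have h1 := sum_costU m
  have h2 := sum_costL m
  have e : (m + 1) * (3 * m + 2) = m * (m + 1) + 2 * (m + 1) ^ 2 := by ring
  rw [e, ← h1]
  omega

variable {m : ℕ} {p p' A A' : ℕ → ℂ}

theorem eq_of_edges {f g : ℕ → ℂ} (h : ∀ x < 2 * m, f x - g x = f (x + 1) - g (x + 1)) :
    ∀ x < 2 * m + 1, ∀ y < 2 * m + 1, f x - g x = f y - g y := by
  have h0 : ∀ x < 2 * m + 1, f x - g x = f 0 - g 0 := by
    intro x
    induction x with
    | zero => intro _; rfl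
    | succ x ih => intro hx; rw [← h x (by omega), ih (by omega)]
  intro x hx y hy
  rw [h0 x hx, h0 y hy]

theorem phi_free (h : Rec m A A')
    (hA : ∀ k < m, p (2 * k + 1) - p (2 * k + 2) = A (k + 1))
    (hA' : ∀ k < m, p' (2 * k + 1) - p' (2 * k + 2) = A' (k + 1))
    (hB : ∀ k < m, p' (2 * k) - p' (2 * k + 1) = p (2 * k) - p (2 * k + 1)) :
    ∃ c, RL (2 * m + 1) (costPhi m) p (fun x => p' x + c) := by
  refine ⟨p 0 + sft A 0 + wft m A A' 0 - p' 0, ((sweepU hA).trans (sweepL h hA)).congr_right ?_⟩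
  intro x hx
  have h1 := eq_of_edges (edges h hA hA' hB) x hx 0 (by omega)
  linear_combination h1

theorem phi_anch (h : Rec m A A')
    (hA : ∀ k < m, p (2 * k + 1) - p (2 * k + 2) = A (k + 1))
    (hA' : ∀ k < m, p' (2 * k + 1) - p' (2 * k + 2) = A' (k + 1))
    (hB : ∀ k < m, p' (2 * k) - p' (2 * k + 1) = p (2 * k) - p (2 * k + 1))
    {x₀ : ℕ} (hx₀ : x₀ < 2 * m + 1) (hx : p' x₀ = p x₀) :
    RL (2 * m + 1) (costPhi m + ((if x₀ % 4 < 2 then 0 else x₀ / 4 + 1) +
      ((m + 1) / 2 - (x₀ + 2) / 4)) * (4 * m)) p p' := by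
  have hM : 2 * (2 * m + 1) - 2 = 4 * m := by omega
  -- first translation
  have t1 : Tr p (Set.Iio (2 * m + 1)) (if x₀ % 4 < 2 then 0 else x₀ / 4 + 1) (-(sft A x₀)) := by
    unfold sft
    by_cases hc : x₀ % 4 < 2
    · simp only [hc, if_true, neg_zero]
      exact Tr.zero
    · simp only [hc, if_false]
      refine ((tau_tr hA (x₀ / 4 + 1) (by omega)).neg).mono ?_
      intro y hy
      simp only [Set.mem_ofPred_eq, Set.mem_Iio] at hy ⊢
      omega
  have r1 := shift_tr t1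
  rw [hM] at r1
  -- the sweeps for the translated configurations
  have hAc : ∀ c : ℂ, ∀ k < m, (fun x => p x + c) (2 * k + 1) - (fun x => p x + c) (2 * k + 2) =
      A (k + 1) := by
    intro c k hk
    have := hA k hk
    simp only
    linear_combination this
  have r2 := sweepU (p := fun x => p x + -(sft A x₀)) (hAc (-(sft A x₀)))
  obtain ⟨n, hn, t3⟩ := Gg_tr (p := fun x => p x + -(sft A x₀)) h (hAc (-(sft A x₀))) ((m + 1) / 2 - (x₀ + 2) / 4) ((x₀ + 2) / 4)
    (by omega)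
  have r3 := shift_tr ((t3.neg).mono (S' := Set.Iio (2 * m + 1)) (fun y hy => hy.2))
  rw [hM] at r3
  have r4 := sweepL (p := fun x => p x + (-(sft A x₀) - wft m A A' x₀)) h
    (hAc (-(sft A x₀) - wft m A A' x₀))
  have r34 := r3.trans (r4.congr_left (r := fun x => p x + -(sft A x₀) + sft A x +
    -(Gg m A A' ((x₀ + 2) / 4))) (by
      intro x _
      simp only [wft]
      ring))
  have r := (r1.trans r2).trans r34
  refine RL.mono (r.congr_right ?_) ?_
  · intro x hxM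
    have h1 := eq_of_edges (edges h hA hA' hB) x hxM x₀ hx₀
    rw [hx] at h1
    linear_combination h1
  · have h5 : n * (4 * m) ≤ ((m + 1) / 2 - (x₀ + 2) / 4) * (4 * m) := Nat.mul_le_mul_right _ hn
    unfold costPhi
    rw [Nat.add_mul]
    omega

/-- vertices along the zigzag path -/
noncomputable def ex (η : ℂ) (x : ℕ) : ℂ := if x % 2 = 0 then η ^ (x / 2) else η⁻¹ ^ ((x + 1) / 2)

theorem ex_even (η : ℂ) (k : ℕ) : ex η (2 * k) = η ^ k := by
  have h1 : 2 * k % 2 = 0 := by omega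
  have h2 : 2 * k / 2 = k := by omega
  simp [ex, h2]

theorem ex_odd (η : ℂ) (k : ℕ) : ex η (2 * k + 1) = η⁻¹ ^ (k + 1) := by
  have h1 : (2 * k + 1) % 2 = 1 := by omega
  have h2 : (2 * k + 1 + 1) / 2 = k + 1 := by omega
  simp [ex, h1, h2]

noncomputable def Dd (η : ℂ) (k : ℕ) : ℂ := η⁻¹ ^ k - η ^ k

theorem Dd_rec {η : ℂ} (h0 : η ≠ 0) (k : ℕ) :
    Dd η (k + 2) + Dd η k = (η + η⁻¹) * Dd η (k + 1) := by
  unfold Dd
  have h : η * η⁻¹ = 1 := mul_inv_cancel₀ h0
  have e1 : η⁻¹ ^ (k + 2) = η⁻¹ * η⁻¹ * η⁻¹ ^ k := by ring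
  have e2 : η ^ (k + 2) = η * η * η ^ k := by ring
  have e3 : η⁻¹ ^ (k + 1) = η⁻¹ * η⁻¹ ^ k := by ring
  have e4 : η ^ (k + 1) = η * η ^ k := by ring
  rw [e1, e2, e3, e4]
  linear_combination (-(η⁻¹ ^ k) + η ^ k) * h

theorem inv_pow_eq {η : ℂ} (hη : η ^ (2 * m + 1) = 1) {a b : ℕ} (hab : a + b = 2 * m + 1) :
    η⁻¹ ^ a = η ^ b := by
  have h0 : η ≠ 0 := by
    rintro rfl
    simp at hη
  have h1 : η⁻¹ ^ a * η ^ a = 1 := by rw [← mul_pow, inv_mul_cancel₀ h0, one_pow]
  have h2 : η ^ a * η ^ b = 1 := by rw [← pow_add, hab, hη]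
  calc η⁻¹ ^ a = η⁻¹ ^ a * (η ^ a * η ^ b) := by rw [h2, mul_one]
    _ = (η⁻¹ ^ a * η ^ a) * η ^ b := by ring
    _ = η ^ b := by rw [h1, one_mul]

theorem Dd_Rec {η l c : ℂ} (hη : η ^ (2 * m + 1) = 1) (hl : l * (η + η⁻¹) = η + η⁻¹ + 2) :
    Rec m (fun k => c * Dd η k) (fun k => l * (c * Dd η k)) := by
  have h0 : η ≠ 0 := by
    rintro rfl
    simp at hη
  have hlast : Dd η (m + 1) = -Dd η m := by
    unfold Dd
    rw [inv_pow_eq hη (a := m + 1) (b := m) (by ring),
      inv_pow_eq hη (a := m) (b := m + 1) (by ring)]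
    ring
  refine ⟨by simp [Dd], by simp [Dd], ?_, ?_, ?_⟩
  · simp only [hlast]; ring
  · simp only [hlast]; ring
  · intro k _
    have h1 := Dd_rec h0 k
    linear_combination (l * c - c) * h1 + c * Dd η (k + 1) * hl

/-- the intermediate configuration -/
noncomputable def mid (η l α β : ℂ) (x : ℕ) : ℂ :=
  α * ex η x + β - ∑ i ∈ range (x / 2), (l - 1) * (α * Dd η (i + 1))

theorem mid_A (η l α β : ℂ) (k : ℕ) :
    mid η l α β (2 * k + 1) - mid η l α β (2 * k + 2) = l * (α * Dd η (k + 1)) := by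
  have e : 2 * k + 2 = 2 * (k + 1) := by ring
  have h1 : (2 * k + 1) / 2 = k := by omega
  have h2 : (2 * (k + 1)) / 2 = k + 1 := by omega
  unfold mid
  rw [e, ex_even, ex_odd, h1, h2, Finset.sum_range_succ]
  unfold Dd
  ring

theorem mid_B (η l α β : ℂ) (k : ℕ) :
    mid η l α β (2 * k) - mid η l α β (2 * k + 1) =
      (α * ex η (2 * k) + β) - (α * ex η (2 * k + 1) + β) := by
  have h1 : (2 * k + 1) / 2 = k := by omega
  have h2 : (2 * k) / 2 = k := by omega
  unfold mid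
  rw [h1, h2]
  ring

theorem st_A (η α β : ℂ) (k : ℕ) :
    (α * ex η (2 * k + 1) + β) - (α * ex η (2 * k + 2) + β) = α * Dd η (k + 1) := by
  have e : 2 * k + 2 = 2 * (k + 1) := by ring
  rw [e, ex_even, ex_odd]
  unfold Dd
  ring

theorem st_B {η : ℂ} (hη : η ^ (2 * m + 1) = 1) (α β : ℂ) (k : ℕ) (hk : k < m) :
    (α * ex η (2 * m - (2 * k + 1)) + β) - (α * ex η (2 * m - (2 * k + 2)) + β) =
      (-(α * η ^ m)) * Dd η (k + 1) := by
  obtain ⟨j, rfl⟩ : ∃ j, m = k + 1 + j := ⟨m - (k + 1), by omega⟩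
  have e1 : 2 * (k + 1 + j) - (2 * k + 1) = 2 * j + 1 := by omega
  have e2 : 2 * (k + 1 + j) - (2 * k + 2) = 2 * j := by omega
  rw [e1, e2, ex_even, ex_odd]
  have h0 : η ≠ 0 := by
    rintro rfl
    simp at hη
  have h1 : η ^ (k + 1 + j) * η⁻¹ ^ (k + 1) = η ^ j := by
    rw [pow_add, mul_comm (η ^ (k + 1)), mul_assoc, ← mul_pow, mul_inv_cancel₀ h0, one_pow, mul_one]
  have h2 : η⁻¹ ^ (j + 1) = η ^ (k + 1 + j) * η ^ (k + 1) := by
    rw [← pow_add]
    exact inv_pow_eq hη (by ring)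
  rw [h2]
  unfold Dd
  linear_combination α * h1

theorem scale_free {η l : ℂ} (hη : η ^ (2 * m + 1) = 1) (hl : l * (η + η⁻¹) = η + η⁻¹ + 2)
    (α β : ℂ) : ∃ β', RL (2 * m + 1) (2 * costPhi m) (fun x => α * ex η x + β)
      (fun x => l * α * ex η x + β') := by
  obtain ⟨c, h1⟩ := phi_free (p := fun x => α * ex η x + β) (p' := mid η l α β)
    (Dd_Rec (c := α) hη hl) (fun k _ => st_A η α β k) (fun k _ => mid_A η l α β k)
    (fun k _ => mid_B η l α β k)
  have hrev : ∀ q : ℕ → ℂ, ∀ x < 2 * m + 1,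
      q ((fun x => 2 * m - x) x) = (fun x => q (2 * m - x)) x := fun _ _ _ => rfl
  obtain ⟨c', h2⟩ := phi_free (p := fun x => mid η l α β (2 * m - x) + c)
    (p' := fun x => l * α * ex η (2 * m - x) + 0)
    (Dd_Rec (c := -(α * η ^ m)) hη hl) (fun k hk => by
      obtain ⟨j, rfl⟩ : ∃ j, m = k + 1 + j := ⟨m - (k + 1), by omega⟩
      have e1 : 2 * (k + 1 + j) - (2 * k + 1) = 2 * j + 1 := by omega
      have e2 : 2 * (k + 1 + j) - (2 * k + 2) = 2 * j := by omega
      have h3 := mid_B η l α β j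
      have h4 := st_B hη α β k hk
      rw [e1, e2] at h4 ⊢
      linear_combination h4 - h3) (fun k hk => by
      have h4 := st_B hη (l * α) 0 k hk
      linear_combination h4) (fun k hk => by
      obtain ⟨j, rfl⟩ : ∃ j, m = k + 1 + j := ⟨m - (k + 1), by omega⟩
      have e1 : 2 * (k + 1 + j) - 2 * k = 2 * j + 2 := by omega
      have e2 : 2 * (k + 1 + j) - (2 * k + 1) = 2 * j + 1 := by omega
      have h3 := mid_A η l α β j
      have h4 := st_A η (l * α) 0 j
      simp only [e1, e2]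
      linear_combination h3 - h4)
  refine ⟨c', ?_⟩
  have h3 : RL (2 * m + 1) (costPhi m) (fun x => mid η l α β x + c)
      (fun x => l * α * ex η x + c') := by
    refine h2.relabel (fun x => 2 * m - x) ?_ ?_ ?_ ?_
    · intro x hx y hy hxy
      simp only [Set.mem_Iio] at hx hy hxy
      omega
    · intro x hx
      simp only [Set.mem_Iio] at hx ⊢
      omega
    · intro x hx; rfl
    · intro x hx; simp
  have e : 2 * costPhi m = costPhi m + costPhi m := two_mul _
  rw [e]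
  exact h1.trans h3

theorem scale_anch {η l : ℂ} (hη : η ^ (2 * m + 1) = 1) (hl : l * (η + η⁻¹) = η + η⁻¹ + 2)
    (α β : ℂ) : RL (2 * m + 1) ((m + 1) * (7 * m + 2)) (fun x => α * ex η x + β)
      (fun x => l * α * ex η x + (β + α * (1 - l))) := by
  have h1 := phi_anch (p := fun x => α * ex η x + β) (p' := mid η l α β)
    (Dd_Rec (c := α) hη hl) (fun k _ => st_A η α β k) (fun k _ => mid_A η l α β k)
    (fun k _ => mid_B η l α β k) (x₀ := 0) (by omega) (by simp [mid])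
  have h2 := phi_anch (p := fun x => mid η l α β (2 * m - x))
    (p' := fun x => l * α * ex η (2 * m - x) + (β + α * (1 - l)))
    (Dd_Rec (c := -(α * η ^ m)) hη hl) (fun k hk => by
      obtain ⟨j, rfl⟩ : ∃ j, m = k + 1 + j := ⟨m - (k + 1), by omega⟩
      have e1 : 2 * (k + 1 + j) - (2 * k + 1) = 2 * j + 1 := by omega
      have e2 : 2 * (k + 1 + j) - (2 * k + 2) = 2 * j := by omega
      have h3 := mid_B η l α β j
      have h4 := st_B hη α β k hk
      rw [e1, e2] at h4 ⊢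
      linear_combination h4 - h3) (fun k hk => by
      have h4 := st_B hη (l * α) (β + α * (1 - l)) k hk
      linear_combination h4) (fun k hk => by
      obtain ⟨j, rfl⟩ : ∃ j, m = k + 1 + j := ⟨m - (k + 1), by omega⟩
      have e1 : 2 * (k + 1 + j) - 2 * k = 2 * j + 2 := by omega
      have e2 : 2 * (k + 1 + j) - (2 * k + 1) = 2 * j + 1 := by omega
      have h3 := mid_A η l α β j
      have h4 := st_A η (l * α) (β + α * (1 - l)) j
      simp only [e1, e2]
      linear_combination h3 - h4) (x₀ := 2 * m) (by omega) (by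
      simp [mid, ex]
      ring)
  have h3 : RL (2 * m + 1) (costPhi m + ((if 2 * m % 4 < 2 then 0 else 2 * m / 4 + 1) +
      ((m + 1) / 2 - (2 * m + 2) / 4)) * (4 * m)) (mid η l α β)
      (fun x => l * α * ex η x + (β + α * (1 - l))) := by
    refine h2.relabel (fun x => 2 * m - x) ?_ ?_ ?_ ?_
    · intro x hx y hy hxy
      simp only [Set.mem_Iio] at hx hy hxy
      omega
    · intro x hx
      simp only [Set.mem_Iio] at hx ⊢
      omega
    · intro x hx; rfl
    · intro x hx; rfl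
  refine RL.mono (h1.trans h3) ?_
  have hc := two_costPhi m
  have e1 : (0 % 4 < 2) := by norm_num
  have e2 : (2 * m + 2) / 4 = (m + 1) / 2 := by omega
  rw [if_pos e1, e2]
  have e3 : (if 2 * m % 4 < 2 then 0 else 2 * m / 4 + 1) ≤ (m + 1) / 2 := by
    split_ifs <;> omega
  have e4 : (0 + ((m + 1) / 2 - (0 + 2) / 4)) ≤ (m + 1) / 2 := by omega
  have e5 : ((if 2 * m % 4 < 2 then 0 else 2 * m / 4 + 1) + ((m + 1) / 2 - (m + 1) / 2)) ≤
      (m + 1) / 2 := by omega
  have e6 := Nat.mul_le_mul_right (4 * m) e4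
  have e7 := Nat.mul_le_mul_right (4 * m) e5
  have e8 : (m + 1) / 2 * (4 * m) ≤ 2 * m * (m + 1) := by
    have : 2 * ((m + 1) / 2) ≤ m + 1 := Nat.mul_div_le _ _
    calc (m + 1) / 2 * (4 * m) = 2 * m * (2 * ((m + 1) / 2)) := by ring
      _ ≤ 2 * m * (m + 1) := Nat.mul_le_mul_left _ this
  have e9 : (m + 1) * (7 * m + 2) = (m + 1) * (3 * m + 2) + 2 * m * (m + 1) + 2 * m * (m + 1) := by
    ring
  rw [e9]
  omega

end Pool.Agent.H.MP_b0c270_co
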