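import Pool.Agent.H.MP_b0c270_co.Basic

/-! Sweeps and translations. -/

namespace Pool.Agent.H.MP_b0c270_co

open Finset

theorem Sg.map {P P' : ℕ → ℂ} {S S' : Set ℕ} (f : ℕ → ℕ)
    (hf : ∀ y ∈ S, f y ∈ S' ∧ P' (f y) = P y) {u : ℂ} {n : ℕ} {v : ℂ} (h : Sg P S u n v) :
    Sg P' S' u n v := by
  induction h with
  | refl => exact Sg.refl
  | @jump n v y hy _ ih =>
    have := Sg.jump (f y) (hf y hy).1 ih
    rwa [(hf y hy).2] at this

/-- Process the labels upwards: every piece uses only higher pieces (in their old positions). -/
theorem sweepUp {M : ℕ} {P Q : ℕ → ℂ} {c : ℕ → ℕ}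
    (h : ∀ t < M, ∃ n ≤ c t, Sg P {y | t < y ∧ y < M} (P t) n (Q t)) :
    RL M (∑ t ∈ range M, c t) P Q := by
  have key : ∀ k ≤ M, RL M (∑ t ∈ range k, c t) P (fun y => if y < k then Q y else P y) := by
    intro k
    induction k with
    | zero => intro _; simpa using RL.refl M P
    | succ k ih =>
      intro hk
      have h1 := ih (by omega)
      obtain ⟨n, hn, hs⟩ := h k hk
      have h2 : MovesOn (Set.Iio M) n (fun y => if y < k then Q y else P y)
          (Function.update (fun y => if y < k then Q y else P y) k (Q k)) := by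
        apply Sg.moves (P := P) (S := {y | k < y ∧ y < M}) hk
        · rintro y ⟨hy1, hy2⟩
          exact ⟨hy2, by omega, by simp [Nat.not_lt.mpr hy1.le]⟩
        · simpa using hs
      rw [Finset.sum_range_succ]
      refine h1.trans ⟨n, hn, _, h2, ?_⟩
      intro x hx
      by_cases hxk : x = k
      · subst hxk
        simp
      · rw [Function.update_of_ne hxk]
        by_cases hx2 : x < k
        · simp [hx2, Nat.lt_succ_of_lt hx2]
        · have : ¬ x < k + 1 := by omega
          simp [hx2, this]
  refine (key M (le_refl _)).congr_right ?_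
  intro x hx
  simp [hx]

/-- Process the labels downwards: every piece uses only lower pieces (in their old positions). -/
theorem sweepDown {M : ℕ} {P Q : ℕ → ℂ} {c : ℕ → ℕ}
    (h : ∀ t < M, ∃ n ≤ c t, Sg P {y | y < t} (P t) n (Q t)) :
    RL M (∑ t ∈ range M, c t) P Q := by
  have h1 : RL M (∑ t ∈ range M, c (M - 1 - t)) (fun x => P (M - 1 - x))
      (fun x => Q (M - 1 - x)) := by
    apply sweepUp
    intro t ht
    obtain ⟨n, hn, hs⟩ := h (M - 1 - t) (by omega)
    refine ⟨n, hn, hs.map (fun y => M - 1 - y) ?_⟩
    intro y hy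
    simp only [Set.mem_ofPred_eq] at hy ⊢
    refine ⟨⟨by omega, by omega⟩, ?_⟩
    congr 1
    omega
  rw [Finset.sum_range_reflect] at h1
  refine h1.relabel (fun x => M - 1 - x) ?_ ?_ ?_ ?_
  · intro x hx y hy hxy
    simp only [Set.mem_Iio] at hx hy hxy
    omega
  · intro x hx
    simp only [Set.mem_Iio] at hx ⊢
    omega
  · intro x hx; rfl
  · intro x hx; rfl

theorem shift_one {M : ℕ} {P : ℕ → ℂ} {a b : ℕ} (ha : a < M) (hb : b < M) (hab : a ≠ b) :
    RL M (2 * M - 2) P (fun x => P x + 2 * (P b - P a)) := by
  set v : ℂ := 2 * (P b - P a) with hv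
  let Z : ℕ → ℕ → ℂ := fun k y => if y < k ∧ y ≠ a ∧ y ≠ b then P y + v else P y
  have key : ∀ k ≤ M, RL M (∑ t ∈ range k, (if t = a ∨ t = b then 0 else 2)) P (Z k) := by
    intro k
    induction k with
    | zero => intro _; simpa [Z] using RL.refl M P
    | succ k ih =>
      intro hk
      have h1 := ih (by omega)
      rw [Finset.sum_range_succ]
      refine h1.trans ?_
      by_cases hka : k = a ∨ k = b
      · rw [if_pos hka]
        refine (RL.refl M (Z k)).congr_right ?_
        intro x hx
        simp only [Z]
        by_cases hx2 : x ≠ a ∧ x ≠ b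
        · have : x ≠ k := by rintro rfl; rcases hka with h | h <;> simp_all
          have e : x < k ↔ x < k + 1 := by omega
          simp only [e]
        · simp [hx2]
      · rw [if_neg hka]
        push Not at hka
        have h2 : MovesOn (Set.Iio M) (0 + 2 * 1) (Z k) (Function.update (Z k) k (P k + v)) := by
          apply Sg.moves (P := P) (S := {y | y = a ∨ y = b}) hk
          · rintro y (rfl | rfl)
            · exact ⟨ha, Ne.symm hka.1, by simp [Z]⟩
            · exact ⟨hb, Ne.symm hka.2, by simp [Z]⟩
          · have e : Z k k = P k := by simp [Z]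
            rw [e]
            refine Sg.tr Sg.refl ?_
            have := Tr.add (P := P) (S := {y | y = a ∨ y = b}) a b (by simp) (by simp) Tr.zero
            rwa [zero_add, zero_add] at this
        refine ⟨_, by norm_num, _, h2, ?_⟩
        intro x hx
        by_cases hxk : x = k
        · subst hxk
          simp [Z, hka]
        · rw [Function.update_of_ne hxk]
          simp only [Z]
          have e : x < k ↔ x < k + 1 := by omega
          simp only [e]
  have h1 := key M (le_refl _)
  have hZa : Z M a = P a := by simp [Z]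
  have hZb : Z M b = P b := by simp [Z]
  -- a jumps over b
  have h2 := MovesOn.single (S := Set.Iio M) (q := Z M) a b ha hb hab
  have h3 := MovesOn.step (S := Set.Iio M) b a hb ha (Ne.symm hab) h2
  rw [hZa, hZb, Function.update_self, Function.update_of_ne (Ne.symm hab), hZb] at h3
  have hsum : (∑ t ∈ range M, (if t = a ∨ t = b then 0 else 2)) + 2 = 2 * M - 2 := by
    have e1 : (∑ t ∈ range M, (if t = a ∨ t = b then 0 else 2)) +
        (∑ t ∈ range M, (if t = a then 2 else 0)) + (∑ t ∈ range M, (if t = b then 2 else 0))
        = 2 * M := by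
      rw [← Finset.sum_add_distrib, ← Finset.sum_add_distrib]
      rw [Finset.sum_congr rfl (g := fun _ => 2)]
      · simp [mul_comm]
      · intro t _
        by_cases h1 : t = a
        · subst h1; simp [hab]
        · by_cases h2 : t = b
          · subst h2; simp [Ne.symm hab]
          · simp [h1, h2]
    rw [Finset.sum_ite_eq' (range M) a, Finset.sum_ite_eq' (range M) b] at e1
    simp only [mem_range, ha, hb, if_true] at e1
    omega
  refine RL.mono (h1.trans ⟨2, le_refl _, _, h3, ?_⟩) hsum.le
  intro x hx
  by_cases hxb : x = b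
  · subst hxb
    rw [Function.update_self, hv]
    ring
  · rw [Function.update_of_ne hxb]
    by_cases hxa : x = a
    · subst hxa
      rw [Function.update_self, hv]
      ring
    · rw [Function.update_of_ne hxa]
      simp [Z, hx, hxa, hxb]

theorem shift_tr {M : ℕ} {P : ℕ → ℂ} {n : ℕ} {v : ℂ} (h : Tr P (Set.Iio M) n v) :
    RL M (n * (2 * M - 2)) P (fun x => P x + v) := by
  induction h with
  | zero => simpa using RL.refl M P
  | @add n v a b ha hb _ ih =>
    rw [Nat.add_mul, one_mul]
    by_cases hab : a = b
    · subst hab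
      refine RL.mono ?_ (Nat.le_add_right _ _)
      refine ih.congr_right ?_
      intro x _
      ring
    · refine ih.trans ?_
      refine (shift_one (P := fun x => P x + v) ha hb hab).congr_right ?_
      intro x _
      ring

end Pool.Agent.H.MP_b0c270_co
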